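import Pool.Agent.H.MP_9f60e7_an.Defs

/-!
Part C: the self-similar ansatz solves the wave map equation inside the cone.
-/

set_option autoImplicit false

namespace Pool.Agent.H.MP_9f60e7_an

open Finset

/-- The scalar building block `T ^ α f(|x|^2 / T^2)`. -/
noncomputable def GG (α : ℝ) (f : ℝ → ℝ) (X : Fin 4 → ℝ) : ℝ :=
  (1 - X 0) ^ α * f (sq X / (1 - X 0) ^ 2)

/-- Its derivative. -/
noncomputable def dGG (α : ℝ) (f : ℝ → ℝ) (X : Fin 4 → ℝ) : (Fin 4 → ℝ) →L[ℝ] ℝ :=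
  ((1 - X 0) ^ (α - 1) * (-α * f (sq X / (1 - X 0) ^ 2) +
    2 * (sq X / (1 - X 0) ^ 2) * deriv f (sq X / (1 - X 0) ^ 2))) •
      ContinuousLinearMap.proj (R := ℝ) (φ := fun _ : Fin 4 => ℝ) 0 +
  ∑ i : Fin 3, (2 * X i.succ * ((1 - X 0) ^ (α - 2) * deriv f (sq X / (1 - X 0) ^ 2))) •
      ContinuousLinearMap.proj (R := ℝ) (φ := fun _ : Fin 4 => ℝ) i.succ

theorem hasFDerivAt_sq (X : Fin 4 → ℝ) :
    HasFDerivAt sq (∑ i : Fin 3, (2 * X i.succ) •
      ContinuousLinearMap.proj (R := ℝ) (φ := fun _ : Fin 4 => ℝ) i.succ) X := by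
  unfold sq
  have h1 : ∀ i ∈ (univ : Finset (Fin 3)), HasFDerivAt (fun X : Fin 4 → ℝ => (X i.succ) ^ 2)
      ((2 * X i.succ) • ContinuousLinearMap.proj (R := ℝ) (φ := fun _ : Fin 4 => ℝ) i.succ) X := by
    intro i _
    have h2 := ((ContinuousLinearMap.proj (R := ℝ) (φ := fun _ : Fin 4 => ℝ) i.succ).hasFDerivAt
      (x := X)).pow 2
    simpa using h2
  exact HasFDerivAt.fun_sum h1

theorem hasDerivAt_inv_sq {t : ℝ} (ht : t ≠ 0) :
    HasDerivAt (fun t : ℝ => (t ^ 2)⁻¹) (-(2 * t) / (t ^ 2) ^ 2) t := by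
  have h := (hasDerivAt_pow 2 t).fun_inv (pow_ne_zero 2 ht)
  simpa using h

theorem hasFDerivAt_GG {α : ℝ} {f : ℝ → ℝ} {X : Fin 4 → ℝ} (hX : X 0 < 1)
    (hf : DifferentiableAt ℝ f (sq X / (1 - X 0) ^ 2)) :
    HasFDerivAt (GG α f) (dGG α f X) X := by
  have hT : 0 < 1 - X 0 := by linarith
  have hT' : (1 - X 0) ≠ 0 := hT.ne'
  have h1 : HasFDerivAt (fun X : Fin 4 → ℝ => 1 - X 0)
      (-ContinuousLinearMap.proj (R := ℝ) (φ := fun _ : Fin 4 => ℝ) 0) X :=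
    ((ContinuousLinearMap.proj (R := ℝ) (φ := fun _ : Fin 4 => ℝ) 0).hasFDerivAt
      (x := X)).const_sub 1
  have h2 := h1.rpow_const (p := α) (Or.inl hT')
  have h6 := (hasDerivAt_inv_sq hT').comp_hasFDerivAt X h1
  have h3 : HasFDerivAt (fun X : Fin 4 → ℝ => sq X / (1 - X 0) ^ 2) _ X :=
    (hasFDerivAt_sq X).fun_mul h6
  have h4 := hf.hasDerivAt.comp_hasFDerivAt X h3
  have h5 : HasFDerivAt (GG α f) _ X := h2.fun_mul h4
  refine h5.congr_fderiv ?_
  have e1 : (1 - X 0) ^ (α - 1) = (1 - X 0) ^ α / (1 - X 0) := by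
    rw [Real.rpow_sub_one hT']
  have e2 : (1 - X 0) ^ (α - 2) = (1 - X 0) ^ α / (1 - X 0) ^ 2 := by
    have : α - 2 = (α - 1) - 1 := by ring
    rw [this, Real.rpow_sub_one hT', Real.rpow_sub_one hT']
    field_simp
  ext v
  simp only [dGG, e1, e2, Fin.sum_univ_three]
  simp
  generalize f (sq X / (1 - X 0) ^ 2) = F
  generalize deriv f (sq X / (1 - X 0) ^ 2) = F'
  generalize (1 - X 0) ^ α = P
  generalize 1 - X 0 = T at hT'
  generalize sq X = Q
  field_simp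
  ring

theorem dGG_zero (α : ℝ) (f : ℝ → ℝ) (X : Fin 4 → ℝ) :
    dGG α f X (Pi.single 0 1) = GG (α - 1) (fun s => -α * f s + 2 * s * deriv f s) X := by
  simp [dGG, GG]

theorem dGG_succ (α : ℝ) (f : ℝ → ℝ) (X : Fin 4 → ℝ) (i : Fin 3) :
    dGG α f X (Pi.single i.succ 1) = 2 * X i.succ * GG (α - 2) (deriv f) X := by
  fin_cases i <;> simp [dGG, GG, Fin.sum_univ_three]

theorem contDiff_deriv {f : ℝ → ℝ} (hf : ContDiff ℝ (⊤ : ℕ∞) f) :
    ContDiff ℝ (⊤ : ℕ∞) (deriv f) := by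
  have := hf.iterate_deriv 1
  simpa using this

theorem second_zero {α : ℝ} {f : ℝ → ℝ} (hf : ContDiff ℝ (⊤ : ℕ∞) f) {X : Fin 4 → ℝ}
    (hX : X 0 < 1) :
    fderiv ℝ (fun Y => dGG α f Y (Pi.single 0 1)) X (Pi.single 0 1) =
      (1 - X 0) ^ (α - 2) * (-(α - 1) * (-α * f (sq X / (1 - X 0) ^ 2) +
        2 * (sq X / (1 - X 0) ^ 2) * deriv f (sq X / (1 - X 0) ^ 2)) +
        2 * (sq X / (1 - X 0) ^ 2) * ((2 - α) * deriv f (sq X / (1 - X 0) ^ 2) +
          2 * (sq X / (1 - X 0) ^ 2) * deriv (deriv f) (sq X / (1 - X 0) ^ 2))) := by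
  have hf1 := contDiff_deriv hf
  have e : (fun Y => dGG α f Y (Pi.single 0 1)) =
      GG (α - 1) (fun s => -α * f s + 2 * s * deriv f s) := by
    funext Y
    exact dGG_zero α f Y
  have hd : ∀ s, HasDerivAt (fun s => -α * f s + 2 * s * deriv f s)
      ((2 - α) * deriv f s + 2 * s * deriv (deriv f) s) s := by
    intro s
    have h1 := ((hf.differentiable (by simp)).differentiableAt (x := s)).hasDerivAt
    have h2 := ((hf1.differentiable (by simp)).differentiableAt (x := s)).hasDerivAt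
    have h3 := (h1.const_mul (-α)).fun_add (((hasDerivAt_id' s).const_mul 2).fun_mul h2)
    refine h3.congr_deriv ?_
    ring
  rw [e, (hasFDerivAt_GG hX (hd _).differentiableAt).fderiv, dGG_zero]
  simp only [GG, (hd _).deriv]
  have e3 : α - 1 - 1 = α - 2 := by ring
  rw [e3]

theorem second_succ {α : ℝ} {f : ℝ → ℝ} (hf : ContDiff ℝ (⊤ : ℕ∞) f) {X : Fin 4 → ℝ}
    (hX : X 0 < 1) (i : Fin 3) :
    fderiv ℝ (fun Y => dGG α f Y (Pi.single i.succ 1)) X (Pi.single i.succ 1) =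
      2 * (1 - X 0) ^ (α - 2) * deriv f (sq X / (1 - X 0) ^ 2) +
      4 * (X i.succ) ^ 2 * (1 - X 0) ^ (α - 4) * deriv (deriv f) (sq X / (1 - X 0) ^ 2) := by
  have hf1 := contDiff_deriv hf
  have e : (fun Y => dGG α f Y (Pi.single i.succ 1)) =
      fun Y => (2 * Y i.succ) * GG (α - 2) (deriv f) Y := by
    funext Y
    exact dGG_succ α f Y i
  have h1 : HasFDerivAt (fun Y : Fin 4 → ℝ => 2 * Y i.succ)
      ((2 : ℝ) • ContinuousLinearMap.proj (R := ℝ) (φ := fun _ : Fin 4 => ℝ) i.succ) X :=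
    ((ContinuousLinearMap.proj (R := ℝ) (φ := fun _ : Fin 4 => ℝ) i.succ).hasFDerivAt
      (x := X)).const_mul 2
  have h2 := h1.fun_mul (hasFDerivAt_GG (α := α - 2) hX
    ((hf1.differentiable (by simp)).differentiableAt (x := sq X / (1 - X 0) ^ 2)))
  rw [e, h2.fderiv]
  simp only [_root_.add_apply, _root_.smul_apply, dGG_succ,
    ContinuousLinearMap.proj_apply, Pi.single_eq_same, smul_eq_mul, GG]
  have e3 : α - 2 - 2 = α - 4 := by ring
  rw [e3]
  ring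

theorem box_GG {α : ℝ} {f : ℝ → ℝ} (hf : ContDiff ℝ (⊤ : ℕ∞) f) {X : Fin 4 → ℝ}
    (hX : X 0 < 1) :
    ∑ μ : Fin 4, (if μ = 0 then (-1 : ℝ) else 1) *
      fderiv ℝ (fun Y => dGG α f Y (Pi.single μ 1)) X (Pi.single μ 1) =
      (1 - X 0) ^ (α - 2) * Lop α f (sq X / (1 - X 0) ^ 2) := by
  have hT : 0 < 1 - X 0 := by linarith
  have hT' : (1 - X 0) ≠ 0 := hT.ne'
  rw [Fin.sum_univ_succ]
  have e : ∀ i : Fin 3, ((if i.succ = 0 then (-1 : ℝ) else 1) *
      fderiv ℝ (fun Y => dGG α f Y (Pi.single i.succ 1)) X (Pi.single i.succ 1)) =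
      2 * (1 - X 0) ^ (α - 2) * deriv f (sq X / (1 - X 0) ^ 2) +
      4 * (X i.succ) ^ 2 * (1 - X 0) ^ (α - 4) * deriv (deriv f) (sq X / (1 - X 0) ^ 2) := by
    intro i
    rw [second_succ hf hX i, if_neg (Fin.succ_ne_zero i), one_mul]
  rw [Finset.sum_congr rfl (fun i _ => e i), second_zero hf hX, if_pos rfl,
    Finset.sum_add_distrib]
  have e4 : ∑ i : Fin 3, 4 * (X i.succ) ^ 2 * (1 - X 0) ^ (α - 4) *
      deriv (deriv f) (sq X / (1 - X 0) ^ 2) =
      4 * sq X * (1 - X 0) ^ (α - 4) * deriv (deriv f) (sq X / (1 - X 0) ^ 2) := by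
    unfold sq
    rw [Finset.mul_sum, Finset.sum_mul, Finset.sum_mul]
  have e5 : (1 - X 0) ^ (α - 4) = (1 - X 0) ^ (α - 2) / (1 - X 0) ^ 2 := by
    have : α - 4 = (α - 2) - 1 - 1 := by ring
    rw [this, Real.rpow_sub_one hT', Real.rpow_sub_one hT']
    field_simp
  rw [e4, e5]
  simp only [Finset.sum_const, Finset.card_univ, Fintype.card_fin, nsmul_eq_mul]
  unfold Lop
  generalize f (sq X / (1 - X 0) ^ 2) = F
  generalize hF' : deriv f (sq X / (1 - X 0) ^ 2) = F'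
  generalize hF'' : deriv (deriv f) (sq X / (1 - X 0) ^ 2) = F''
  generalize (1 - X 0) ^ (α - 2) = P
  generalize sq X = Q
  generalize 1 - X 0 = T at hT'
  field_simp
  push_cast
  ring

theorem quad_GG {α : ℝ} {f g : ℝ → ℝ} {X : Fin 4 → ℝ} (hX : X 0 < 1) :
    ∑ μ : Fin 4, (if μ = 0 then (-1 : ℝ) else 1) *
      (dGG α f X (Pi.single μ 1) * dGG α g X (Pi.single μ 1)) =
      (1 - X 0) ^ (α - 2) * (1 - X 0) ^ α * Qop α f g (sq X / (1 - X 0) ^ 2) := by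
  have hT : 0 < 1 - X 0 := by linarith
  have hT' : (1 - X 0) ≠ 0 := hT.ne'
  rw [Fin.sum_univ_succ]
  have e : ∀ i : Fin 3, ((if i.succ = 0 then (-1 : ℝ) else 1) *
      (dGG α f X (Pi.single i.succ 1) * dGG α g X (Pi.single i.succ 1))) =
      4 * (X i.succ) ^ 2 * (GG (α - 2) (deriv f) X * GG (α - 2) (deriv g) X) := by
    intro i
    rw [dGG_succ, dGG_succ, if_neg (Fin.succ_ne_zero i), one_mul]
    ring
  rw [Finset.sum_congr rfl (fun i _ => e i), if_pos rfl]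
  have e4 : ∑ i : Fin 3, 4 * (X i.succ) ^ 2 * (GG (α - 2) (deriv f) X * GG (α - 2) (deriv g) X) =
      4 * sq X * (GG (α - 2) (deriv f) X * GG (α - 2) (deriv g) X) := by
    unfold sq
    rw [Finset.mul_sum, Finset.sum_mul]
  have e5 : (1 - X 0) ^ (α - 2) = (1 - X 0) ^ α / (1 - X 0) ^ 2 := by
    have : α - 2 = α - 1 - 1 := by ring
    rw [this, Real.rpow_sub_one hT', Real.rpow_sub_one hT']
    field_simp
  have e6 : (1 - X 0) ^ (α - 1) = (1 - X 0) ^ α / (1 - X 0) := by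
    rw [Real.rpow_sub_one hT']
  rw [e4, dGG_zero, dGG_zero]
  simp only [GG, e5, e6]
  unfold Qop
  generalize f (sq X / (1 - X 0) ^ 2) = F
  generalize deriv f (sq X / (1 - X 0) ^ 2) = F'
  generalize g (sq X / (1 - X 0) ^ 2) = G
  generalize deriv g (sq X / (1 - X 0) ^ 2) = G'
  generalize (1 - X 0) ^ α = P
  generalize sq X = Q
  generalize 1 - X 0 = T at hT'
  field_simp
  ring

/-- The derivative of the ansatz. -/
noncomputable def dans (lam : ℝ) (A B : ℝ → ℝ) (X : Fin 4 → ℝ) : (Fin 4 → ℝ) →L[ℝ] (Fin 3 → ℝ) :=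
  ContinuousLinearMap.pi ![dGG lam A X, 0, dGG lam B X]

theorem hasFDerivAt_ansatz {lam : ℝ} {A B : ℝ → ℝ}
    (hA : ContDiff ℝ (⊤ : ℕ∞) A) (hB : ContDiff ℝ (⊤ : ℕ∞) B) {X : Fin 4 → ℝ} (hX : X 0 < 1) :
    HasFDerivAt (ansatz lam A B) (dans lam A B X) X := by
  rw [hasFDerivAt_pi']
  intro i
  have hA' := hasFDerivAt_GG (α := lam) hX
    ((hA.differentiable (by simp)).differentiableAt (x := sq X / (1 - X 0) ^ 2))
  have hB' := hasFDerivAt_GG (α := lam) hX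
    ((hB.differentiable (by simp)).differentiableAt (x := sq X / (1 - X 0) ^ 2))
  fin_cases i
  · exact hA'
  · exact hasFDerivAt_const 0 X
  · exact hB'

theorem fderiv_ansatz {lam : ℝ} {A B : ℝ → ℝ}
    (hA : ContDiff ℝ (⊤ : ℕ∞) A) (hB : ContDiff ℝ (⊤ : ℕ∞) B) {X : Fin 4 → ℝ} (hX : X 0 < 1) :
    fderiv ℝ (ansatz lam A B) X = dans lam A B X :=
  (hasFDerivAt_ansatz hA hB hX).fderiv

theorem isOpen_past : IsOpen {X : Fin 4 → ℝ | X 0 < 1} :=
  isOpen_lt (continuous_apply 0) continuous_const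

theorem second_ansatz {lam : ℝ} {A B : ℝ → ℝ}
    (hA : ContDiff ℝ (⊤ : ℕ∞) A) (hB : ContDiff ℝ (⊤ : ℕ∞) B) {X : Fin 4 → ℝ} (hX : X 0 < 1)
    (k : Fin 3) (v w : Fin 4 → ℝ) :
    fderiv ℝ (fun Y => fderiv ℝ (ansatz lam A B) Y v k) X w =
      fderiv ℝ (fun Y => dans lam A B Y v k) X w := by
  have : (fun Y => fderiv ℝ (ansatz lam A B) Y v k) =ᶠ[nhds X] (fun Y => dans lam A B Y v k) := by
    filter_upwards [isOpen_past.mem_nhds hX] with Y hY
    rw [fderiv_ansatz hA hB hY]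
  rw [this.fderiv_eq]

theorem christoffel (p : Fin 3 → ℝ) (hp : p 1 = 0) (b : ℝ) (k : Fin 3) :
    ∑ i : Fin 3, ∑ j : Fin 3,
        (-((if i = k then (1 : ℝ) else 0) * (if j = 2 then (1 : ℝ) else 0)
            + (if j = k then (1 : ℝ) else 0) * (if i = 2 then (1 : ℝ) else 0)
            - (if i = j then (1 : ℝ) else 0) * (if k = 2 then (1 : ℝ) else 0)) / b)
          * p i * p j = (![-2 * (p 0 * p 2) / b, 0, (p 0 * p 0 - p 2 * p 2) / b] : Fin 3 → ℝ) k := by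
  fin_cases k
  · simp [Fin.sum_univ_three, hp]
    ring
  · simp [Fin.sum_univ_three, hp]
  · simp [Fin.sum_univ_three, hp]
    ring

/-- Part C. The ansatz solves the wave map equation inside the cone. -/
theorem ansatz_pde (lam : ℝ) (A B : ℝ → ℝ)
    (hA : ContDiff ℝ (⊤ : ℕ∞) A) (hB : ContDiff ℝ (⊤ : ℕ∞) B) (hB0 : ∀ x, 0 < B x)
    (hode : ∀ x ∈ Set.Icc (0:ℝ) 1,
        B x * Lop lam A x = 2 * Qop lam A B x ∧
        B x * Lop lam B x = Qop lam B B x - Qop lam A A x) :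
    ∀ X k, X 0 < 1 → sq X < (1 - X 0) ^ 2 → waveOp (ansatz lam A B) X k = 0 := by
  intro X k hX hcone
  have hT : 0 < 1 - X 0 := by linarith
  have hsq : 0 ≤ sq X := Finset.sum_nonneg (fun i _ => sq_nonneg _)
  have hx : sq X / (1 - X 0) ^ 2 ∈ Set.Icc (0:ℝ) 1 :=
    ⟨by positivity, by rw [div_le_one (by positivity)]; exact hcone.le⟩
  obtain ⟨h0, h2⟩ := hode _ hx
  have hdans : ∀ Y v, dans lam A B Y v = ![dGG lam A Y v, 0, dGG lam B Y v] := by
    intro Y v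
    funext i
    fin_cases i <;> rfl
  have key : waveOp (ansatz lam A B) X k = ∑ μ : Fin 4, (if μ = 0 then (-1 : ℝ) else 1) *
      (fderiv ℝ (fun Y => dans lam A B Y (Pi.single μ 1) k) X (Pi.single μ 1) +
        (![-2 * (dGG lam A X (Pi.single μ 1) * dGG lam B X (Pi.single μ 1)) / ansatz lam A B X 2, 0,
          (dGG lam A X (Pi.single μ 1) * dGG lam A X (Pi.single μ 1) -
            dGG lam B X (Pi.single μ 1) * dGG lam B X (Pi.single μ 1)) / ansatz lam A B X 2] :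
          Fin 3 → ℝ) k) := by
    unfold waveOp
    refine Finset.sum_congr rfl fun μ _ => ?_
    have h3 := christoffel (fderiv ℝ (ansatz lam A B) X (Pi.single μ 1))
      (by rw [fderiv_ansatz hA hB hX, hdans]; rfl) (ansatz lam A B X 2) k
    rw [h3, second_ansatz hA hB hX, fderiv_ansatz hA hB hX]
    rfl
  rw [key]
  simp only [mul_add, Finset.sum_add_distrib]
  have hu2 : ansatz lam A B X 2 = (1 - X 0) ^ lam * B (sq X / (1 - X 0) ^ 2) := rfl
  have hPpos : 0 < (1 - X 0) ^ lam := Real.rpow_pos_of_pos hT lam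
  have hBpos := hB0 (sq X / (1 - X 0) ^ 2)
  rw [hu2]
  fin_cases k
  · change ∑ μ : Fin 4, (if μ = 0 then (-1 : ℝ) else 1) *
        fderiv ℝ (fun Y => dGG lam A Y (Pi.single μ 1)) X (Pi.single μ 1) +
      ∑ μ : Fin 4, (if μ = 0 then (-1 : ℝ) else 1) *
        (-2 * (dGG lam A X (Pi.single μ 1) * dGG lam B X (Pi.single μ 1)) /
            ((1 - X 0) ^ lam * B (sq X / (1 - X 0) ^ 2))) = 0
    have e2 : ∑ μ : Fin 4, (if μ = 0 then (-1 : ℝ) else 1) *
        (-2 * (dGG lam A X (Pi.single μ 1) * dGG lam B X (Pi.single μ 1)) /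
            ((1 - X 0) ^ lam * B (sq X / (1 - X 0) ^ 2))) =
        (-2 / ((1 - X 0) ^ lam * B (sq X / (1 - X 0) ^ 2))) *
        ∑ μ : Fin 4, (if μ = 0 then (-1 : ℝ) else 1) *
          (dGG lam A X (Pi.single μ 1) * dGG lam B X (Pi.single μ 1)) := by
      rw [Finset.mul_sum]
      refine Finset.sum_congr rfl fun μ _ => ?_
      ring
    rw [e2, quad_GG hX, box_GG hA hX]
    field_simp
    linear_combination (1 - X 0) ^ (lam - 2) * h0
  · change ∑ μ : Fin 4, (if μ = 0 then (-1 : ℝ) else 1) *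
        fderiv ℝ (fun Y => (0 : ℝ)) X (Pi.single μ 1) +
      ∑ μ : Fin 4, (if μ = 0 then (-1 : ℝ) else 1) * 0 = 0
    simp
  · change ∑ μ : Fin 4, (if μ = 0 then (-1 : ℝ) else 1) *
        fderiv ℝ (fun Y => dGG lam B Y (Pi.single μ 1)) X (Pi.single μ 1) +
      ∑ μ : Fin 4, (if μ = 0 then (-1 : ℝ) else 1) *
        ((dGG lam A X (Pi.single μ 1) * dGG lam A X (Pi.single μ 1) -
          dGG lam B X (Pi.single μ 1) * dGG lam B X (Pi.single μ 1)) /
            ((1 - X 0) ^ lam * B (sq X / (1 - X 0) ^ 2))) = 0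
    have e2 : ∑ μ : Fin 4, (if μ = 0 then (-1 : ℝ) else 1) *
        ((dGG lam A X (Pi.single μ 1) * dGG lam A X (Pi.single μ 1) -
          dGG lam B X (Pi.single μ 1) * dGG lam B X (Pi.single μ 1)) /
            ((1 - X 0) ^ lam * B (sq X / (1 - X 0) ^ 2))) =
        (1 / ((1 - X 0) ^ lam * B (sq X / (1 - X 0) ^ 2))) *
        (∑ μ : Fin 4, (if μ = 0 then (-1 : ℝ) else 1) *
          (dGG lam A X (Pi.single μ 1) * dGG lam A X (Pi.single μ 1)) -
        ∑ μ : Fin 4, (if μ = 0 then (-1 : ℝ) else 1) *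
          (dGG lam B X (Pi.single μ 1) * dGG lam B X (Pi.single μ 1))) := by
      rw [← Finset.sum_sub_distrib, Finset.mul_sum]
      refine Finset.sum_congr rfl fun μ _ => ?_
      ring
    rw [e2, quad_GG hX, quad_GG hX, box_GG hB hX]
    field_simp
    linear_combination (1 - X 0) ^ (lam - 2) * h2

end Pool.Agent.H.MP_9f60e7_an
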