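import Pool.Agent.H.MP_9f60e7_an.Ansatz

/-!
Part D: a smooth profile and uniqueness in the light cone give a smooth Cauchy datum without a
global smooth solution.
-/

set_option autoImplicit false

namespace Pool.Agent.H.MP_9f60e7_an

open Finset

theorem contDiff_sq_aux : ContDiff ℝ (⊤ : ℕ∞) sq := by
  unfold sq
  fun_prop

theorem contDiffOn_GG {α : ℝ} {f : ℝ → ℝ} (hf : ContDiff ℝ (⊤ : ℕ∞) f) :
    ContDiffOn ℝ (⊤ : ℕ∞) (GG α f) {X | X 0 < 1} := by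
  have hT : ContDiffOn ℝ (⊤ : ℕ∞) (fun X : Fin 4 → ℝ => 1 - X 0) {X | X 0 < 1} := by
    fun_prop
  have hne : ∀ X ∈ {X : Fin 4 → ℝ | X 0 < 1}, 1 - X 0 ≠ 0 := by
    intro X hX
    have : X 0 < 1 := hX
    linarith
  have h1 : ContDiffOn ℝ (⊤ : ℕ∞) (fun X : Fin 4 → ℝ => (1 - X 0) ^ α) {X | X 0 < 1} :=
    hT.rpow_const_of_ne hne
  have h2 : ContDiffOn ℝ (⊤ : ℕ∞) (fun X : Fin 4 → ℝ => sq X / (1 - X 0) ^ 2) {X | X 0 < 1} :=
    contDiff_sq_aux.contDiffOn.div (hT.pow 2) (fun X hX => pow_ne_zero 2 (hne X hX))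
  exact h1.mul (hf.comp_contDiffOn h2)

theorem contDiffOn_ansatz {lam : ℝ} {A B : ℝ → ℝ}
    (hA : ContDiff ℝ (⊤ : ℕ∞) A) (hB : ContDiff ℝ (⊤ : ℕ∞) B) :
    ContDiffOn ℝ (⊤ : ℕ∞) (ansatz lam A B) {X | X 0 < 1} := by
  rw [contDiffOn_pi]
  intro i
  fin_cases i
  · exact contDiffOn_GG hA
  · exact contDiffOn_const
  · exact contDiffOn_GG hB

theorem contDiff_vecCons (t : ℝ) :
    ContDiff ℝ (⊤ : ℕ∞) (fun x : Fin 3 → ℝ => (Matrix.vecCons t x : Fin 4 → ℝ)) := by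
  rw [contDiff_pi]
  intro i
  refine Fin.cases ?_ (fun j => ?_) i
  · exact contDiff_const
  · exact contDiff_apply ℝ ℝ j

/-- Part D: assembly. -/
theorem blowup_of
    (exists_profile : ∃ (lam : ℝ) (A B : ℝ → ℝ), 0 < lam ∧
      ContDiff ℝ (⊤ : ℕ∞) A ∧ ContDiff ℝ (⊤ : ℕ∞) B ∧ (∀ x, 0 < B x) ∧
      ∀ x ∈ Set.Icc (0:ℝ) 1,
        B x * Lop lam A x = 2 * Qop lam A B x ∧
        B x * Lop lam B x = Qop lam B B x - Qop lam A A x)
    (cone_uniqueness : ∀ (u v : (Fin 4 → ℝ) → (Fin 3 → ℝ))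
      (_ : ContDiff ℝ (⊤ : ℕ∞) v) (_ : ∀ X, 0 < v X 2)
      (_ : ∀ X k, waveOp v X k = 0)
      (_ : ContDiffOn ℝ (⊤ : ℕ∞) u {X | X 0 < 1}) (_ : ∀ X, X 0 < 1 → 0 < u X 2)
      (_ : ∀ X k, X 0 < 1 → sq X < (1 - X 0) ^ 2 → waveOp u X k = 0)
      (_ : ∀ x : Fin 3 → ℝ, ∑ i, (x i) ^ 2 < 1 →
        u (Matrix.vecCons 0 x) = v (Matrix.vecCons 0 x) ∧
        fderiv ℝ u (Matrix.vecCons 0 x) (Pi.single 0 1)
          = fderiv ℝ v (Matrix.vecCons 0 x) (Pi.single 0 1)),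
      ∀ t : ℝ, 0 ≤ t → t < 1 →
        u (Matrix.vecCons t (0 : Fin 3 → ℝ)) = v (Matrix.vecCons t (0 : Fin 3 → ℝ))) :
    ¬ (∀ (u0 u1 : (Fin 3 → ℝ) → (Fin 3 → ℝ)),
      ContDiff ℝ (⊤ : ℕ∞) u0 → ContDiff ℝ (⊤ : ℕ∞) u1 → (∀ x, 0 < u0 x 2) →
      ∃ u : (Fin 4 → ℝ) → (Fin 3 → ℝ),
        ContDiff ℝ (⊤ : ℕ∞) u ∧
        (∀ X, 0 < u X 2) ∧
        (∀ x, u (Matrix.vecCons 0 x) = u0 x) ∧
        (∀ x, fderiv ℝ u (Matrix.vecCons 0 x) (Pi.single 0 1) = u1 x) ∧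
        ∀ (X : Fin 4 → ℝ) (k : Fin 3), waveOp u X k = 0) := by
  intro H
  obtain ⟨lam, A, B, hlam, hA, hB, hB0, hode⟩ := exists_profile
  have hpde := ansatz_pde lam A B hA hB hB0 hode
  have hmem : ∀ x : Fin 3 → ℝ, (Matrix.vecCons 0 x : Fin 4 → ℝ) ∈ {X : Fin 4 → ℝ | X 0 < 1} := by
    intro x
    show (Matrix.vecCons 0 x : Fin 4 → ℝ) 0 < 1
    simp
  have hsm := contDiffOn_ansatz (lam := lam) hA hB
  have hu0 : ContDiff ℝ (⊤ : ℕ∞) (fun x : Fin 3 → ℝ => ansatz lam A B (Matrix.vecCons 0 x)) := by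
    rw [← contDiffOn_univ]
    exact hsm.comp (contDiff_vecCons 0).contDiffOn (fun x _ => hmem x)
  have hu1 : ContDiff ℝ (⊤ : ℕ∞) (fun x : Fin 3 → ℝ =>
      fderiv ℝ (ansatz lam A B) (Matrix.vecCons 0 x) (Pi.single 0 1)) := by
    have h1 : ContDiffOn ℝ (⊤ : ℕ∞) (fderiv ℝ (ansatz lam A B)) {X | X 0 < 1} :=
      hsm.fderiv_of_isOpen isOpen_past (by simp)
    have h2 : ContDiff ℝ (⊤ : ℕ∞) (fun x : Fin 3 → ℝ =>
      fderiv ℝ (ansatz lam A B) (Matrix.vecCons 0 x)) := by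
      rw [← contDiffOn_univ]
      exact h1.comp (contDiff_vecCons 0).contDiffOn (fun x _ => hmem x)
    exact h2.clm_apply contDiff_const
  have hpos : ∀ X : Fin 4 → ℝ, X 0 < 1 → 0 < ansatz lam A B X 2 := by
    intro X hX
    have hT : 0 < 1 - X 0 := by linarith
    exact mul_pos (Real.rpow_pos_of_pos hT lam) (hB0 _)
  obtain ⟨v, hv, hv2, hv0, hv1, hvp⟩ := H _ _ hu0 hu1 (fun x => hpos _ (hmem x))
  have heq := cone_uniqueness (ansatz lam A B) v hv hv2 hvp hsm hpos hpde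
    (fun x _ => ⟨(hv0 x).symm, (hv1 x).symm⟩)
  -- follow the axis
  have hcurve : Continuous (fun t : ℝ => v (Matrix.vecCons t (0 : Fin 3 → ℝ)) 2) := by
    have h1 : Continuous (fun t : ℝ => (Matrix.vecCons t (0 : Fin 3 → ℝ) : Fin 4 → ℝ)) := by
      refine continuous_pi fun i => ?_
      refine Fin.cases ?_ (fun j => ?_) i
      · exact continuous_id
      · exact continuous_const
    exact (continuous_apply 2).comp (hv.continuous.comp h1)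
  have hlim1 : Filter.Tendsto (fun t : ℝ => v (Matrix.vecCons t (0 : Fin 3 → ℝ)) 2)
      (nhdsWithin 1 (Set.Iio 1)) (nhds (v (Matrix.vecCons 1 (0 : Fin 3 → ℝ)) 2)) :=
    (hcurve.tendsto 1).mono_left nhdsWithin_le_nhds
  have hlim2 : Filter.Tendsto (fun t : ℝ => v (Matrix.vecCons t (0 : Fin 3 → ℝ)) 2)
      (nhdsWithin 1 (Set.Iio 1)) (nhds 0) := by
    have h3 : Filter.Tendsto (fun t : ℝ => (1 - t) ^ lam * B 0)
        (nhdsWithin 1 (Set.Iio 1)) (nhds 0) := by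
      have h4 : Continuous (fun t : ℝ => (1 - t) ^ lam * B 0) :=
        ((continuous_const.sub continuous_id).rpow_const (fun _ => Or.inr hlam.le)).mul
          continuous_const
      have h5 := (h4.tendsto 1).mono_left (nhdsWithin_le_nhds (s := Set.Iio (1:ℝ)))
      simpa [Real.zero_rpow hlam.ne'] using h5
    refine h3.congr' ?_
    have h6 : Set.Ioo (0:ℝ) 1 ∈ nhdsWithin (1:ℝ) (Set.Iio 1) := Ioo_mem_nhdsLT one_pos
    filter_upwards [h6] with t ht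
    rw [← heq t ht.1.le ht.2]
    simp [ansatz, sq]
  have h7 := tendsto_nhds_unique hlim1 hlim2
  exact (hv2 _).ne' h7

end Pool.Agent.H.MP_9f60e7_an
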