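import Pool.Agent.H.MP_9f60e7_an.Rows

/-!
Part A: from integer row sums to bounds of `nrm`.
-/

set_option autoImplicit false

namespace Pool.Agent.H.MP_9f60e7_an.NK

open PowerSeries Finset
open scoped ENNReal

theorem div_le_natdiv (a b : ℕ) (hb : 0 < b) : (a : ℝ) / b ≤ ((a / b : ℕ) : ℝ) + 1 := by
  have h := Nat.lt_div_mul_add (a := a) hb
  have hb' : (0 : ℝ) < b := by exact_mod_cast hb
  rw [div_le_iff₀ hb']
  have h' : (a : ℝ) < ((a / b : ℕ) : ℝ) * b + b := by exact_mod_cast h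
  linarith

theorem tailS_ge (f : ℕ) : ∀ (k : ℕ) (_ : 0 < k) (l : List ℤ),
    ∑ t ∈ range f, ((30000 * (l.getD (3 * t) 0).natAbs : ℕ) / (4 * (k + t) : ℕ)
      + (20000 * (l.getD (3 * t + 1) 0).natAbs : ℕ) / (3 * (2 * (k + t) + 3) : ℕ)
      + (20000 * (l.getD (3 * t + 2) 0).natAbs : ℕ) / (3 * (2 * (k + t) + 3) : ℕ) : ℝ)
      ≤ ((tailS f k l : ℕ) : ℝ) := by
  induction f with
  | zero => intro k _ l; simp [tailS]
  | succ f ih =>
    intro k hk l
    rw [Finset.sum_range_succ']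
    have hih := ih (k + 1) (by omega) l.tail.tail.tail
    have e1 : ∀ t : ℕ, l.tail.tail.tail.getD t 0 = l.getD (t + 3) 0 := by
      intro t; rw [getD_tail, getD_tail, getD_tail]
    have e2 : ∀ t : ℕ, l.getD (3 * (t + 1)) 0 = l.getD (3 * t + 3) 0 := fun t => by
      congr 1
    have e3 : ∀ t : ℕ, l.getD (3 * (t + 1) + 1) 0 = l.getD (3 * t + 1 + 3) 0 := fun t => by
      congr 1
    have e4 : ∀ t : ℕ, l.getD (3 * (t + 1) + 2) 0 = l.getD (3 * t + 2 + 3) 0 := fun t => by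
      congr 1
    have e5 : ∀ t : ℕ, k + 1 + t = k + (t + 1) := fun t => by ring
    simp only [e1, e5] at hih
    simp only [e2, e3, e4]
    have d1 := div_le_natdiv (30000 * (hd l).natAbs) (4 * k) (by omega)
    have d2 := div_le_natdiv (20000 * (hd l.tail).natAbs) (3 * (2 * k + 3)) (by omega)
    have d3 := div_le_natdiv (20000 * (hd l.tail.tail).natAbs) (3 * (2 * k + 3)) (by omega)
    have h1 : hd l = l.getD (3 * 0) 0 := by rw [hd_eq]
    have h2 : hd l.tail = l.getD (3 * 0 + 1) 0 := by rw [hd_eq, getD_tail]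
    have h3 : hd l.tail.tail = l.getD (3 * 0 + 2) 0 := by rw [hd_eq, getD_tail, getD_tail]
    simp only [tailS]
    rw [h1] at d1 ⊢
    rw [h2] at d2 ⊢
    rw [h3] at d3 ⊢
    simp only [Nat.add_zero]
    push_cast at hih d1 d2 d3 ⊢
    linarith

theorem sum_range_three (a : ℕ → ℝ) (f : ℕ) :
    ∑ i ∈ range (3 * f), a i = ∑ t ∈ range f, (a (3 * t) + a (3 * t + 1) + a (3 * t + 2)) := by
  induction f with
  | zero => simp
  | succ f ih =>
    have h : 3 * (f + 1) = 3 * f + 1 + 1 + 1 := by ring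
    rw [h, Finset.sum_range_succ, Finset.sum_range_succ, Finset.sum_range_succ, ih,
      Finset.sum_range_succ]
    ring

theorem dd_ne (i : ℕ) (hi : 79 ≤ i) : dd i ≠ 0 := by
  unfold dd
  split_ifs
  · have : 0 < (i - 1) / 3 := by omega
    have : (0 : ℝ) < (((i - 1) / 3 : ℕ) : ℝ) := by exact_mod_cast this
    positivity
  · have : (0 : ℝ) ≤ (((i - 1) / 3 : ℕ) : ℝ) := by positivity
    intro h
    linarith

theorem nrm_bound (g g' : List ℤ) (D : ℕ) (hD : 0 < D) (q : ℤ) (j f : ℕ) (t : ℕ → ℝ) (K : ℕ)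
    (hlow : ∀ i < 79, 10 ^ 4 * (D : ℝ) * t i = if i = j then (q : ℝ) else 0)
    (htail : ∀ i, 79 ≤ i → (D : ℝ) * dd i * t i = (g.getD i 0 : ℤ) - (g'.getD i 0 : ℤ))
    (hlen' : g'.length ≤ 79 + 3 * f)
    (hq : j < 79 ∨ q = 0) (hg : absSum g ≤ 2 ^ 70) (hq2 : |q| ≤ 2 ^ 90)
    (hK : lowS g q j + tailS f 26 (g'.drop 79) ≤ K) :
    nrm (t - Aop (fun e => ((g.getD e 0 : ℤ) : ℝ) / D)) ≤
      ENNReal.ofReal ((K : ℝ) / (10 ^ 4 * D)) := by
  have hD' : (0 : ℝ) < D := by exact_mod_cast hD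
  set v : ℕ → ℝ := t - Aop (fun e => ((g.getD e 0 : ℤ) : ℝ) / D) with hv
  have hvlow : ∀ i < 79, |v i| = (|rowZ g q j i| : ℤ) / (10 ^ 4 * (D : ℝ)) := by
    intro i hi
    have h1 : v i = -((rowZ g q j i : ℤ) : ℝ) / (10 ^ 4 * (D : ℝ)) := by
      rw [hv, Pi.sub_apply, Aop, if_pos hi, eq_div_iff (by positivity), sub_mul, mul_comm (t i),
        hlow i hi]
      unfold rowZ
      push_cast
      rw [Finset.sum_mul]
      have : ∀ e ∈ range 79, Amat i e * (((g.getD e 0 : ℤ) : ℝ) / D) * (10 ^ 4 * (D : ℝ))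
          = ((g.getD e 0 : ℤ) : ℝ) * (aZ i e : ℝ) := by
        intro e _
        rw [Amat_eq]
        field_simp
      rw [Finset.sum_congr rfl this]
      split_ifs <;> ring
    rw [h1, abs_div, abs_neg, abs_of_pos (by positivity : (0:ℝ) < 10 ^ 4 * (D : ℝ))]
    push_cast
    rfl
  have hvtail : ∀ i, 79 ≤ i → v i = -((g'.getD i 0 : ℤ) : ℝ) / (D * dd i) := by
    intro i hi
    have hdd := dd_ne i hi
    rw [hv, Pi.sub_apply, Aop, if_neg (by omega), eq_div_iff (by positivity)]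
    have := htail i hi
    field_simp
    linarith
  have hvz : ∀ i, i ∉ range (79 + 3 * f) → ‖v i‖ₑ = 0 := by
    intro i hi
    rw [Finset.mem_range, not_lt] at hi
    rw [hvtail i (by omega), List.getD_eq_default _ _ (by omega)]
    simp
  have hsum : ∑ i ∈ range (79 + 3 * f), |v i| ≤ (K : ℝ) / (10 ^ 4 * D) := by
    rw [Finset.sum_range_add, le_div_iff₀ (by positivity), add_mul]
    have hl : (∑ i ∈ range 79, |v i|) * (10 ^ 4 * (D : ℝ)) = ((lowS g q j : ℕ) : ℝ) := by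
      have := lowS_eq g q j hq hg hq2
      have h2 : ((lowS g q j : ℕ) : ℝ) = ((((lowS g q j : ℕ) : ℤ)) : ℝ) := by norm_cast
      rw [h2, this, Finset.sum_mul]
      push_cast
      apply Finset.sum_congr rfl
      intro i hi
      rw [hvlow i (Finset.mem_range.mp hi)]
      push_cast
      field_simp
    have ht : (∑ i ∈ range (3 * f), |v (79 + i)|) * (10 ^ 4 * (D : ℝ))
        ≤ ((tailS f 26 (g'.drop 79) : ℕ) : ℝ) := by
      refine le_trans (le_of_eq ?_) (tailS_ge f 26 (by norm_num) (g'.drop 79))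
      rw [sum_range_three, Finset.sum_mul]
      apply Finset.sum_congr rfl
      intro s _
      have hdrop : ∀ n : ℕ, (g'.drop 79).getD n 0 = g'.getD (79 + n) 0 := by
        intro n
        simp [List.getElem?_drop]
      rw [hdrop, hdrop, hdrop]
      rw [hvtail (79 + 3 * s) (by omega), hvtail (79 + (3 * s + 1)) (by omega),
        hvtail (79 + (3 * s + 2)) (by omega)]
      have q0 : dd (79 + 3 * s) = 4 / 3 * ((26 + s : ℕ) : ℝ) := by
        unfold dd
        rw [if_pos (by omega)]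
        congr 2
        omega
      have q1 : dd (79 + (3 * s + 1)) = -(3 / 2 * (2 * ((26 + s : ℕ) : ℝ) + 3)) := by
        unfold dd
        rw [if_neg (by omega)]
        congr 5
        omega
      have q2 : dd (79 + (3 * s + 2)) = -(3 / 2 * (2 * ((26 + s : ℕ) : ℝ) + 3)) := by
        unfold dd
        rw [if_neg (by omega)]
        congr 5
        omega
      rw [q0, q1, q2]
      have habs : ∀ z : ℤ, ((z.natAbs : ℕ) : ℝ) = |(z : ℝ)| := by
        intro z
        rw [Nat.cast_natAbs]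
        push_cast
        rfl
      simp only [abs_div, abs_neg, abs_mul, abs_of_pos hD']
      have hk : (0 : ℝ) < ((26 + s : ℕ) : ℝ) := by positivity
      have hk3 : (0 : ℝ) < 2 * ((26 + s : ℕ) : ℝ) + 3 := by positivity
      rw [abs_of_pos hk, abs_of_pos hk3]
      push_cast [habs]
      have hk' : (0 : ℝ) < 26 + (s : ℝ) := by positivity
      have hk3' : (0 : ℝ) < 2 * (26 + (s : ℝ)) + 3 := by positivity
      have a1 : |(4 : ℝ)| = 4 := abs_of_pos (by norm_num)
      have a2 : |(3 : ℝ)| = 3 := abs_of_pos (by norm_num)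
      have a3 : |(2 : ℝ)| = 2 := abs_of_pos (by norm_num)
      rw [a1, a2, a3]
      have hne1 : (26 + (s : ℝ)) ≠ 0 := hk'.ne'
      have hne2 : (2 * (26 + (s : ℝ)) + 3) ≠ 0 := hk3'.ne'
      field_simp
      ring
    have hK' : ((lowS g q j : ℕ) : ℝ) + ((tailS f 26 (g'.drop 79) : ℕ) : ℝ) ≤ (K : ℝ) := by
      exact_mod_cast hK
    linarith
  unfold nrm
  rw [tsum_eq_sum hvz]
  have h3 : ∀ i ∈ range (79 + 3 * f), ‖v i‖ₑ = ENNReal.ofReal |v i| := by
    intro i _
    rw [← ofReal_norm, Real.norm_eq_abs]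
  rw [Finset.sum_congr rfl h3, ← ENNReal.ofReal_sum_of_nonneg (fun i _ => abs_nonneg _)]
  exact ENNReal.ofReal_le_ofReal hsum

end Pool.Agent.H.MP_9f60e7_an.NK
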