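import Pool.Agent.H.MP_9f60e7_an.Series

/-!
Part A, high modes: the linearization is controlled by the diagonal on vectors supported on
`x_n, b_n, m_n` with `n ≥ 32`.
-/

set_option autoImplicit false

namespace Pool.Agent.H.MP_9f60e7_an.NK

namespace High

open PowerSeries
open scoped ENNReal

theorem tsum_shift_le (f : ℕ → ℝ≥0∞) (k : ℕ) : ∑' n, f (n + k) ≤ ∑' n, f n :=
  ENNReal.tsum_comp_le_tsum_of_injective (add_left_injective k) f

theorem NN_add (f g : PS) : NN (f + g) ≤ NN f + NN g := by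
  unfold NN
  rw [← ENNReal.tsum_add]
  refine ENNReal.tsum_le_tsum fun n => ?_
  rw [map_add]
  exact enorm_add_le _ _

theorem NN_neg (f : PS) : NN (-f) = NN f := by
  unfold NN
  refine tsum_congr fun n => ?_
  rw [map_neg, enorm_neg]

theorem NN_sub (f g : PS) : NN (f - g) ≤ NN f + NN g := by
  rw [sub_eq_add_neg, ← NN_neg g]
  exact NN_add _ _

theorem NN_mul (f g : PS) : NN (f * g) ≤ NN f * NN g := by
  unfold NN
  rw [← ENNReal.tsum_mul_right]
  simp_rw [← ENNReal.tsum_mul_left]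
  rw [← ENNReal.tsum_prod (f := fun i j => ‖coeff i f‖ₑ * ‖coeff j g‖ₑ),
    ← Finset.HasAntidiagonal.sigmaAntidiagonalEquivProd.tsum_eq, ENNReal.tsum_sigma']
  refine ENNReal.tsum_le_tsum fun n => ?_
  rw [coeff_mul, tsum_fintype]
  refine (enorm_sum_le _ _).trans ?_
  rw [← Finset.sum_coe_sort]
  refine Finset.sum_le_sum fun p _ => ?_
  rw [enorm_mul]
  rfl

theorem NN_C_mul (a : ℝ) (f : PS) : NN (C a * f) = ‖a‖ₑ * NN f := by
  unfold NN
  rw [← ENNReal.tsum_mul_left]
  refine tsum_congr fun n => ?_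
  rw [coeff_C_mul, enorm_mul]

/-- vanishing of the first `N` coefficients -/
def Van (N : ℕ) (f : PS) : Prop := ∀ n < N, coeff n f = 0

theorem Van.mul {N : ℕ} {g : PS} (hg : Van N g) (f : PS) : Van N (f * g) := by
  intro n hn
  rw [coeff_mul]
  refine Finset.sum_eq_zero fun p hp => ?_
  have := Finset.HasAntidiagonal.mem_antidiagonal.1 hp
  rw [hg p.2 (by omega), mul_zero]

theorem Van.add {N : ℕ} {f g : PS} (hf : Van N f) (hg : Van N g) : Van N (f + g) := by
  intro n hn
  rw [map_add, hf n hn, hg n hn, add_zero]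

theorem Van.neg {N : ℕ} {f : PS} (hf : Van N f) : Van N (-f) := by
  intro n hn
  rw [map_neg, hf n hn, neg_zero]

theorem Van.sub {N : ℕ} {f g : PS} (hf : Van N f) (hg : Van N g) : Van N (f - g) := by
  intro n hn
  rw [map_sub, hf n hn, hg n hn, sub_zero]

theorem Van.deriv {N : ℕ} {f : PS} (hf : Van (N + 1) f) : Van N (d⁄dX ℝ f) := by
  intro n hn
  rw [coeff_derivative, hf (n + 1) (by omega), zero_mul]

theorem Van.mono {N N' : ℕ} {f : PS} (hf : Van N f) (h : N' ≤ N) : Van N' f :=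
  fun n hn => hf n (by omega)

theorem flat_two (g1 g2 g3 : PS) (n : ℕ) : flat g1 g2 g3 (3 * n + 2) = coeff (n + 1) g2 := by
  unfold flat
  rw [if_neg (by omega), if_neg (by omega), if_pos (by omega)]
  congr 2
  omega

theorem flat_three (g1 g2 g3 : PS) (n : ℕ) : flat g1 g2 g3 (3 * n + 3) = coeff (n + 1) g3 := by
  unfold flat
  rw [if_neg (by omega), if_neg (by omega), if_neg (by omega), if_pos (by omega)]
  congr 2
  omega

theorem flat_four (g1 g2 g3 : PS) (n : ℕ) : flat g1 g2 g3 (3 * n + 4) = coeff n g1 := by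
  unfold flat
  rw [if_neg (by omega), if_neg (by omega), if_neg (by omega), if_neg (by omega)]
  congr 2
  omega

theorem nrm_eq (u : ℕ → ℝ) : nrm u = ‖u 0‖ₑ + (NN (cx u) + NN (cb u) + NN (cm u)) := by
  unfold nrm NN cx cb cm
  simp only [coeff_mk]
  rw [tsum_eq_zero_add' ENNReal.summable, ← ENNReal.tsum_add, ← ENNReal.tsum_add]
  congr 1
  have e := (Nat.divModEquiv 3).symm.tsum_eq (fun n => ‖u (n + 1)‖ₑ)
  rw [← e, ENNReal.tsum_prod']
  refine tsum_congr fun n => ?_
  rw [tsum_fintype, Fin.sum_univ_three]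
  simp only [Nat.divModEquiv_symm_apply]
  norm_num
  ring_nf

theorem NN_le_of_rows {ι : Type} (s : Finset ι) (c : ι → ℝ) (hc : ∀ i ∈ s, 0 ≤ c i) (F : ι → PS)
    (sh : ι → ℕ) (g : PS)
    (h : ∀ k, |coeff k g| ≤ ∑ i ∈ s, c i * |coeff (k + sh i) (F i)|) :
    NN g ≤ ∑ i ∈ s, ENNReal.ofReal (c i) * NN (F i) := by
  unfold NN
  calc ∑' n, ‖coeff n g‖ₑ ≤ ∑' n, ∑ i ∈ s, ENNReal.ofReal (c i) * ‖coeff (n + sh i) (F i)‖ₑ := by
        refine ENNReal.tsum_le_tsum fun n => ?_
        rw [Real.enorm_eq_ofReal_abs]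
        refine (ENNReal.ofReal_le_ofReal (h n)).trans ?_
        rw [ENNReal.ofReal_sum_of_nonneg fun i hi => mul_nonneg (hc i hi) (abs_nonneg _)]
        refine Finset.sum_le_sum fun i hi => ?_
        rw [ENNReal.ofReal_mul (hc i hi), Real.enorm_eq_ofReal_abs]
    _ = ∑ i ∈ s, ∑' n, ENNReal.ofReal (c i) * ‖coeff (n + sh i) (F i)‖ₑ :=
        Summable.tsum_finsetSum fun i _ => ENNReal.summable
    _ ≤ _ := by
        refine Finset.sum_le_sum fun i _ => ?_
        rw [ENNReal.tsum_mul_left]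
        exact mul_le_mul_right (tsum_shift_le (fun n => ‖coeff n (F i)‖ₑ) (sh i)) _

/-- the principal part -/
noncomputable def Lp (f : PS) : PS := C (4 / 3 : ℝ) * w2 * d⁄dX ℝ f + C (3 : ℝ) * wm * f

theorem coeff_Lp (f : PS) (k : ℕ) : coeff (k + 2) (Lp f) =
    4 / 3 * ((k : ℝ) + 3) * coeff (k + 3) f + 3 * coeff (k + 2) f
      - 3 / 2 * (2 * (k : ℝ) + 5) * coeff (k + 1) f := by
  have e : Lp f = C (4 / 3 : ℝ) * d⁄dX ℝ f
      - (C (4 / 3 : ℝ) * C (9 / 4 : ℝ)) * (X ^ 2 * d⁄dX ℝ f) + C (3 : ℝ) * f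
      - (C (3 : ℝ) * C (3 / 2 : ℝ)) * (X * f) := by
    unfold Lp w2 wm
    ring
  rw [e, ← map_mul, ← map_mul]
  have h1 : coeff (k + 2) (X ^ 2 * d⁄dX ℝ f) = coeff k (d⁄dX ℝ f) := coeff_X_pow_mul _ 2 k
  have h2 : coeff (k + 2) (X * f) = coeff (k + 1) f := coeff_succ_X_mul (k + 1) f
  simp only [map_add, map_sub, coeff_C_mul, h1, h2, coeff_derivative]
  push_cast
  ring

theorem coeff_PP (g : PS) (n : ℕ) :
    coeff n (PP g) = coeff n g + 4 / 9 * coeff (n + 2) g + 16 / 81 * coeff (n + 4) g := by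
  unfold PP; rw [coeff_mk]

theorem coeff_PP_Lp (f : PS) (k : ℕ) : coeff (k + 2) (PP (Lp f)) =
    - (3 / 2 * (2 * (k : ℝ) + 5)) * coeff (k + 1) f + 3 * coeff (k + 2) f - 2 * coeff (k + 3) f
      + 4 / 3 * coeff (k + 4) f - 8 / 9 * coeff (k + 5) f + 16 / 27 * coeff (k + 6) f
      + 64 / 243 * ((k : ℝ) + 7) * coeff (k + 7) f := by
  have h1 := coeff_Lp f k
  have h2 := coeff_Lp f (k + 2)
  have h3 := coeff_Lp f (k + 4)
  rw [coeff_PP, h1, show k + 2 + 2 = (k + 2) + 2 from rfl, h2,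
    show k + 2 + 4 = (k + 4) + 2 by ring, h3]
  push_cast
  ring

theorem row_real (f R : PS) (k : ℕ) (hk : 25 ≤ k) :
    |coeff (k + 1) f + 2 / (3 * (2 * ((k : ℝ) + 1) + 3)) * coeff (k + 2) (PP (Lp f + R))| ≤
      2 / 165 * 3 * |coeff (k + 2) f| + 2 / 165 * 2 * |coeff (k + 3) f|
      + 2 / 165 * (4 / 3) * |coeff (k + 4) f| + 2 / 165 * (8 / 9) * |coeff (k + 5) f|
      + 2 / 165 * (16 / 27) * |coeff (k + 6) f| + 64 / 243 * (64 / 165) * |coeff (k + 7) f|
      + (2 / 165 * |coeff (k + 2) R| + 2 / 165 * (4 / 9) * |coeff (k + 4) R|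
      + 2 / 165 * (16 / 81) * |coeff (k + 6) R|) := by
  have hk' : (25 : ℝ) ≤ k := by exact_mod_cast hk
  set c : ℝ := 2 / (3 * (2 * ((k : ℝ) + 1) + 3)) with hc
  have hden : (0 : ℝ) < 3 * (2 * ((k : ℝ) + 1) + 3) := by positivity
  have hc0 : 0 < c := by positivity
  have hc1 : c ≤ 2 / 165 := by
    rw [hc, div_le_div_iff₀ hden (by norm_num)]
    linarith
  have hc2 : c * ((k : ℝ) + 7) ≤ 64 / 165 := by
    rw [hc, div_mul_eq_mul_div, div_le_div_iff₀ hden (by norm_num)]
    linarith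
  have hc3 : c * (3 / 2 * (2 * (k : ℝ) + 5)) = 1 := by
    rw [hc]; field_simp; ring
  have e : coeff (k + 1) f + c * coeff (k + 2) (PP (Lp f + R)) =
      c * 3 * coeff (k + 2) f - c * 2 * coeff (k + 3) f + c * (4 / 3) * coeff (k + 4) f
      - c * (8 / 9) * coeff (k + 5) f + c * (16 / 27) * coeff (k + 6) f
      + 64 / 243 * (c * ((k : ℝ) + 7)) * coeff (k + 7) f
      + (c * coeff (k + 2) R + c * (4 / 9) * coeff (k + 4) R + c * (16 / 81) * coeff (k + 6) R) := by
    have h1 : PP (Lp f + R) = PP (Lp f) + PP R := by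
      ext n; simp only [coeff_PP, map_add]; ring
    rw [h1, map_add, coeff_PP_Lp, coeff_PP R]
    have h2 : k + 2 + 2 = k + 4 := by ring
    have h3 : k + 2 + 4 = k + 6 := by ring
    rw [h2, h3]
    linear_combination (- coeff (k + 1) f) * hc3
  rw [e]
  have habs : ∀ (a b : ℝ), |a + b| ≤ |a| + |b| := abs_add_le
  have habs' : ∀ (a b : ℝ), |a - b| ≤ |a| + |b| := abs_sub
  have hm : ∀ (a b y : ℝ), 0 ≤ a → a ≤ b → |a * y| ≤ b * |y| := by
    intro a b y ha hab
    rw [abs_mul, abs_of_nonneg ha]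
    exact mul_le_mul_of_nonneg_right hab (abs_nonneg _)
  refine (habs _ _).trans (add_le_add ?_ ?_)
  · refine (habs _ _).trans (add_le_add ?_ ?_)
    · refine (habs _ _).trans (add_le_add ?_ ?_)
      · refine (habs' _ _).trans (add_le_add ?_ ?_)
        · refine (habs _ _).trans (add_le_add ?_ ?_)
          · refine (habs' _ _).trans (add_le_add ?_ ?_)
            · exact hm _ _ _ (by positivity) (by linarith)
            · exact hm _ _ _ (by positivity) (by linarith)
          · exact hm _ _ _ (by positivity) (by linarith)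
        · exact hm _ _ _ (by positivity) (by linarith)
      · exact hm _ _ _ (by positivity) (by linarith)
    · exact hm _ _ _ (by positivity) (by linarith)
  · refine (habs _ _).trans (add_le_add ?_ ?_)
    · refine (habs _ _).trans (add_le_add ?_ ?_)
      · exact hm _ _ _ (by positivity) (by linarith)
      · exact hm _ _ _ (by positivity) (by linarith)
    · exact hm _ _ _ (by positivity) (by linarith)

/-- sum of the rows of type `b` or `m` -/
theorem row_sum (f R g : PS) (h0 : ∀ k < 26, coeff k g = 0)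
    (h1 : ∀ k, 26 ≤ k → coeff k g =
      coeff k f + 2 / (3 * (2 * (k : ℝ) + 3)) * coeff (k + 1) (PP (Lp f + R))) :
    NN g ≤ ENNReal.ofReal (197 / 1000) * NN f + ENNReal.ofReal (200 / 10000) * NN R := by
  have key := NN_le_of_rows (Finset.univ : Finset (Fin 9))
    ![2 / 165 * 3, 2 / 165 * 2, 2 / 165 * (4 / 3), 2 / 165 * (8 / 9), 2 / 165 * (16 / 27),
      64 / 243 * (64 / 165), 2 / 165, 2 / 165 * (4 / 9), 2 / 165 * (16 / 81)]
    (by intro i _; fin_cases i <;> norm_num)
    ![f, f, f, f, f, f, R, R, R] ![1, 2, 3, 4, 5, 6, 1, 3, 5] g ?_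
  · refine key.trans ?_
    simp only [Fin.sum_univ_succ, Fin.sum_univ_zero, Matrix.cons_val_zero, Matrix.cons_val_succ,
      Matrix.cons_val_fin_one, add_zero]
    have e1 : ENNReal.ofReal (2 / 165 * 3) + ENNReal.ofReal (2 / 165 * 2)
        + ENNReal.ofReal (2 / 165 * (4 / 3)) + ENNReal.ofReal (2 / 165 * (8 / 9))
        + ENNReal.ofReal (2 / 165 * (16 / 27)) + ENNReal.ofReal (64 / 243 * (64 / 165))
        ≤ ENNReal.ofReal (197 / 1000) := by
      rw [← ENNReal.ofReal_add (by norm_num) (by norm_num),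
        ← ENNReal.ofReal_add (by norm_num) (by norm_num),
        ← ENNReal.ofReal_add (by norm_num) (by norm_num),
        ← ENNReal.ofReal_add (by norm_num) (by norm_num),
        ← ENNReal.ofReal_add (by norm_num) (by norm_num)]
      exact ENNReal.ofReal_le_ofReal (by norm_num)
    have e2 : ENNReal.ofReal (2 / 165) + ENNReal.ofReal (2 / 165 * (4 / 9))
        + ENNReal.ofReal (2 / 165 * (16 / 81)) ≤ ENNReal.ofReal (200 / 10000) := by
      rw [← ENNReal.ofReal_add (by norm_num) (by norm_num),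
        ← ENNReal.ofReal_add (by norm_num) (by norm_num)]
      exact ENNReal.ofReal_le_ofReal (by norm_num)
    refine le_trans (le_of_eq ?_) (add_le_add (mul_le_mul_left e1 (NN f))
      (mul_le_mul_left e2 (NN R)))
    ring
  · intro k
    rcases lt_or_ge k 26 with hk | hk
    · rw [h0 k hk, abs_zero]
      refine Finset.sum_nonneg fun i _ => mul_nonneg ?_ (abs_nonneg _)
      fin_cases i <;> norm_num
    · obtain ⟨j, rfl⟩ : ∃ j, k = j + 1 := ⟨k - 1, by omega⟩
      rw [h1 _ hk]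
      have := row_real f R j (by omega)
      push_cast
      refine this.trans (le_of_eq ?_)
      simp only [Fin.sum_univ_succ, Fin.sum_univ_zero, Matrix.cons_val_zero, Matrix.cons_val_succ,
        Matrix.cons_val_fin_one, add_zero]
      ring_nf

theorem DE1_eq (l : ℝ) (x b m x' b' m' : PS) : DE1 l x b m 0 x' b' m' =
    C (4 / 3 : ℝ) * d⁄dX ℝ x' + (x * b' + b * x' - C l * m') := by
  unfold DE1
  rw [map_zero]
  ring

theorem DE2_eq (l : ℝ) (x b m x' b' m' : PS) : DE2 l x b m 0 x' b' m' =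
    Lp b' + ((C (2 : ℝ) * wp * m - C (2 : ℝ) * x) * x'
      + (C (2 : ℝ) * w2 * m + C (2 : ℝ) * wp * x) * m') := by
  unfold DE2 Lp
  rw [map_zero]
  ring

theorem DE3_eq (l : ℝ) (x b m x' b' m' : PS) : DE3 l x b m 0 x' b' m' =
    Lp m' + (-((w2 * m + C (2 : ℝ) * wp * x) * b') - (w2 * b) * m'
      + (C (l + 1) - C (2 : ℝ) * wp * b) * x') := by
  unfold DE3 Lp
  rw [map_zero]
  ring

theorem Van.Lp {N : ℕ} {f : PS} (hf : Van (N + 1) f) : Van N (High.Lp f) := by
  unfold High.Lp
  exact ((hf.deriv).mul _).add ((hf.mono (by omega)).mul _)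

theorem Van.PP {N : ℕ} {f : PS} (hf : Van (N + 4) f) : Van N (NK.PP f) := by
  intro n hn
  rw [coeff_PP, hf n (by omega), hf (n + 2) (by omega), hf (n + 4) (by omega)]
  ring

end High

open High PowerSeries
open scoped ENNReal

/-- The high part of the linear bound. -/
theorem high_bound
    (NN_cx : NN (cx ubar) ≤ ENNReal.ofReal (89 / 10))
    (NN_cb : NN (cb ubar) ≤ ENNReal.ofReal (46 / 10))
    (cl_ubar : cl ubar = 143117763 / 10 ^ 8)
    (NN_K12 : NN (C (2 : ℝ) * wp * cm ubar - C (2 : ℝ) * cx ubar) ≤ ENNReal.ofReal (146 / 10))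
    (NN_K13 : NN (C (cl ubar + 1) - C (2 : ℝ) * wp * cb ubar) ≤ ENNReal.ofReal 7)
    (NN_K23 : NN (w2 * cm ubar + C (2 : ℝ) * wp * cx ubar) ≤ ENNReal.ofReal (88 / 10))
    (NN_K32 : NN (C (2 : ℝ) * w2 * cm ubar + C (2 : ℝ) * wp * cx ubar) ≤ ENNReal.ofReal (33 / 10))
    (NN_K33 : NN (w2 * cb ubar) ≤ ENNReal.ofReal (92 / 10))
    (h : ℕ → ℝ) (h0 : ∀ j < 97, h j = 0) :
    nrm (h - Aop (DG ubar h)) ≤ ENNReal.ofReal (7 / 10) * nrm h := by
  -- components of `h`
  have hl : cl h = 0 := h0 0 (by norm_num)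
  have vx : Van 32 (cx h) := fun n hn => by
    unfold cx; rw [coeff_mk]; exact h0 _ (by omega)
  have vb : Van 32 (cb h) := fun n hn => by
    unfold cb; rw [coeff_mk]; exact h0 _ (by omega)
  have vm : Van 32 (cm h) := fun n hn => by
    unfold cm; rw [coeff_mk]; exact h0 _ (by omega)
  set R1 : PS := cx ubar * cb h + cb ubar * cx h - C (cl ubar) * cm h with hR1
  set R2 : PS := (C (2 : ℝ) * wp * cm ubar - C (2 : ℝ) * cx ubar) * cx h
      + (C (2 : ℝ) * w2 * cm ubar + C (2 : ℝ) * wp * cx ubar) * cm h with hR2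
  set R3 : PS := -((w2 * cm ubar + C (2 : ℝ) * wp * cx ubar) * cb h) - (w2 * cb ubar) * cm h
      + (C (cl ubar + 1) - C (2 : ℝ) * wp * cb ubar) * cx h with hR3
  have vR1 : Van 32 R1 := ((vb.mul _).add (vx.mul _)).sub (vm.mul _)
  have vR2 : Van 32 R2 := (vx.mul _).add (vm.mul _)
  have vR3 : Van 32 R3 := ((vb.mul _).neg.sub (vm.mul _)).add (vx.mul _)
  have hDG : DG ubar h = flat (C (4 / 3 : ℝ) * d⁄dX ℝ (cx h) + R1) (PP (Lp (cb h) + R2))
      (PP (Lp (cm h) + R3)) := by
    unfold DG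
    rw [hl, DE1_eq, DE2_eq, DE3_eq]
  have v1 : Van 31 (C (4 / 3 : ℝ) * d⁄dX ℝ (cx h) + R1) :=
    ((Van.deriv vx).mul _).add (vR1.mono (by omega))
  have v2 : Van 27 (PP (Lp (cb h) + R2)) := Van.PP ((Van.Lp vb).add (vR2.mono (by omega)))
  have v3 : Van 27 (PP (Lp (cm h) + R3)) := Van.PP ((Van.Lp vm).add (vR3.mono (by omega)))
  -- the first 79 entries of `DG ubar h` vanish
  have hzero : ∀ e < 79, DG ubar h e = 0 := by
    intro e he
    rw [hDG]
    rcases Nat.lt_or_ge e 2 with h2 | h2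
    · interval_cases e
      · show coeff 0 (PP (Lp (cb h) + R2)) = 0
        exact v2 0 (by norm_num)
      · show coeff 0 (PP (Lp (cm h) + R3)) = 0
        exact v3 0 (by norm_num)
    · obtain ⟨n, hn | hn | hn⟩ : ∃ n, e = 3 * n + 2 ∨ e = 3 * n + 3 ∨ e = 3 * n + 4 :=
        ⟨(e - 2) / 3, by omega⟩
      · rw [hn, flat_two]; exact v2 _ (by omega)
      · rw [hn, flat_three]; exact v3 _ (by omega)
      · rw [hn, flat_four]; exact v1 _ (by omega)
  set v : ℕ → ℝ := h - Aop (DG ubar h) with hv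
  have hvlow : ∀ i < 79, v i = 0 := by
    intro i hi
    rw [hv, Pi.sub_apply, h0 i (by omega)]
    unfold Aop
    rw [if_pos hi, Finset.sum_eq_zero]
    · ring
    · intro e he
      rw [hzero e (Finset.mem_range.1 he), mul_zero]
  have hvhigh : ∀ i, 79 ≤ i → v i = h i - DG ubar h i / dd i := by
    intro i hi
    rw [hv, Pi.sub_apply]
    unfold Aop
    rw [if_neg (by omega)]
  -- rows of type x
  have hx : NN (cx v) ≤ ENNReal.ofReal (3 / 104) * NN R1 := by
    unfold NN
    rw [tsum_eq_zero_add' ENNReal.summable, ← ENNReal.tsum_mul_left]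
    have z : ‖coeff 0 (cx v)‖ₑ = 0 := by
      unfold cx; rw [coeff_mk, hvlow _ (by norm_num), enorm_zero]
    rw [z, zero_add]
    refine ENNReal.tsum_le_tsum fun k => ?_
    unfold cx
    rw [coeff_mk]
    rcases Nat.lt_or_ge k 25 with hk | hk
    · rw [hvlow _ (by omega), enorm_zero]; exact bot_le
    · rw [hvhigh _ (by omega), hDG, show 3 * (k + 1) + 1 = 3 * k + 4 by ring, flat_four]
      have hd : dd (3 * k + 4) = 4 / 3 * ((k : ℝ) + 1) := by
        unfold dd
        rw [if_pos (by omega), show (3 * k + 4 - 1) / 3 = k + 1 by omega]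
        push_cast; ring
      have hc : h (3 * k + 4) = coeff (k + 1) (cx h) := by
        unfold cx; rw [coeff_mk]; congr 1
      have hk1 : (0 : ℝ) < (k : ℝ) + 1 := by positivity
      have e : h (3 * k + 4) - coeff k (C (4 / 3 : ℝ) * d⁄dX ℝ (cx h) + R1) / dd (3 * k + 4) =
          -(3 / (4 * ((k : ℝ) + 1))) * coeff k R1 := by
        rw [hd, hc, map_add, coeff_C_mul, coeff_derivative]
        field_simp
        ring
      rw [e, enorm_mul, enorm_neg, Real.enorm_of_nonneg (by positivity)]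
      refine mul_le_mul_left (ENNReal.ofReal_le_ofReal ?_) _
      have hk' : (25 : ℝ) ≤ k := by exact_mod_cast hk
      rw [div_le_div_iff₀ (by positivity) (by norm_num)]
      linarith
  have hddb : ∀ k, dd (3 * k + 2) = -(3 / 2 * (2 * (k : ℝ) + 3)) := by
    intro k
    unfold dd
    rw [if_neg (by omega), show (3 * k + 2 - 1) / 3 = k by omega]
  have hddm : ∀ k, dd (3 * k + 3) = -(3 / 2 * (2 * (k : ℝ) + 3)) := by
    intro k
    unfold dd
    rw [if_neg (by omega), show (3 * k + 3 - 1) / 3 = k by omega]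
  have hb : NN (cb v) ≤ ENNReal.ofReal (197 / 1000) * NN (cb h)
      + ENNReal.ofReal (200 / 10000) * NN R2 := by
    refine row_sum (cb h) R2 (cb v) ?_ ?_
    · intro k hk
      unfold cb; rw [coeff_mk, hvlow _ (by omega)]
    · intro k hk
      have hc : h (3 * k + 2) = coeff k (cb h) := by unfold cb; rw [coeff_mk]
      have hcv : coeff k (cb v) = v (3 * k + 2) := by unfold cb; rw [coeff_mk]
      rw [hcv, hvhigh _ (by omega), hDG, flat_two, hddb, hc]
      have : (0 : ℝ) < 2 * (k : ℝ) + 3 := by positivity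
      field_simp
      ring
  have hm : NN (cm v) ≤ ENNReal.ofReal (197 / 1000) * NN (cm h)
      + ENNReal.ofReal (200 / 10000) * NN R3 := by
    refine row_sum (cm h) R3 (cm v) ?_ ?_
    · intro k hk
      unfold cm; rw [coeff_mk, hvlow _ (by omega)]
    · intro k hk
      have hc : h (3 * k + 3) = coeff k (cm h) := by unfold cm; rw [coeff_mk]
      have hcv : coeff k (cm v) = v (3 * k + 3) := by unfold cm; rw [coeff_mk]
      rw [hcv, hvhigh _ (by omega), hDG, flat_three, hddm, hc]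
      have : (0 : ℝ) < 2 * (k : ℝ) + 3 := by positivity
      field_simp
      ring
  -- norms of the remainders
  set x := NN (cx h)
  set b := NN (cb h)
  set m := NN (cm h)
  have nR1 : NN R1 ≤ ENNReal.ofReal (89 / 10) * b + ENNReal.ofReal (46 / 10) * x
      + ENNReal.ofReal (144 / 100) * m := by
    refine (NN_sub _ _).trans (add_le_add ((NN_add _ _).trans (add_le_add ?_ ?_)) ?_)
    · exact (NN_mul _ _).trans (mul_le_mul_left NN_cx _)
    · exact (NN_mul _ _).trans (mul_le_mul_left NN_cb _)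
    · rw [NN_C_mul]
      refine mul_le_mul_left ?_ _
      rw [cl_ubar, Real.enorm_of_nonneg (by norm_num)]
      exact ENNReal.ofReal_le_ofReal (by norm_num)
  have nR2 : NN R2 ≤ ENNReal.ofReal (146 / 10) * x + ENNReal.ofReal (33 / 10) * m := by
    refine (NN_add _ _).trans (add_le_add ?_ ?_)
    · exact (NN_mul _ _).trans (mul_le_mul_left NN_K12 _)
    · exact (NN_mul _ _).trans (mul_le_mul_left NN_K32 _)
  have nR3 : NN R3 ≤ ENNReal.ofReal (88 / 10) * b + ENNReal.ofReal (92 / 10) * m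
      + ENNReal.ofReal 7 * x := by
    refine (NN_add _ _).trans (add_le_add ((NN_sub _ _).trans (add_le_add ?_ ?_)) ?_)
    · rw [NN_neg]
      exact (NN_mul _ _).trans (mul_le_mul_left NN_K23 _)
    · exact (NN_mul _ _).trans (mul_le_mul_left NN_K33 _)
    · exact (NN_mul _ _).trans (mul_le_mul_left NN_K13 _)
  have hv0 : v 0 = 0 := hvlow 0 (by norm_num)
  have hh0 : h 0 = 0 := h0 0 (by norm_num)
  rw [nrm_eq v, nrm_eq h, hv0, hh0, enorm_zero, zero_add, zero_add]
  calc NN (cx v) + NN (cb v) + NN (cm v) ≤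
      ENNReal.ofReal (3 / 104) * (ENNReal.ofReal (89 / 10) * b + ENNReal.ofReal (46 / 10) * x
        + ENNReal.ofReal (144 / 100) * m) +
      (ENNReal.ofReal (197 / 1000) * b + ENNReal.ofReal (200 / 10000) *
        (ENNReal.ofReal (146 / 10) * x + ENNReal.ofReal (33 / 10) * m)) +
      (ENNReal.ofReal (197 / 1000) * m + ENNReal.ofReal (200 / 10000) *
        (ENNReal.ofReal (88 / 10) * b + ENNReal.ofReal (92 / 10) * m
          + ENNReal.ofReal 7 * x)) := by
        refine add_le_add (add_le_add (hx.trans ?_) (hb.trans ?_)) (hm.trans ?_)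
        · gcongr
        · gcongr
        · gcongr
    _ = (ENNReal.ofReal (3 / 104) * ENNReal.ofReal (46 / 10)
          + ENNReal.ofReal (200 / 10000) * ENNReal.ofReal (146 / 10)
          + ENNReal.ofReal (200 / 10000) * ENNReal.ofReal 7) * x
        + (ENNReal.ofReal (3 / 104) * ENNReal.ofReal (89 / 10) + ENNReal.ofReal (197 / 1000)
          + ENNReal.ofReal (200 / 10000) * ENNReal.ofReal (88 / 10)) * b
        + (ENNReal.ofReal (3 / 104) * ENNReal.ofReal (144 / 100)
          + ENNReal.ofReal (200 / 10000) * ENNReal.ofReal (33 / 10)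
          + ENNReal.ofReal (197 / 1000)
          + ENNReal.ofReal (200 / 10000) * ENNReal.ofReal (92 / 10)) * m := by ring
    _ ≤ ENNReal.ofReal (7 / 10) * x + ENNReal.ofReal (7 / 10) * b
        + ENNReal.ofReal (7 / 10) * m := by
        refine add_le_add (add_le_add (mul_le_mul_left ?_ _) (mul_le_mul_left ?_ _))
          (mul_le_mul_left ?_ _)
        · rw [← ENNReal.ofReal_mul (by norm_num), ← ENNReal.ofReal_mul (by norm_num),
            ← ENNReal.ofReal_mul (by norm_num), ← ENNReal.ofReal_add (by norm_num) (by norm_num),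
            ← ENNReal.ofReal_add (by norm_num) (by norm_num)]
          exact ENNReal.ofReal_le_ofReal (by norm_num)
        · rw [← ENNReal.ofReal_mul (by norm_num), ← ENNReal.ofReal_mul (by norm_num),
            ← ENNReal.ofReal_add (by norm_num) (by norm_num),
            ← ENNReal.ofReal_add (by norm_num) (by norm_num)]
          exact ENNReal.ofReal_le_ofReal (by norm_num)
        · rw [← ENNReal.ofReal_mul (by norm_num), ← ENNReal.ofReal_mul (by norm_num),
            ← ENNReal.ofReal_mul (by norm_num), ← ENNReal.ofReal_add (by norm_num) (by norm_num),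
            ← ENNReal.ofReal_add (by norm_num) (by norm_num),
            ← ENNReal.ofReal_add (by norm_num) (by norm_num)]
          exact ENNReal.ofReal_le_ofReal (by norm_num)
    _ = _ := by ring

end Pool.Agent.H.MP_9f60e7_an.NK
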