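import Mathlib

/-!
Wave maps from (3+1)-dimensional Minkowski space into hyperbolic 3-space: common definitions.
-/

set_option autoImplicit false

namespace Pool.Agent.H.MP_9f60e7_an

open Finset

/-- The k-th component of the wave map operator (upper half-space model), exactly the expression of
the frozen statement. -/
noncomputable def waveOp (u : (Fin 4 → ℝ) → (Fin 3 → ℝ)) (X : Fin 4 → ℝ) (k : Fin 3) : ℝ :=
  ∑ μ : Fin 4, (if μ = 0 then (-1 : ℝ) else 1) *
    (fderiv ℝ (fun Y => fderiv ℝ u Y (Pi.single μ 1) k) X (Pi.single μ 1) +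
      ∑ i : Fin 3, ∑ j : Fin 3,
        (-((if i = k then (1 : ℝ) else 0) * (if j = 2 then (1 : ℝ) else 0)
            + (if j = k then (1 : ℝ) else 0) * (if i = 2 then (1 : ℝ) else 0)
            - (if i = j then (1 : ℝ) else 0) * (if k = 2 then (1 : ℝ) else 0)) / u X 2)
          * fderiv ℝ u X (Pi.single μ 1) i * fderiv ℝ u X (Pi.single μ 1) j)

/-- squared euclidean norm of the spatial part of a space-time point -/
def sq (X : Fin 4 → ℝ) : ℝ := ∑ i : Fin 3, (X i.succ) ^ 2

/-- linear part of the profile equation, `x = |X|^2/(1-t)^2` -/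
noncomputable def Lop (lam : ℝ) (A : ℝ → ℝ) (x : ℝ) : ℝ :=
  4 * x * (1 - x) * deriv (deriv A) x + (6 + (4 * lam - 6) * x) * deriv A x
    - lam * (lam - 1) * A x

/-- quadratic part of the profile equation -/
noncomputable def Qop (lam : ℝ) (A B : ℝ → ℝ) (x : ℝ) : ℝ :=
  4 * x * (1 - x) * deriv A x * deriv B x
    + 2 * lam * x * (deriv A x * B x + A x * deriv B x) - lam ^ 2 * A x * B x

/-- The self-similar ansatz with blow-up point `(t,x) = (1,0)`. -/
noncomputable def ansatz (lam : ℝ) (A B : ℝ → ℝ) (X : Fin 4 → ℝ) : Fin 3 → ℝ :=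
  ![(1 - X 0) ^ lam * A (sq X / (1 - X 0) ^ 2), 0,
    (1 - X 0) ^ lam * B (sq X / (1 - X 0) ^ 2)]

end Pool.Agent.H.MP_9f60e7_an
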