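import Pool.Agent.H.MP_9f60e7_an.Series
import Pool.Agent.H.MP_9f60e7_an.Defs

/-!
From the power series solution to the smooth profile functions.
-/

set_option autoImplicit false

namespace Pool.Agent.H.MP_9f60e7_an.NK

open PowerSeries Filter Topology

/-! ### evaluation of power series on `(-1,1)` -/

/-- evaluation of a power series -/
noncomputable def evalPS (f : PS) (t : ℝ) : ℝ := ∑' n, coeff n f * t ^ n

/-- absolute convergence on the open unit interval -/
def ConvPS (f : PS) : Prop := ∀ r : ℝ, 0 ≤ r → r < 1 → Summable fun n => |coeff n f| * r ^ n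

lemma convPS_of_summable {f : PS} (h : Summable fun n => |coeff n f|) : ConvPS f := by
  intro r h0 h1
  refine Summable.of_nonneg_of_le (fun n => by positivity) (fun n => ?_) h
  exact mul_le_of_le_one_right (abs_nonneg _) (pow_le_one₀ h0 h1.le)

lemma ConvPS.summable_norm {f : PS} (hf : ConvPS f) {t : ℝ} (ht : |t| < 1) :
    Summable fun n => ‖coeff n f * t ^ n‖ := by
  have := hf |t| (abs_nonneg t) ht
  simpa [norm_mul, norm_pow] using this

lemma ConvPS.summable {f : PS} (hf : ConvPS f) {t : ℝ} (ht : |t| < 1) :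
    Summable fun n => coeff n f * t ^ n := (hf.summable_norm ht).of_norm

lemma convPS_C (c : ℝ) : ConvPS (C c) := by
  intro r _ _
  refine summable_of_ne_finset_zero (s := {0}) fun n hn => ?_
  have : n ≠ 0 := by simpa using hn
  simp [coeff_C, this]

lemma convPS_X : ConvPS X := by
  intro r _ _
  refine summable_of_ne_finset_zero (s := {1}) fun n hn => ?_
  have : n ≠ 1 := by simpa using hn
  simp [coeff_X, this]

lemma ConvPS.add {f g : PS} (hf : ConvPS f) (hg : ConvPS g) : ConvPS (f + g) := by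
  intro r h0 h1
  refine Summable.of_nonneg_of_le (fun n => by positivity) (fun n => ?_)
    ((hf r h0 h1).add (hg r h0 h1))
  rw [map_add, ← add_mul]
  gcongr
  exact abs_add_le _ _

lemma ConvPS.neg {f : PS} (hf : ConvPS f) : ConvPS (-f) := by
  intro r h0 h1
  simpa using hf r h0 h1

lemma ConvPS.sub {f g : PS} (hf : ConvPS f) (hg : ConvPS g) : ConvPS (f - g) := by
  rw [sub_eq_add_neg]
  exact hf.add hg.neg

lemma coeff_mul_pow (f g : PS) (t : ℝ) (n : ℕ) : coeff n (f * g) * t ^ n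
    = ∑ kl ∈ Finset.HasAntidiagonal.antidiagonal n, (coeff kl.1 f * t ^ kl.1) * (coeff kl.2 g * t ^ kl.2) := by
  rw [coeff_mul, Finset.sum_mul]
  refine Finset.sum_congr rfl fun kl hkl => ?_
  rw [← Finset.HasAntidiagonal.mem_antidiagonal.1 hkl, pow_add]
  ring

lemma ConvPS.mul {f g : PS} (hf : ConvPS f) (hg : ConvPS g) : ConvPS (f * g) := by
  intro r h0 h1
  have ht : |r| < 1 := by rwa [abs_of_nonneg h0]
  have h := summable_norm_sum_mul_antidiagonal_of_summable_norm (hf.summable_norm ht)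
    (hg.summable_norm ht)
  refine h.congr fun n => ?_
  rw [← coeff_mul_pow, norm_mul, Real.norm_eq_abs, Real.norm_eq_abs, abs_of_nonneg (pow_nonneg h0 n)]

lemma ConvPS.deriv {f : PS} (hf : ConvPS f) : ConvPS (d⁄dX ℝ f) := by
  intro r h0 h1
  obtain ⟨ρ, h2, h3⟩ := exists_between h1
  have hρ : 0 < ρ := h0.trans_lt h2
  have hb : ∃ M : ℝ, ∀ n, |coeff n f| * ρ ^ n ≤ M := by
    obtain ⟨M, hM⟩ := (hf ρ hρ.le h3).tendsto_atTop_zero.bddAbove_range
    exact ⟨M, fun n => hM (Set.mem_range_self n)⟩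
  obtain ⟨M, hM⟩ := hb
  have hq : ‖r / ρ‖ < 1 := by
    rw [Real.norm_of_nonneg (by positivity), div_lt_one hρ]
    exact h2
  have hs := summable_pow_mul_geometric_of_norm_lt_one 1 hq
  have hs0 := summable_geometric_of_norm_lt_one hq
  refine Summable.of_nonneg_of_le (fun n => by positivity) (fun n => ?_)
    ((hs.add hs0).mul_left (M / ρ))
  rw [coeff_derivative, abs_mul]
  have h4 := hM (n + 1)
  have h5 : |(n : ℝ) + 1| = n + 1 := abs_of_nonneg (by positivity)
  rw [h5]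
  have h6 : |coeff (n + 1) f| * ((n : ℝ) + 1) * r ^ n
      = (|coeff (n + 1) f| * ρ ^ (n + 1)) / ρ * (((n : ℝ) + 1) * (r / ρ) ^ n) := by
    rw [div_pow, pow_succ]
    field_simp
  rw [h6]
  have h7 : (n : ℝ) ^ 1 * (r / ρ) ^ n + (r / ρ) ^ n = ((n : ℝ) + 1) * (r / ρ) ^ n := by ring
  rw [h7]
  gcongr

lemma evalPS_C (c t : ℝ) : evalPS (C c) t = c := by
  unfold evalPS
  rw [tsum_eq_single 0 fun n hn => by simp [coeff_C, hn]]
  simp

lemma evalPS_X (t : ℝ) : evalPS X t = t := by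
  unfold evalPS
  rw [tsum_eq_single 1 fun n hn => by simp [coeff_X, hn]]
  simp

lemma evalPS_zero (t : ℝ) : evalPS 0 t = 0 := by
  unfold evalPS
  simp

lemma evalPS_add {f g : PS} (hf : ConvPS f) (hg : ConvPS g) {t : ℝ} (ht : |t| < 1) :
    evalPS (f + g) t = evalPS f t + evalPS g t := by
  unfold evalPS
  rw [← (hf.summable ht).tsum_add (hg.summable ht)]
  refine tsum_congr fun n => ?_
  rw [map_add, add_mul]

lemma evalPS_sub {f g : PS} (hf : ConvPS f) (hg : ConvPS g) {t : ℝ} (ht : |t| < 1) :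
    evalPS (f - g) t = evalPS f t - evalPS g t := by
  unfold evalPS
  rw [← (hf.summable ht).tsum_sub (hg.summable ht)]
  refine tsum_congr fun n => ?_
  rw [map_sub, sub_mul]

lemma evalPS_mul {f g : PS} (hf : ConvPS f) (hg : ConvPS g) {t : ℝ} (ht : |t| < 1) :
    evalPS (f * g) t = evalPS f t * evalPS g t := by
  unfold evalPS
  rw [tsum_mul_tsum_eq_tsum_sum_antidiagonal_of_summable_norm (hf.summable_norm ht)
    (hg.summable_norm ht)]
  exact tsum_congr fun n => coeff_mul_pow f g t n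

lemma hasDerivAt_evalPS {f : PS} (hf : ConvPS f) {t : ℝ} (ht : |t| < 1) :
    HasDerivAt (evalPS f) (evalPS (d⁄dX ℝ f) t) t := by
  obtain ⟨r, h1, h2⟩ := exists_between ht
  have hr : 0 < r := (abs_nonneg t).trans_lt h1
  have key := hasDerivAt_tsum_of_isPreconnected (t := Set.Ioo (-r) r)
    (g := fun n z => coeff n f * z ^ n) (g' := fun n z => coeff n f * (n * z ^ (n - 1)))
    (u := fun n => |coeff n f| * (n * r ^ (n - 1))) (y₀ := 0) (y := t) ?_ isOpen_Ioo
    isPreconnected_Ioo ?_ ?_ ⟨by linarith, hr⟩ ?_ ⟨by linarith [(abs_lt.1 h1).1], (abs_lt.1 h1).2⟩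
  · have e : ∑' n, coeff n f * (n * t ^ (n - 1)) = evalPS (d⁄dX ℝ f) t := by
      have hs : Summable fun n : ℕ => coeff n f * ((n : ℝ) * t ^ (n - 1)) := by
        rw [← summable_nat_add_iff 1]
        refine (hf.deriv.summable ht).congr fun n => ?_
        rw [coeff_derivative]
        push_cast
        ring
      rw [hs.tsum_eq_zero_add]
      unfold evalPS
      simp only [Nat.cast_zero, zero_mul, mul_zero, zero_add]
      refine tsum_congr fun n => ?_
      rw [coeff_derivative]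
      push_cast
      ring
    rw [← e]
    exact key
  · rw [← summable_nat_add_iff 1]
    refine (hf.deriv r hr.le h2).congr fun n => ?_
    rw [coeff_derivative, abs_mul, abs_of_nonneg (by positivity : (0 : ℝ) ≤ (n : ℝ) + 1)]
    push_cast
    ring
  · intro n y _
    exact (hasDerivAt_pow n y).const_mul _
  · intro n y hy
    rw [norm_mul, norm_mul, norm_pow, Real.norm_eq_abs, Real.norm_natCast]
    have : ‖y‖ ≤ r := by
      rw [Real.norm_eq_abs]
      exact (abs_lt.2 hy).le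
    gcongr
  · exact hf.summable (by simp)

lemma contDiffOn_evalPS_nat (n : ℕ) : ∀ {f : PS}, ConvPS f →
    ContDiffOn ℝ n (evalPS f) (Set.Ioo (-1) 1) := by
  induction n with
  | zero =>
    intro f hf
    refine contDiffOn_zero.2 fun t ht => ?_
    exact (hasDerivAt_evalPS hf (abs_lt.2 ht)).continuousAt.continuousWithinAt
  | succ n ih =>
    intro f hf
    rw [Nat.cast_succ, contDiffOn_succ_iff_deriv_of_isOpen isOpen_Ioo]
    refine ⟨fun t ht => (hasDerivAt_evalPS hf (abs_lt.2 ht)).differentiableAt.differentiableWithinAt,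
      fun h => absurd h (by simp), ?_⟩
    exact (ih hf.deriv).congr fun t ht => (hasDerivAt_evalPS hf (abs_lt.2 ht)).deriv

lemma contDiffOn_evalPS {f : PS} (hf : ConvPS f) :
    ContDiffOn ℝ (⊤ : ℕ∞) (evalPS f) (Set.Ioo (-1) 1) :=
  contDiffOn_infty.2 fun n => contDiffOn_evalPS_nat n hf

/-! ### the equations on `(-1,1)` -/

lemma convPS_w2 : ConvPS w2 := by
  unfold w2
  rw [pow_two, ← map_one C]
  exact (convPS_C 1).sub ((convPS_C _).mul (convPS_X.mul convPS_X))

lemma convPS_wp : ConvPS wp := by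
  unfold wp
  rw [← map_one C]
  exact (convPS_C 1).add ((convPS_C _).mul convPS_X)

lemma convPS_wm : ConvPS wm := by
  unfold wm
  rw [← map_one C]
  exact (convPS_C 1).sub ((convPS_C _).mul convPS_X)

lemma evalPS_w2 {t : ℝ} (ht : |t| < 1) : evalPS w2 t = 1 - 9 / 4 * t ^ 2 := by
  unfold w2
  rw [pow_two, ← map_one C, evalPS_sub (convPS_C 1) ((convPS_C _).mul (convPS_X.mul convPS_X)) ht,
    evalPS_mul (convPS_C _) (convPS_X.mul convPS_X) ht, evalPS_mul convPS_X convPS_X ht,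
    evalPS_C, evalPS_C, evalPS_X]
  ring

lemma evalPS_wp {t : ℝ} (ht : |t| < 1) : evalPS wp t = 1 + 3 / 2 * t := by
  unfold wp
  rw [← map_one C, evalPS_add (convPS_C 1) ((convPS_C _).mul convPS_X) ht,
    evalPS_mul (convPS_C _) convPS_X ht, evalPS_C, evalPS_C, evalPS_X]

lemma evalPS_wm {t : ℝ} (ht : |t| < 1) : evalPS wm t = 1 - 3 / 2 * t := by
  unfold wm
  rw [← map_one C, evalPS_sub (convPS_C 1) ((convPS_C _).mul convPS_X) ht,
    evalPS_mul (convPS_C _) convPS_X ht, evalPS_C, evalPS_C, evalPS_X]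

section eqs

variable {l : ℝ} {x b m : PS} (hx : ConvPS x) (hb : ConvPS b) (hm : ConvPS m)
include hx hb hm

lemma eval_E1 (h : E1 l x b m = 0) {t : ℝ} (ht : |t| < 1) :
    4 / 3 * evalPS (d⁄dX ℝ x) t + evalPS x t * evalPS b t - l * evalPS m t = 0 := by
  have h0 : evalPS (E1 l x b m) t = 0 := by rw [h, evalPS_zero]
  rw [← h0, E1, evalPS_sub (((convPS_C _).mul hx.deriv).add (hx.mul hb)) ((convPS_C _).mul hm) ht,
    evalPS_add ((convPS_C _).mul hx.deriv) (hx.mul hb) ht, evalPS_mul (convPS_C _) hx.deriv ht,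
    evalPS_mul hx hb ht, evalPS_mul (convPS_C _) hm ht, evalPS_C, evalPS_C]

lemma eval_E2 (h : E2 l x b m = 0) {t : ℝ} (ht : |t| < 1) :
    4 / 3 * (1 - 9 / 4 * t ^ 2) * evalPS (d⁄dX ℝ b) t + 3 * (1 - 3 / 2 * t) * evalPS b t + l
      + (1 - 9 / 4 * t ^ 2) * (evalPS m t * evalPS m t)
      + 2 * (1 + 3 / 2 * t) * (evalPS x t * evalPS m t) - evalPS x t * evalPS x t = 0 := by
  have h0 : evalPS (E2 l x b m) t = 0 := by rw [h, evalPS_zero]
  have c1 : ConvPS (C (4 / 3 : ℝ) * w2 * d⁄dX ℝ b) := ((convPS_C _).mul convPS_w2).mul hb.deriv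
  have c2 : ConvPS (C (3 : ℝ) * wm * b) := ((convPS_C _).mul convPS_wm).mul hb
  have c3 : ConvPS (C l) := convPS_C l
  have c4 : ConvPS (w2 * (m * m)) := convPS_w2.mul (hm.mul hm)
  have c5 : ConvPS (C (2 : ℝ) * wp * (x * m)) := ((convPS_C _).mul convPS_wp).mul (hx.mul hm)
  have c6 : ConvPS (x * x) := hx.mul hx
  rw [← h0, E2, evalPS_sub ((((c1.add c2).add c3).add c4).add c5) c6 ht,
    evalPS_add (((c1.add c2).add c3).add c4) c5 ht, evalPS_add ((c1.add c2).add c3) c4 ht,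
    evalPS_add (c1.add c2) c3 ht, evalPS_add c1 c2 ht,
    evalPS_mul ((convPS_C _).mul convPS_w2) hb.deriv ht, evalPS_mul (convPS_C _) convPS_w2 ht,
    evalPS_mul ((convPS_C _).mul convPS_wm) hb ht, evalPS_mul (convPS_C _) convPS_wm ht,
    evalPS_mul convPS_w2 (hm.mul hm) ht, evalPS_mul hm hm ht,
    evalPS_mul ((convPS_C _).mul convPS_wp) (hx.mul hm) ht, evalPS_mul (convPS_C _) convPS_wp ht,
    evalPS_mul hx hm ht, evalPS_mul hx hx ht, evalPS_w2 ht, evalPS_wp ht, evalPS_wm ht,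
    evalPS_C, evalPS_C, evalPS_C, evalPS_C]

lemma eval_E3 (h : E3 l x b m = 0) {t : ℝ} (ht : |t| < 1) :
    4 / 3 * (1 - 9 / 4 * t ^ 2) * evalPS (d⁄dX ℝ m) t + 3 * (1 - 3 / 2 * t) * evalPS m t
      - (1 - 9 / 4 * t ^ 2) * (evalPS m t * evalPS b t)
      - 2 * (1 + 3 / 2 * t) * (evalPS b t * evalPS x t) + (l + 1) * evalPS x t = 0 := by
  have h0 : evalPS (E3 l x b m) t = 0 := by rw [h, evalPS_zero]
  have c1 : ConvPS (C (4 / 3 : ℝ) * w2 * d⁄dX ℝ m) := ((convPS_C _).mul convPS_w2).mul hm.deriv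
  have c2 : ConvPS (C (3 : ℝ) * wm * m) := ((convPS_C _).mul convPS_wm).mul hm
  have c4 : ConvPS (w2 * (m * b)) := convPS_w2.mul (hm.mul hb)
  have c5 : ConvPS (C (2 : ℝ) * wp * (b * x)) := ((convPS_C _).mul convPS_wp).mul (hb.mul hx)
  have c6 : ConvPS (C (l + 1) * x) := (convPS_C _).mul hx
  rw [← h0, E3, evalPS_add (((c1.add c2).sub c4).sub c5) c6 ht,
    evalPS_sub ((c1.add c2).sub c4) c5 ht, evalPS_sub (c1.add c2) c4 ht,
    evalPS_add c1 c2 ht,
    evalPS_mul ((convPS_C _).mul convPS_w2) hm.deriv ht, evalPS_mul (convPS_C _) convPS_w2 ht,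
    evalPS_mul ((convPS_C _).mul convPS_wm) hm ht, evalPS_mul (convPS_C _) convPS_wm ht,
    evalPS_mul convPS_w2 (hm.mul hb) ht, evalPS_mul hm hb ht,
    evalPS_mul ((convPS_C _).mul convPS_wp) (hb.mul hx) ht, evalPS_mul (convPS_C _) convPS_wp ht,
    evalPS_mul hb hx ht, evalPS_mul (convPS_C _) hx ht, evalPS_w2 ht, evalPS_wp ht, evalPS_wm ht,
    evalPS_C, evalPS_C, evalPS_C, evalPS_C]

end eqs

/-! ### smooth extension -/

/-- the cutoff function -/
noncomputable def bump : ContDiffBump (1 / 2 : ℝ) := ⟨5 / 8, 11 / 16, by norm_num, by norm_num⟩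

lemma bump_one {s : ℝ} (hs : s ∈ Set.Ioo (-(1 / 8) : ℝ) (9 / 8)) : bump s = 1 := by
  refine bump.one_of_mem_closedBall ?_
  rw [Metric.mem_closedBall, Real.dist_eq]
  change |s - 1 / 2| ≤ 5 / 8
  rw [abs_le]
  constructor <;> linarith [hs.1, hs.2]

lemma bump_zero {s : ℝ} (hs : s ∉ Set.Icc (-(3 / 16) : ℝ) (19 / 16)) : bump s = 0 := by
  refine bump.zero_of_le_dist ?_
  change (11 / 16 : ℝ) ≤ dist s (1 / 2)
  rw [Real.dist_eq]
  by_contra h
  rw [not_le, abs_lt] at h
  exact hs ⟨by linarith [h.1], by linarith [h.2]⟩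

lemma contDiff_bump_mul {f : ℝ → ℝ} (hf : ContDiffOn ℝ (⊤ : ℕ∞) f (Set.Ioo (-(1 / 4) : ℝ) (5 / 4))) :
    ContDiff ℝ (⊤ : ℕ∞) fun s => bump s * f s := by
  rw [contDiff_iff_contDiffAt]
  intro s
  by_cases hs : s ∈ Set.Ioo (-(1 / 4) : ℝ) (5 / 4)
  · exact (bump.contDiff.contDiffAt).mul ((hf s hs).contDiffAt (isOpen_Ioo.mem_nhds hs))
  · have hs' : s ∈ (Set.Icc (-(3 / 16) : ℝ) (19 / 16))ᶜ := by
      intro h
      exact hs ⟨by linarith [h.1], by linarith [h.2]⟩
    refine ContDiffAt.congr_of_eventuallyEq (contDiffAt_const (c := (0 : ℝ))) ?_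
    filter_upwards [isClosed_Icc.isOpen_compl.mem_nhds hs'] with y hy
    rw [bump_zero hy, zero_mul]

/-- the coordinate change -/
noncomputable def tau (s : ℝ) : ℝ := (4 * s - 2) / 3

lemma abs_tau {s : ℝ} (hs : s ∈ Set.Ioo (-(1 / 4) : ℝ) (5 / 4)) : |tau s| < 1 := by
  unfold tau
  rw [abs_lt]
  constructor <;> linarith [hs.1, hs.2]

lemma hasDerivAt_tau (s : ℝ) : HasDerivAt tau (4 / 3) s := by
  have h : HasDerivAt tau (4 * 1 / 3) s :=
    (((hasDerivAt_id s).const_mul 4).sub_const 2).div_const 3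
  rwa [mul_one] at h

lemma hasDerivAt_evalPS_tau {f : PS} (hf : ConvPS f) {s : ℝ}
    (hs : s ∈ Set.Ioo (-(1 / 4) : ℝ) (5 / 4)) :
    HasDerivAt (fun s => evalPS f (tau s)) (evalPS (d⁄dX ℝ f) (tau s) * (4 / 3)) s :=
  (hasDerivAt_evalPS hf (abs_tau hs)).comp s (hasDerivAt_tau s)

lemma contDiff_bump_evalPS {f : PS} (hf : ConvPS f) :
    ContDiff ℝ (⊤ : ℕ∞) fun s => bump s * evalPS f (tau s) := by
  refine contDiff_bump_mul ?_
  refine (contDiffOn_evalPS hf).comp (t := Set.Ioo (-1) 1) ?_ ?_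
  · unfold tau
    fun_prop
  · intro s hs
    exact abs_lt.1 (abs_tau hs)

theorem profile_of_series (l : ℝ) (hl : 0 < l) (x b m : PS)
    (hx : Summable fun n => |coeff n x|) (hb : Summable fun n => |coeff n b|)
    (hm : Summable fun n => |coeff n m|)
    (h1 : E1 l x b m = 0) (h2 : E2 l x b m = 0) (h3 : E3 l x b m = 0) :
    ∃ (lam : ℝ) (A B : ℝ → ℝ), 0 < lam ∧
      ContDiff ℝ (⊤ : ℕ∞) A ∧ ContDiff ℝ (⊤ : ℕ∞) B ∧ (∀ x, 0 < B x) ∧
      ∀ x ∈ Set.Icc (0:ℝ) 1,
        B x * Lop lam A x = 2 * Qop lam A B x ∧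
        B x * Lop lam B x = Qop lam B B x - Qop lam A A x := by
  have cx' := convPS_of_summable hx
  have cb' := convPS_of_summable hb
  have cm' := convPS_of_summable hm
  -- the functions
  set chi : ℝ → ℝ := fun s => evalPS x (tau s) with hchi
  set beta : ℝ → ℝ := fun s => evalPS b (tau s) with hbeta
  set mu : ℝ → ℝ := fun s => evalPS m (tau s) with hmu
  set B : ℝ → ℝ := fun s => Real.exp (∫ y in (0 : ℝ)..s, bump y * beta y) with hB
  set A : ℝ → ℝ := fun s => B s * (bump s * chi s) / l with hA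
  have sb : ContDiff ℝ (⊤ : ℕ∞) fun s => bump s * beta s := contDiff_bump_evalPS cb'
  have sc : ContDiff ℝ (⊤ : ℕ∞) fun s => bump s * chi s := contDiff_bump_evalPS cx'
  have dI : ∀ s, HasDerivAt (fun s => ∫ y in (0 : ℝ)..s, bump y * beta y) (bump s * beta s) s :=
    fun s => intervalIntegral.integral_hasDerivAt_right (sb.continuous.intervalIntegrable _ _)
      (sb.continuous.stronglyMeasurableAtFilter _ _) sb.continuous.continuousAt
  have dB : ∀ s, HasDerivAt B (B s * (bump s * beta s)) s := fun s => (dI s).exp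
  have sI : ContDiff ℝ (⊤ : ℕ∞) fun s => ∫ y in (0 : ℝ)..s, bump y * beta y := by
    rw [contDiff_infty_iff_deriv]
    refine ⟨fun s => (dI s).differentiableAt, ?_⟩
    have : deriv (fun s => ∫ y in (0 : ℝ)..s, bump y * beta y) = fun s => bump s * beta s :=
      funext fun s => (dI s).deriv
    rw [this]
    exact sb
  have sB : ContDiff ℝ (⊤ : ℕ∞) B := sI.exp
  have sA : ContDiff ℝ (⊤ : ℕ∞) A := (sB.mul sc).div_const l
  have hBpos : ∀ s, 0 < B s := fun s => Real.exp_pos _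
  refine ⟨l, A, B, hl, sA, sB, hBpos, ?_⟩
  -- the good neighbourhood of `[0,1]`
  set U : Set ℝ := Set.Ioo (-(1 / 8) : ℝ) (9 / 8) with hU
  have hUJ : ∀ s ∈ U, s ∈ Set.Ioo (-(1 / 4) : ℝ) (5 / 4) := fun s hs =>
    ⟨by linarith [hs.1], by linarith [hs.2]⟩
  have hUo : ∀ s ∈ U, U ∈ 𝓝 s := fun s hs => isOpen_Ioo.mem_nhds hs
  have dchi : ∀ s ∈ U, HasDerivAt (fun s => bump s * chi s) (l * mu s - chi s * beta s) s := by
    intro s hs
    have e : (4 / 3 : ℝ) * evalPS (d⁄dX ℝ x) (tau s) = l * mu s - chi s * beta s := by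
      have := eval_E1 cx' cb' cm' h1 (abs_tau (hUJ s hs))
      simp only [hchi, hbeta, hmu]
      linarith
    rw [← e, mul_comm (4 / 3 : ℝ)]
    refine (hasDerivAt_evalPS_tau cx' (hUJ s hs)).congr_of_eventuallyEq ?_
    filter_upwards [hUo s hs] with y hy
    rw [bump_one hy, one_mul]
  have dA : ∀ s ∈ U, HasDerivAt A (B s * mu s) s := by
    intro s hs
    have h := ((dB s).mul (dchi s hs)).div_const l
    refine h.congr_deriv ?_
    rw [bump_one hs]
    field_simp
    ring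
  have dB' : ∀ s ∈ U, HasDerivAt B (B s * beta s) s := by
    intro s hs
    have h := dB s
    rwa [bump_one hs, one_mul] at h
  intro s hs
  have hsU : s ∈ U := ⟨by linarith [hs.1], by linarith [hs.2]⟩
  have hsJ := hUJ s hsU
  set beta' : ℝ := evalPS (d⁄dX ℝ b) (tau s) * (4 / 3) with hbeta'
  set mu' : ℝ := evalPS (d⁄dX ℝ m) (tau s) * (4 / 3) with hmu'
  have dbeta : HasDerivAt beta beta' s := hasDerivAt_evalPS_tau cb' hsJ
  have dmu : HasDerivAt mu mu' s := hasDerivAt_evalPS_tau cm' hsJ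
  have dA1 : deriv A s = B s * mu s := (dA s hsU).deriv
  have dB1 : deriv B s = B s * beta s := (dB' s hsU).deriv
  have dA2 : deriv (deriv A) s = B s * beta s * mu s + B s * mu' := by
    have e : deriv A =ᶠ[𝓝 s] fun s => B s * mu s := by
      filter_upwards [hUo s hsU] with y hy
      exact (dA y hy).deriv
    rw [e.deriv_eq]
    exact ((dB' s hsU).mul dmu).deriv
  have dB2 : deriv (deriv B) s = B s * beta s * beta s + B s * beta' := by
    have e : deriv B =ᶠ[𝓝 s] fun s => B s * beta s := by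
      filter_upwards [hUo s hsU] with y hy
      exact (dB' y hy).deriv
    rw [e.deriv_eq]
    exact ((dB' s hsU).mul dbeta).deriv
  have hAs : l * A s = B s * chi s := by
    simp only [hA]
    rw [bump_one hsU]
    field_simp
  have q1 : (1 : ℝ) - 9 / 4 * tau s ^ 2 = 4 * s * (1 - s) := by
    unfold tau
    ring
  have q2 : (1 : ℝ) - 3 / 2 * tau s = 2 * (1 - s) := by
    unfold tau
    ring
  have q3 : (1 : ℝ) + 3 / 2 * tau s = 2 * s := by
    unfold tau
    ring
  have e2 := eval_E2 cx' cb' cm' h2 (abs_tau hsJ)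
  have e3 := eval_E3 cx' cb' cm' h3 (abs_tau hsJ)
  rw [q1, q2, q3] at e2 e3
  change 4 / 3 * (4 * s * (1 - s)) * evalPS (d⁄dX ℝ b) (tau s) + 3 * (2 * (1 - s)) * beta s + l
      + 4 * s * (1 - s) * (mu s * mu s) + 2 * (2 * s) * (chi s * mu s) - chi s * chi s = 0 at e2
  change 4 / 3 * (4 * s * (1 - s)) * evalPS (d⁄dX ℝ m) (tau s) + 3 * (2 * (1 - s)) * mu s
      - 4 * s * (1 - s) * (mu s * beta s) - 2 * (2 * s) * (beta s * chi s)
      + (l + 1) * chi s = 0 at e3
  constructor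
  · unfold Lop Qop
    rw [dA2, dA1, dB1, hmu']
    linear_combination (B s) ^ 2 * e3 + B s * (l + 1 - 4 * s * beta s) * hAs
  · unfold Lop Qop
    rw [dB2, dA1, dB1, hbeta']
    linear_combination (B s) ^ 2 * e2 + (4 * s * mu s * B s - (l * A s + B s * chi s)) * hAs

end Pool.Agent.H.MP_9f60e7_an.NK
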