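import Pool.Agent.H.MP_9f60e7_an.Defs

/-!
Uniqueness (in the backward light cone of `(1,0)`) of wave maps with the same data at time `0`,
on the axis of the cone: a weighted energy identity with the weight
`exp (-Λ t) * expNegInvGlue (1 - t - √(|x|² + δ))`.
-/

set_option autoImplicit false

namespace Pool.Agent.H.MP_9f60e7_an

open MeasureTheory Set Filter Topology

/-- derivative in the coordinate direction `μ` -/
noncomputable def pd (μ : Fin 4) (f : (Fin 4 → ℝ) → ℝ) (X : Fin 4 → ℝ) : ℝ :=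
  fderiv ℝ f X (Pi.single μ 1)

lemma pd_mul {μ : Fin 4} {f g : (Fin 4 → ℝ) → ℝ} {X : Fin 4 → ℝ} (hf : DifferentiableAt ℝ f X)
    (hg : DifferentiableAt ℝ g X) :
    pd μ (fun Y => f Y * g Y) X = f X * pd μ g X + g X * pd μ f X := by
  simp only [pd]
  rw [fderiv_fun_mul hf hg]
  simp

lemma pd_add {μ : Fin 4} {f g : (Fin 4 → ℝ) → ℝ} {X : Fin 4 → ℝ} (hf : DifferentiableAt ℝ f X)
    (hg : DifferentiableAt ℝ g X) :
    pd μ (fun Y => f Y + g Y) X = pd μ f X + pd μ g X := by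
  simp only [pd]
  rw [fderiv_fun_add hf hg]
  simp

lemma pd_sum {ι : Type*} {s : Finset ι} {μ : Fin 4} {f : ι → (Fin 4 → ℝ) → ℝ} {X : Fin 4 → ℝ}
    (hf : ∀ i ∈ s, DifferentiableAt ℝ (f i) X) :
    pd μ (fun Y => ∑ i ∈ s, f i Y) X = ∑ i ∈ s, pd μ (f i) X := by
  simp only [pd]
  rw [fderiv_fun_sum hf]
  simp

lemma pd_sq {μ : Fin 4} {f : (Fin 4 → ℝ) → ℝ} {X : Fin 4 → ℝ} (hf : DifferentiableAt ℝ f X) :
    pd μ (fun Y => f Y ^ 2) X = 2 * f X * pd μ f X := by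
  have : (fun Y => f Y ^ 2) = fun Y => f Y * f Y := by funext Y; ring
  rw [this, pd_mul hf hf]
  ring

lemma pd_congr {μ : Fin 4} {f g : (Fin 4 → ℝ) → ℝ} {X : Fin 4 → ℝ} (h : f =ᶠ[𝓝 X] g) :
    pd μ f X = pd μ g X := by
  simp only [pd]
  rw [h.fderiv_eq]

lemma contDiffOn_pd {f : (Fin 4 → ℝ) → ℝ} {U : Set (Fin 4 → ℝ)} {n m : WithTop ℕ∞} (hU : IsOpen U)
    (hf : ContDiffOn ℝ n f U) (hmn : m + 1 ≤ n) (μ : Fin 4) : ContDiffOn ℝ m (pd μ f) U :=
  (hf.fderiv_of_isOpen hU hmn).clm_apply contDiffOn_const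

lemma pd_comm {f : (Fin 4 → ℝ) → ℝ} {X : Fin 4 → ℝ} (hf : ContDiffAt ℝ 2 f X) (μ ν : Fin 4) :
    pd μ (pd ν f) X = pd ν (pd μ f) X := by
  have hd : DifferentiableAt ℝ (fderiv ℝ f) X :=
    (hf.fderiv_right (m := 1) le_rfl).differentiableAt one_ne_zero
  have key : ∀ a b : Fin 4 → ℝ, fderiv ℝ (fun Y => fderiv ℝ f Y a) X b
      = fderiv ℝ (fderiv ℝ f) X b a := by
    intro a b
    have h := (hd.hasFDerivAt.clm_apply (hasFDerivAt_const a X)).fderiv
    rw [h]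
    simp
  have hs := hf.isSymmSndFDerivAt (by simp)
  unfold pd
  rw [key, key]
  exact hs _ _

/-! ### The weight -/

/-- regularised spatial radius -/
noncomputable def srad (δ : ℝ) (X : Fin 4 → ℝ) : ℝ := Real.sqrt (sq X + δ)

lemma sq_nonneg' (X : Fin 4 → ℝ) : 0 ≤ sq X := Finset.sum_nonneg fun _ _ => sq_nonneg _

lemma contDiff_sq {n : WithTop ℕ∞} : ContDiff ℝ n sq := by
  unfold sq
  fun_prop

lemma hasFDerivAt_sq (X : Fin 4 → ℝ) : HasFDerivAt sq
    (∑ i : Fin 3, (2 * X i.succ) • ContinuousLinearMap.proj (R := ℝ) (φ := fun _ : Fin 4 => ℝ) i.succ) X := by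
  unfold sq
  refine HasFDerivAt.fun_sum fun i _ => ?_
  have h := (ContinuousLinearMap.proj (R := ℝ) (φ := fun _ : Fin 4 => ℝ) i.succ).hasFDerivAt (x := X)
  have h2 := h.pow 2
  simpa using h2

lemma pd_sq_zero (X : Fin 4 → ℝ) : pd 0 sq X = 0 := by
  simp only [pd]
  rw [(hasFDerivAt_sq X).fderiv]
  simp

lemma pd_sq_succ (i : Fin 3) (X : Fin 4 → ℝ) : pd i.succ sq X = 2 * X i.succ := by
  simp only [pd]
  rw [(hasFDerivAt_sq X).fderiv]
  simp [Pi.single_apply, Fin.succ_inj]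

section weight

variable {δ : ℝ} (hδ : 0 < δ)
include hδ

lemma srad_pos (X : Fin 4 → ℝ) : 0 < srad δ X := by
  unfold srad
  have := sq_nonneg' X
  positivity

lemma srad_sq (X : Fin 4 → ℝ) : srad δ X ^ 2 = sq X + δ := by
  unfold srad
  rw [Real.sq_sqrt]
  have := sq_nonneg' X
  positivity

lemma contDiff_srad {n : WithTop ℕ∞} : ContDiff ℝ n (srad δ) := by
  unfold srad
  refine ContDiff.sqrt (contDiff_sq.add contDiff_const) fun X => ?_
  have := sq_nonneg' X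
  positivity

lemma pd_srad (μ : Fin 4) (X : Fin 4 → ℝ) : pd μ (srad δ) X = pd μ sq X / (2 * srad δ X) := by
  have h1 : HasFDerivAt (fun Y => sq Y + δ) (fderiv ℝ sq X) X :=
    ((contDiff_sq (n := 1)).differentiable one_ne_zero X).hasFDerivAt.add_const δ
  have h2 := h1.sqrt (by have := sq_nonneg' X; positivity)
  simp only [pd]
  have h3 : fderiv ℝ (srad δ) X = (1 / (2 * Real.sqrt (sq X + δ))) • fderiv ℝ sq X := h2.fderiv
  rw [h3]
  simp only [srad, smul_apply, smul_eq_mul]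
  ring

lemma pd_srad_zero (X : Fin 4 → ℝ) : pd 0 (srad δ) X = 0 := by
  rw [pd_srad hδ, pd_sq_zero, zero_div]

lemma pd_srad_succ (i : Fin 3) (X : Fin 4 → ℝ) :
    pd i.succ (srad δ) X = X i.succ / srad δ X := by
  have := srad_pos hδ X
  rw [pd_srad hδ, pd_sq_succ]
  field_simp

end weight

/-- defining function of the region -/
noncomputable def qf (δ : ℝ) (X : Fin 4 → ℝ) : ℝ := 1 - X 0 - srad δ X

/-- the weight -/
noncomputable def wt (δ Λ : ℝ) (X : Fin 4 → ℝ) : ℝ := Real.exp (-Λ * X 0) * expNegInvGlue (qf δ X)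

section weight

variable {δ : ℝ} (hδ : 0 < δ)
include hδ

lemma contDiff_qf {n : WithTop ℕ∞} : ContDiff ℝ n (qf δ) := by
  unfold qf
  have := contDiff_srad hδ (n := n)
  fun_prop

lemma contDiff_wt (Λ : ℝ) {n : ℕ} : ContDiff ℝ n (wt δ Λ) := by
  unfold wt
  have h1 : ContDiff ℝ n (fun X : Fin 4 → ℝ => Real.exp (-Λ * X 0)) := by fun_prop
  exact h1.mul (expNegInvGlue.contDiff.comp (contDiff_qf hδ))

omit hδ in
lemma hasFDerivAt_coord (μ : Fin 4) (X : Fin 4 → ℝ) : HasFDerivAt (fun Y : Fin 4 → ℝ => Y μ)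
    (ContinuousLinearMap.proj (R := ℝ) (φ := fun _ : Fin 4 => ℝ) μ) X :=
  (ContinuousLinearMap.proj (R := ℝ) (φ := fun _ : Fin 4 => ℝ) μ).hasFDerivAt

lemma pd_qf (μ : Fin 4) (X : Fin 4 → ℝ) :
    pd μ (qf δ) X = - (if μ = 0 then 1 else 0) - pd μ (srad δ) X := by
  have h1 : DifferentiableAt ℝ (srad δ) X :=
    (contDiff_srad hδ (n := 1)).differentiable one_ne_zero X
  have h2 : HasFDerivAt (qf δ) (0 - ContinuousLinearMap.proj (R := ℝ) (φ := fun _ : Fin 4 => ℝ) 0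
      - fderiv ℝ (srad δ) X) X :=
    ((hasFDerivAt_const (1 : ℝ) X).sub (hasFDerivAt_coord 0 X)).sub h1.hasFDerivAt
  simp only [pd]
  rw [h2.fderiv]
  simp [Pi.single_apply, eq_comm]

lemma pd_wt (Λ : ℝ) (μ : Fin 4) (X : Fin 4 → ℝ) :
    pd μ (wt δ Λ) X = - Λ * (if μ = 0 then 1 else 0) * wt δ Λ X
      + Real.exp (-Λ * X 0) * deriv expNegInvGlue (qf δ X) * pd μ (qf δ) X := by
  have h1 : HasFDerivAt (fun Y : Fin 4 → ℝ => Real.exp (-Λ * Y 0))
      (Real.exp (-Λ * X 0) • ((-Λ) • ContinuousLinearMap.proj (R := ℝ) (φ := fun _ : Fin 4 => ℝ) 0)) X :=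
    ((hasFDerivAt_coord 0 X).const_mul (-Λ)).exp
  have hq : DifferentiableAt ℝ (qf δ) X := (contDiff_qf hδ (n := 1)).differentiable one_ne_zero X
  have hg : HasDerivAt expNegInvGlue (deriv expNegInvGlue (qf δ X)) (qf δ X) :=
    (((expNegInvGlue.contDiff (n := 1)).differentiable one_ne_zero) _).hasDerivAt
  have h2 : HasFDerivAt (fun Y => expNegInvGlue (qf δ Y))
      (deriv expNegInvGlue (qf δ X) • fderiv ℝ (qf δ) X) X := hg.comp_hasFDerivAt X hq.hasFDerivAt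
  have h3 := (h1.mul h2).fderiv
  simp only [pd]
  have h4 : fderiv ℝ (wt δ Λ) X = Real.exp (-Λ * X 0) • (deriv expNegInvGlue (qf δ X) • fderiv ℝ (qf δ) X)
    + expNegInvGlue (qf δ X) • (Real.exp (-Λ * X 0) • ((-Λ) • ContinuousLinearMap.proj (R := ℝ) (φ := fun _ : Fin 4 => ℝ) 0)) := h3
  rw [h4]
  simp only [wt, add_apply, smul_apply, smul_eq_mul,
    ContinuousLinearMap.proj_apply, Pi.single_apply]
  split_ifs with h5 h6 h6
  · ring
  · exact absurd h5.symm h6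
  · exact absurd h6.symm h5
  · ring

omit hδ in
lemma wt_nonneg (Λ : ℝ) (X : Fin 4 → ℝ) : 0 ≤ wt δ Λ X :=
  mul_nonneg (Real.exp_pos _).le (expNegInvGlue.nonneg _)

omit hδ in
lemma wt_pos (Λ : ℝ) {X : Fin 4 → ℝ} (h : 0 < qf δ X) : 0 < wt δ Λ X :=
  mul_pos (Real.exp_pos _) (expNegInvGlue.pos_of_pos h)

omit hδ in
lemma wt_zero (Λ : ℝ) {X : Fin 4 → ℝ} (h : qf δ X ≤ 0) : wt δ Λ X = 0 := by
  unfold wt
  rw [expNegInvGlue.zero_of_nonpos h, mul_zero]

end weight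
/-! ### Integration over the half space `0 < t` -/

/-- the compact truncated region -/
def Kreg (δ : ℝ) : Set (Fin 4 → ℝ) := {X | 0 ≤ X 0 ∧ 0 ≤ qf δ X}

section half

variable {δ : ℝ} (hδ : 0 < δ)
include hδ

lemma coord_le_srad (i : Fin 3) (X : Fin 4 → ℝ) : |X i.succ| ≤ srad δ X := by
  apply Real.abs_le_sqrt
  have : (X i.succ) ^ 2 ≤ sq X :=
    Finset.single_le_sum (f := fun i : Fin 3 => (X i.succ) ^ 2) (fun _ _ => sq_nonneg _)
      (Finset.mem_univ i)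
  linarith

lemma isCompact_Kreg : IsCompact (Kreg δ) := by
  have hclosed : IsClosed (Kreg δ) := by
    have h1 : IsClosed {X : Fin 4 → ℝ | 0 ≤ X 0} := isClosed_le continuous_const (continuous_apply 0)
    have h2 : IsClosed {X : Fin 4 → ℝ | 0 ≤ qf δ X} :=
      isClosed_le continuous_const (contDiff_qf hδ (n := 1)).continuous
    exact h1.inter h2
  refine Metric.isCompact_of_isClosed_isBounded hclosed ?_
  rw [isBounded_iff_forall_norm_le]
  refine ⟨1, fun X hX => ?_⟩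
  have hs := srad_pos hδ X
  obtain ⟨h1, h2⟩ := hX
  unfold qf at h2
  rw [pi_norm_le_iff_of_nonneg zero_le_one]
  intro μ
  rw [Real.norm_eq_abs]
  refine Fin.cases ?_ (fun i => ?_) μ
  · rw [abs_le]
    constructor <;> linarith
  · have := coord_le_srad hδ i X
    linarith

lemma lt_one_of_qf {X : Fin 4 → ℝ} (h : 0 ≤ qf δ X) : X 0 < 1 := by
  have hs := srad_pos hδ X
  unfold qf at h
  linarith

lemma integrable_half {F : (Fin 4 → ℝ) → ℝ} (hF : Continuous F)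
    (h0 : ∀ X, qf δ X < 0 → F X = 0) :
    Integrable ({X : Fin 4 → ℝ | 0 < X 0}.indicator F) := by
  have hm : MeasurableSet {X : Fin 4 → ℝ | 0 < X 0} :=
    (isOpen_lt continuous_const (continuous_apply 0)).measurableSet
  have h1 : {X : Fin 4 → ℝ | 0 < X 0}.indicator F
      = ({X : Fin 4 → ℝ | 0 < X 0} ∩ Kreg δ).indicator F := by
    funext X
    by_cases hX : 0 < X 0
    · by_cases hq : qf δ X < 0
      · rw [Set.indicator_of_mem (show X ∈ {X : Fin 4 → ℝ | 0 < X 0} from hX), h0 X hq,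
          Set.indicator_of_notMem]
        exact fun h => absurd h.2.2 (not_le.2 hq)
      · rw [Set.indicator_of_mem (show X ∈ {X : Fin 4 → ℝ | 0 < X 0} from hX),
          Set.indicator_of_mem]
        exact ⟨hX, hX.le, not_lt.1 hq⟩
    · rw [Set.indicator_of_notMem (show X ∉ {X : Fin 4 → ℝ | 0 < X 0} from hX),
        Set.indicator_of_notMem]
      exact fun h => hX h.1
  rw [h1, integrable_indicator_iff (hm.inter (isCompact_Kreg hδ).isClosed.measurableSet)]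
  exact (hF.continuousOn.integrableOn_compact (isCompact_Kreg hδ)).mono_set Set.inter_subset_right

omit hδ in
lemma integral_eq_zero_of_line {g g' : (Fin 4 → ℝ) → ℝ} {v : Fin 4 → ℝ}
    (hg : ∀ X, HasLineDerivAt ℝ g (g' X) X v) (h1 : Integrable g) (h2 : Integrable g') :
    ∫ X, g' X = 0 := by
  have h := integral_bilinear_hasLineDerivAt_right_eq_neg_left_of_integrable
    (μ := (volume : Measure (Fin 4 → ℝ))) (f := fun _ : Fin 4 → ℝ => (1 : ℝ))
    (f' := fun _ => (0 : ℝ)) (g := g) (g' := g') (v := v) (B := ContinuousLinearMap.mul ℝ ℝ)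
    (by simp) (by simpa using h2) (by simpa using h1)
    (fun X _ => by
      have : HasDerivAt (fun t : ℝ => (1 : ℝ)) 0 0 := hasDerivAt_const 0 1
      exact this)
    (fun X _ => hg X)
  simpa using h

omit hδ in
lemma pd_continuous {G : (Fin 4 → ℝ) → ℝ} (hG : ContDiff ℝ 1 G) (μ : Fin 4) :
    Continuous (pd μ G) :=
  (hG.continuous_fderiv one_ne_zero).clm_apply continuous_const

lemma pd_zero_of_qf {G : (Fin 4 → ℝ) → ℝ} (h0 : ∀ X, qf δ X < 0 → G X = 0) (μ : Fin 4)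
    {X : Fin 4 → ℝ} (hX : qf δ X < 0) : pd μ G X = 0 := by
  have hopen : IsOpen {X : Fin 4 → ℝ | qf δ X < 0} :=
    isOpen_lt (contDiff_qf hδ (n := 1)).continuous continuous_const
  have h1 : G =ᶠ[𝓝 X] fun _ => 0 := by
    filter_upwards [hopen.mem_nhds hX] with Y hY
    exact h0 Y hY
  rw [pd_congr h1]
  simp [pd]

lemma integral_pd_space {G : (Fin 4 → ℝ) → ℝ} (hG : ContDiff ℝ 1 G)
    (h0 : ∀ X, qf δ X < 0 → G X = 0) (i : Fin 3) :
    ∫ X, {X : Fin 4 → ℝ | 0 < X 0}.indicator (pd i.succ G) X = 0 := by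
  refine integral_eq_zero_of_line (g := {X : Fin 4 → ℝ | 0 < X 0}.indicator G)
    (v := Pi.single i.succ 1) (fun X => ?_) (integrable_half hδ hG.continuous h0)
    (integrable_half hδ (pd_continuous hG _) fun X hX => pd_zero_of_qf hδ h0 _ hX)
  have hline : ∀ t : ℝ, (X + t • (Pi.single i.succ 1 : Fin 4 → ℝ)) 0 = X 0 := by
    intro t
    simp
  by_cases hX : 0 < X 0
  · rw [Set.indicator_of_mem (show X ∈ {X : Fin 4 → ℝ | 0 < X 0} from hX)]
    have h1 : HasLineDerivAt ℝ G (pd i.succ G X) X (Pi.single i.succ 1) :=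
      ((hG.differentiable one_ne_zero) X).hasFDerivAt.hasLineDerivAt _
    refine HasDerivAt.congr_of_eventuallyEq h1 (Eventually.of_forall fun t => ?_)
    exact Set.indicator_of_mem (show X + t • _ ∈ {X : Fin 4 → ℝ | 0 < X 0} by
      rw [Set.mem_ofPred_eq, hline t]; exact hX) G
  · rw [Set.indicator_of_notMem (show X ∉ {X : Fin 4 → ℝ | 0 < X 0} from hX)]
    refine HasDerivAt.congr_of_eventuallyEq (hasDerivAt_const (0 : ℝ) (0 : ℝ))
      (Eventually.of_forall fun t => ?_)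
    exact Set.indicator_of_notMem (show X + t • _ ∉ {X : Fin 4 → ℝ | 0 < X 0} by
      rw [Set.mem_ofPred_eq, hline t]; exact hX) G

lemma integral_pd_time {G : (Fin 4 → ℝ) → ℝ} (hG : ContDiff ℝ 1 G)
    (h0 : ∀ X, qf δ X < 0 → G X = 0) (hz : ∀ X, X 0 = 0 → G X = 0 ∧ pd 0 G X = 0) :
    ∫ X, {X : Fin 4 → ℝ | 0 < X 0}.indicator (pd 0 G) X = 0 := by
  refine integral_eq_zero_of_line (g := {X : Fin 4 → ℝ | 0 < X 0}.indicator G)
    (v := Pi.single 0 1) (fun X => ?_) (integrable_half hδ hG.continuous h0)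
    (integrable_half hδ (pd_continuous hG _) fun X hX => pd_zero_of_qf hδ h0 _ hX)
  have hline : ∀ t : ℝ, (X + t • (Pi.single 0 1 : Fin 4 → ℝ)) 0 = X 0 + t := by
    intro t
    simp
  have h1 : HasDerivAt (fun t : ℝ => G (X + t • (Pi.single 0 1 : Fin 4 → ℝ))) (pd 0 G X) 0 :=
    ((hG.differentiable one_ne_zero) X).hasFDerivAt.hasLineDerivAt _
  rcases lt_trichotomy (X 0) 0 with hX | hX | hX
  · rw [Set.indicator_of_notMem (show X ∉ {X : Fin 4 → ℝ | 0 < X 0} from not_lt.2 hX.le)]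
    refine HasDerivAt.congr_of_eventuallyEq (hasDerivAt_const (0 : ℝ) (0 : ℝ)) ?_
    have : ∀ᶠ t : ℝ in 𝓝 0, t < - X 0 := eventually_lt_nhds (by linarith)
    filter_upwards [this] with t ht
    exact Set.indicator_of_notMem (show X + t • _ ∉ {X : Fin 4 → ℝ | 0 < X 0} by
      rw [Set.mem_ofPred_eq, hline t]; linarith) G
  · rw [Set.indicator_of_notMem (show X ∉ {X : Fin 4 → ℝ | 0 < X 0} from not_lt.2 hX.le)]
    obtain ⟨hz1, hz2⟩ := hz X hX
    rw [hz2] at h1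
    change HasDerivAt _ _ _
    rw [hasDerivAt_iff_isLittleO] at h1 ⊢
    refine Asymptotics.IsBigO.trans_isLittleO ?_ h1
    refine Asymptotics.IsBigO.of_bound 1 (Eventually.of_forall fun t => ?_)
    simp only [zero_smul, add_zero, sub_zero, smul_zero, one_mul, hz1]
    have e1 : ({X : Fin 4 → ℝ | 0 < X 0}.indicator G) X = 0 :=
      Set.indicator_of_notMem (show X ∉ {X : Fin 4 → ℝ | 0 < X 0} from not_lt.2 hX.le) G
    rw [e1, sub_zero]
    by_cases ht : 0 < t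
    · rw [Set.indicator_of_mem (show X + t • _ ∈ {X : Fin 4 → ℝ | 0 < X 0} by
        rw [Set.mem_ofPred_eq, hline t]; linarith)]
    · rw [Set.indicator_of_notMem (show X + t • _ ∉ {X : Fin 4 → ℝ | 0 < X 0} by
        rw [Set.mem_ofPred_eq, hline t]; linarith)]
      simp
  · rw [Set.indicator_of_mem (show X ∈ {X : Fin 4 → ℝ | 0 < X 0} from hX)]
    refine HasDerivAt.congr_of_eventuallyEq h1 ?_
    have : ∀ᶠ t : ℝ in 𝓝 0, - X 0 < t := eventually_gt_nhds (by linarith)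
    filter_upwards [this] with t ht
    exact Set.indicator_of_mem (show X + t • _ ∈ {X : Fin 4 → ℝ | 0 < X 0} by
      rw [Set.mem_ofPred_eq, hline t]; linarith) G

end half
/-! ### The energy estimate -/

/-- the half space `t < 1` -/
def Om : Set (Fin 4 → ℝ) := {X | X 0 < 1}

lemma isOpen_Om : IsOpen Om := isOpen_lt (continuous_apply 0) continuous_const

/-- energy density -/
noncomputable def en (w : Fin 3 → (Fin 4 → ℝ) → ℝ) (X : Fin 4 → ℝ) : ℝ :=
  ∑ k : Fin 3, ((pd 0 (w k) X) ^ 2 + (∑ i : Fin 3, (pd i.succ (w k) X) ^ 2) + (w k X) ^ 2)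

/-- flux density -/
noncomputable def fl (w : Fin 3 → (Fin 4 → ℝ) → ℝ) (i : Fin 3) (X : Fin 4 → ℝ) : ℝ :=
  ∑ k : Fin 3, 2 * (pd 0 (w k) X * pd i.succ (w k) X)

/-- wave operator -/
noncomputable def bx (w : (Fin 4 → ℝ) → ℝ) (X : Fin 4 → ℝ) : ℝ :=
  pd 0 (pd 0 w) X - ∑ i : Fin 3, pd i.succ (pd i.succ w) X

section energy

variable {w : Fin 3 → (Fin 4 → ℝ) → ℝ} (hw : ∀ k, ContDiffOn ℝ 2 (w k) Om)
include hw

lemma pd_contDiffOn (k : Fin 3) (μ : Fin 4) : ContDiffOn ℝ 1 (pd μ (w k)) Om :=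
  contDiffOn_pd isOpen_Om (hw k) (by norm_num) μ

lemma en_contDiffOn : ContDiffOn ℝ 1 (en w) Om := by
  unfold en
  refine ContDiffOn.sum fun k _ => ?_
  refine ContDiffOn.add (ContDiffOn.add ((pd_contDiffOn hw k 0).pow 2) ?_)
    (((hw k).of_le (by norm_num)).pow 2)
  exact ContDiffOn.sum fun i _ => (pd_contDiffOn hw k i.succ).pow 2

lemma fl_contDiffOn (i : Fin 3) : ContDiffOn ℝ 1 (fl w i) Om := by
  unfold fl
  refine ContDiffOn.sum fun k _ => ?_
  exact contDiffOn_const.mul ((pd_contDiffOn hw k 0).mul (pd_contDiffOn hw k i.succ))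

omit hw in
lemma diffAt_of_Om {f : (Fin 4 → ℝ) → ℝ} (hf : ContDiffOn ℝ 1 f Om) {X : Fin 4 → ℝ}
    (hX : X ∈ Om) : DifferentiableAt ℝ f X :=
  ((hf X hX).contDiffAt (isOpen_Om.mem_nhds hX)).differentiableAt one_ne_zero

lemma pd_en {X : Fin 4 → ℝ} (hX : X ∈ Om) (μ : Fin 4) :
    pd μ (en w) X = ∑ k : Fin 3, (2 * pd 0 (w k) X * pd μ (pd 0 (w k)) X
      + (∑ i : Fin 3, 2 * pd i.succ (w k) X * pd μ (pd i.succ (w k)) X)
      + 2 * w k X * pd μ (w k) X) := by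
  have d1 : ∀ k ν, DifferentiableAt ℝ (pd ν (w k)) X := fun k ν =>
    diffAt_of_Om (pd_contDiffOn hw k ν) hX
  have d2 : ∀ k, DifferentiableAt ℝ (w k) X := fun k =>
    diffAt_of_Om ((hw k).of_le (by norm_num)) hX
  unfold en
  have d3 : ∀ k, DifferentiableAt ℝ (fun Y => ∑ i : Fin 3, (pd i.succ (w k) Y) ^ 2) X := fun k =>
    DifferentiableAt.fun_sum fun i _ => (d1 k i.succ).pow 2
  rw [pd_sum (f := fun k Y => (pd 0 (w k) Y) ^ 2 + (∑ i : Fin 3, (pd i.succ (w k) Y) ^ 2)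
    + (w k Y) ^ 2) (fun k _ => ((((d1 k 0).pow 2).add (d3 k)).add ((d2 k).pow 2)))]
  refine Finset.sum_congr rfl fun k _ => ?_
  rw [pd_add (f := fun Y => (pd 0 (w k) Y) ^ 2 + (∑ i : Fin 3, (pd i.succ (w k) Y) ^ 2))
      (g := fun Y => (w k Y) ^ 2) (((d1 k 0).pow 2).add (d3 k)) ((d2 k).pow 2),
    pd_add (f := fun Y => (pd 0 (w k) Y) ^ 2) (g := fun Y => ∑ i : Fin 3, (pd i.succ (w k) Y) ^ 2)
      ((d1 k 0).pow 2) (d3 k),
    pd_sum (f := fun (i : Fin 3) Y => (pd i.succ (w k) Y) ^ 2) (fun i _ => (d1 k i.succ).pow 2),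
    pd_sq (d1 k 0), pd_sq (d2 k)]
  congr 2
  exact Finset.sum_congr rfl fun i _ => pd_sq (d1 k i.succ)

lemma pd_fl {X : Fin 4 → ℝ} (hX : X ∈ Om) (i : Fin 3) (μ : Fin 4) :
    pd μ (fl w i) X = ∑ k : Fin 3, 2 * (pd 0 (w k) X * pd μ (pd i.succ (w k)) X
      + pd i.succ (w k) X * pd μ (pd 0 (w k)) X) := by
  have d1 : ∀ k ν, DifferentiableAt ℝ (pd ν (w k)) X := fun k ν =>
    diffAt_of_Om (pd_contDiffOn hw k ν) hX
  unfold fl
  rw [pd_sum (f := fun k Y => 2 * (pd 0 (w k) Y * pd i.succ (w k) Y))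
    (fun k _ => ((d1 k 0).mul (d1 k i.succ)).const_mul 2)]
  refine Finset.sum_congr rfl fun k _ => ?_
  rw [pd_mul (f := fun _ => (2 : ℝ)) (g := fun Y => pd 0 (w k) Y * pd i.succ (w k) Y)
      (differentiableAt_const 2) ((d1 k 0).mul (d1 k i.succ)),
    pd_mul (d1 k 0) (d1 k i.succ)]
  simp [pd]

lemma div_identity {X : Fin 4 → ℝ} (hX : X ∈ Om) :
    pd 0 (en w) X - ∑ i : Fin 3, pd i.succ (fl w i) X
      = ∑ k : Fin 3, (2 * pd 0 (w k) X * bx (w k) X + 2 * w k X * pd 0 (w k) X) := by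
  have hc : ∀ k, ContDiffAt ℝ 2 (w k) X := fun k =>
    ((hw k) X hX).contDiffAt (isOpen_Om.mem_nhds hX)
  have hs : ∀ k (i : Fin 3), pd 0 (pd i.succ (w k)) X = pd i.succ (pd 0 (w k)) X := fun k i =>
    pd_comm (hc k) 0 i.succ
  rw [pd_en hw hX]
  simp only [pd_fl hw hX, bx, hs]
  rw [Finset.sum_comm, ← Finset.sum_sub_distrib]
  refine Finset.sum_congr rfl fun k _ => ?_
  simp only [Fin.sum_univ_three]
  ring

end energy
section energy2

variable {w : Fin 3 → (Fin 4 → ℝ) → ℝ} {δ : ℝ}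

lemma qf_neg_eventually (hδ : 0 < δ) {X : Fin 4 → ℝ} (hX : qf δ X < 0) :
    ∀ᶠ Y in 𝓝 X, qf δ Y < 0 :=
  (isOpen_lt (contDiff_qf hδ (n := 1)).continuous continuous_const).mem_nhds hX

lemma contDiff_wt_mul (hδ : 0 < δ) {g : (Fin 4 → ℝ) → ℝ} (hg : ContDiffOn ℝ 1 g Om) (Λ : ℝ) :
    ContDiff ℝ 1 (fun X => wt δ Λ X * g X) := by
  rw [contDiff_iff_contDiffAt]
  intro X
  by_cases hX : X ∈ Om
  · exact ((contDiff_wt hδ Λ (n := 1)).contDiffAt (x := X)).mul
      ((hg X hX).contDiffAt (isOpen_Om.mem_nhds hX))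
  · have hq : qf δ X < 0 := by
      by_contra h
      exact hX (lt_one_of_qf hδ (not_lt.1 h))
    have h1 : (fun X => wt δ Λ X * g X) =ᶠ[𝓝 X] fun _ => 0 := by
      filter_upwards [qf_neg_eventually hδ hq] with Y hY
      rw [wt_zero Λ hY.le, zero_mul]
    exact contDiffAt_const.congr_of_eventuallyEq h1

lemma en_nonneg (w : Fin 3 → (Fin 4 → ℝ) → ℝ) (X : Fin 4 → ℝ) : 0 ≤ en w X := by
  unfold en
  positivity

lemma flux_bound (hδ : 0 < δ) (w : Fin 3 → (Fin 4 → ℝ) → ℝ) (X : Fin 4 → ℝ) :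
    0 ≤ en w X - ∑ i : Fin 3, fl w i X * (X i.succ / srad δ X) := by
  have hs := srad_pos hδ X
  have hs2 := srad_sq hδ X
  have hy : (X (Fin.succ 0) / srad δ X) ^ 2 + (X (Fin.succ 1) / srad δ X) ^ 2
      + (X (Fin.succ 2) / srad δ X) ^ 2 ≤ 1 := by
    rw [div_pow, div_pow, div_pow, ← add_div, ← add_div, div_le_one (by positivity), hs2]
    unfold sq
    rw [Fin.sum_univ_three]
    linarith
  have key : ∀ a b0 b1 b2 c y0 y1 y2 : ℝ, y0 ^ 2 + y1 ^ 2 + y2 ^ 2 ≤ 1 →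
      0 ≤ a ^ 2 + (b0 ^ 2 + b1 ^ 2 + b2 ^ 2) + c ^ 2
        - (2 * (a * b0) * y0 + 2 * (a * b1) * y1 + 2 * (a * b2) * y2) := by
    intro a b0 b1 b2 c y0 y1 y2 h
    nlinarith [sq_nonneg (b0 - a * y0), sq_nonneg (b1 - a * y1), sq_nonneg (b2 - a * y2),
      mul_nonneg (sq_nonneg a) (sub_nonneg.2 h), sq_nonneg c]
  unfold en fl
  simp only [Fin.sum_univ_three]
  have k0 := key (pd 0 (w 0) X) (pd (Fin.succ 0) (w 0) X) (pd (Fin.succ 1) (w 0) X)
    (pd (Fin.succ 2) (w 0) X) (w 0 X) _ _ _ hy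
  have k1 := key (pd 0 (w 1) X) (pd (Fin.succ 0) (w 1) X) (pd (Fin.succ 1) (w 1) X)
    (pd (Fin.succ 2) (w 1) X) (w 1 X) _ _ _ hy
  have k2 := key (pd 0 (w 2) X) (pd (Fin.succ 0) (w 2) X) (pd (Fin.succ 1) (w 2) X)
    (pd (Fin.succ 2) (w 2) X) (w 2 X) _ _ _ hy
  nlinarith [k0, k1, k2]

lemma reaction_bound {M : ℝ} (X : Fin 4 → ℝ)
    (hM : ∀ k, (bx (w k) X) ^ 2 ≤ M * en w X) :
    ∑ k : Fin 3, (2 * pd 0 (w k) X * bx (w k) X + 2 * w k X * pd 0 (w k) X)
      ≤ (3 * M + 2) * en w X := by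
  have h1 : ∀ k : Fin 3, 2 * pd 0 (w k) X * bx (w k) X + 2 * w k X * pd 0 (w k) X
      ≤ 2 * ((pd 0 (w k) X) ^ 2 + (∑ i : Fin 3, (pd i.succ (w k) X) ^ 2) + (w k X) ^ 2)
        + M * en w X := by
    intro k
    have h2 : 0 ≤ ∑ i : Fin 3, (pd i.succ (w k) X) ^ 2 := by positivity
    nlinarith [sq_nonneg (pd 0 (w k) X - bx (w k) X), sq_nonneg (w k X - pd 0 (w k) X), hM k,
      sq_nonneg (w k X)]
  calc ∑ k : Fin 3, (2 * pd 0 (w k) X * bx (w k) X + 2 * w k X * pd 0 (w k) X)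
      ≤ ∑ k : Fin 3, (2 * ((pd 0 (w k) X) ^ 2 + (∑ i : Fin 3, (pd i.succ (w k) X) ^ 2)
          + (w k X) ^ 2) + M * en w X) := Finset.sum_le_sum fun k _ => h1 k
    _ = (3 * M + 2) * en w X := by
      rw [Finset.sum_add_distrib, ← Finset.mul_sum]
      simp only [Finset.sum_const, Finset.card_univ, Fintype.card_fin, nsmul_eq_mul]
      change 2 * en w X + _ = _
      push_cast
      ring

lemma divergence_bound (hw : ∀ k, ContDiffOn ℝ 2 (w k) Om) (hδ : 0 < δ) {M : ℝ}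
    {X : Fin 4 → ℝ} (hX : X ∈ Om) (hM : ∀ k, (bx (w k) X) ^ 2 ≤ M * en w X) :
    pd 0 (fun Y => wt δ (3 * M + 3) Y * en w Y) X
      - ∑ i : Fin 3, pd i.succ (fun Y => wt δ (3 * M + 3) Y * fl w i Y) X
      ≤ - (wt δ (3 * M + 3) X * en w X) := by
  set Λ := 3 * M + 3 with hΛ
  have hwt : DifferentiableAt ℝ (wt δ Λ) X :=
    ((contDiff_wt hδ Λ (n := 1)).differentiable one_ne_zero) X
  have hen : DifferentiableAt ℝ (en w) X := diffAt_of_Om (en_contDiffOn hw) hX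
  have hfl : ∀ i, DifferentiableAt ℝ (fl w i) X := fun i => diffAt_of_Om (fl_contDiffOn hw i) hX
  have e1 : pd 0 (fun Y => wt δ Λ Y * en w Y) X
      = wt δ Λ X * pd 0 (en w) X + en w X * pd 0 (wt δ Λ) X := pd_mul hwt hen
  have e2 : ∀ i : Fin 3, pd i.succ (fun Y => wt δ Λ Y * fl w i Y) X
      = wt δ Λ X * pd i.succ (fl w i) X + fl w i X * pd i.succ (wt δ Λ) X := fun i =>
    pd_mul hwt (hfl i)
  simp only [e1, e2]
  rw [Finset.sum_add_distrib, ← Finset.mul_sum]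
  have hdiv := div_identity hw hX
  have hreac := reaction_bound (w := w) X hM
  rw [← hdiv] at hreac
  have hflux := flux_bound hδ w X
  set P := Real.exp (-Λ * X 0) * deriv expNegInvGlue (qf δ X) with hP
  have hP0 : 0 ≤ P := mul_nonneg (Real.exp_pos _).le expNegInvGlue.monotone.deriv_nonneg
  have e3 : pd 0 (wt δ Λ) X = - Λ * wt δ Λ X - P := by
    rw [pd_wt hδ, pd_qf hδ, pd_srad_zero hδ]
    simp only [if_true]
    ring
  have e4 : ∀ i : Fin 3, pd i.succ (wt δ Λ) X = - P * (X i.succ / srad δ X) := by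
    intro i
    rw [pd_wt hδ, pd_qf hδ, pd_srad_succ hδ]
    simp only [Fin.succ_ne_zero, if_false]
    ring
  have e5 : ∑ i : Fin 3, fl w i X * pd i.succ (wt δ Λ) X
      = - P * ∑ i : Fin 3, fl w i X * (X i.succ / srad δ X) := by
    rw [Finset.mul_sum]
    refine Finset.sum_congr rfl fun i _ => ?_
    rw [e4 i]
    ring
  rw [e3, e5]
  have hW := wt_nonneg (δ := δ) Λ X
  have h1 := mul_le_mul_of_nonneg_left hreac hW
  have h2 := mul_nonneg hP0 hflux
  nlinarith [h1, h2]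

end energy2
/-- **Energy uniqueness.** -/
theorem energy_zero {w : Fin 3 → (Fin 4 → ℝ) → ℝ} (hw : ∀ k, ContDiffOn ℝ 2 (w k) Om)
    (hM : ∀ δ : ℝ, 0 < δ → ∃ M : ℝ, ∀ X ∈ Kreg δ, ∀ k, (bx (w k) X) ^ 2 ≤ M * en w X)
    (h0 : ∀ X : Fin 4 → ℝ, X 0 = 0 → sq X < 1 → ∀ k, w k X = 0 ∧ pd 0 (w k) X = 0)
    {δ : ℝ} (hδ : 0 < δ) {X : Fin 4 → ℝ} (hX0 : 0 < X 0) (hXq : 0 < qf δ X) (k : Fin 3) :
    w k X = 0 := by
  obtain ⟨M, hM⟩ := hM δ hδ
  set Λ := 3 * M + 3 with hΛ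
  set H : Set (Fin 4 → ℝ) := {X | 0 < X 0} with hH
  have hHm : MeasurableSet H := (isOpen_lt continuous_const (continuous_apply 0)).measurableSet
  -- the two kinds of fields
  set G0 : (Fin 4 → ℝ) → ℝ := fun Y => wt δ Λ Y * en w Y with hG0
  set Gs : Fin 3 → (Fin 4 → ℝ) → ℝ := fun i Y => wt δ Λ Y * fl w i Y with hGs
  have cG0 : ContDiff ℝ 1 G0 := contDiff_wt_mul hδ (en_contDiffOn hw) Λ
  have cGs : ∀ i, ContDiff ℝ 1 (Gs i) := fun i => contDiff_wt_mul hδ (fl_contDiffOn hw i) Λ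
  have zG0 : ∀ Y, qf δ Y < 0 → G0 Y = 0 := fun Y hY => by
    simp only [hG0, wt_zero Λ hY.le, zero_mul]
  have zGs : ∀ i Y, qf δ Y < 0 → Gs i Y = 0 := fun i Y hY => by
    simp only [hGs, wt_zero Λ hY.le, zero_mul]
  -- vanishing at time zero
  have hinit : ∀ Y : Fin 4 → ℝ, Y 0 = 0 → sq Y < 1 → ∀ k,
      w k Y = 0 ∧ pd 0 (w k) Y = 0 ∧ ∀ i : Fin 3, pd i.succ (w k) Y = 0 := by
    intro Y hY0 hYs k
    refine ⟨(h0 Y hY0 hYs k).1, (h0 Y hY0 hYs k).2, fun i => ?_⟩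
    have hYO : Y ∈ Om := by
      change Y 0 < 1
      rw [hY0]; exact zero_lt_one
    have hd : DifferentiableAt ℝ (w k) Y :=
      diffAt_of_Om ((hw k).of_le (by norm_num)) hYO
    have h1 : HasLineDerivAt ℝ (w k) (pd i.succ (w k) Y) Y (Pi.single i.succ 1) :=
      hd.hasFDerivAt.hasLineDerivAt _
    have h2 : HasDerivAt (fun t : ℝ => w k (Y + t • (Pi.single i.succ 1 : Fin 4 → ℝ))) 0 0 := by
      refine HasDerivAt.congr_of_eventuallyEq (hasDerivAt_const (0 : ℝ) (0 : ℝ)) ?_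
      have hcont : Continuous fun t : ℝ => sq (Y + t • (Pi.single i.succ 1 : Fin 4 → ℝ)) :=
        (contDiff_sq (n := 0)).continuous.comp (by fun_prop)
      have h3 : ∀ᶠ t : ℝ in 𝓝 0, sq (Y + t • (Pi.single i.succ 1 : Fin 4 → ℝ)) < 1 := by
        refine hcont.continuousAt.eventually_lt continuousAt_const ?_
        simpa using hYs
      filter_upwards [h3] with t ht
      exact (h0 _ (by simp [hY0]) ht k).1
    exact HasDerivAt.unique h1 h2
  have hG0z : ∀ Y : Fin 4 → ℝ, Y 0 = 0 → G0 Y = 0 ∧ pd 0 G0 Y = 0 := by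
    intro Y hY0
    by_cases hYs : sq Y < 1
    · have hYO : Y ∈ Om := by
        change Y 0 < 1
        rw [hY0]; exact zero_lt_one
      have hz := hinit Y hY0 hYs
      have e1 : en w Y = 0 := by
        unfold en
        refine Finset.sum_eq_zero fun k _ => ?_
        rw [(hz k).1, (hz k).2.1]
        simp [(hz k).2.2]
      have e2 : pd 0 (en w) Y = 0 := by
        rw [pd_en hw hYO]
        refine Finset.sum_eq_zero fun k _ => ?_
        rw [(hz k).1, (hz k).2.1]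
        simp [(hz k).2.2]
      have hwt : DifferentiableAt ℝ (wt δ Λ) Y :=
        ((contDiff_wt hδ Λ (n := 1)).differentiable one_ne_zero) Y
      have hen : DifferentiableAt ℝ (en w) Y := diffAt_of_Om (en_contDiffOn hw) hYO
      refine ⟨by simp only [hG0, e1, mul_zero], ?_⟩
      have e3 : pd 0 G0 Y = wt δ Λ Y * pd 0 (en w) Y + en w Y * pd 0 (wt δ Λ) Y :=
        pd_mul hwt hen
      rw [e3, e1, e2]
      simp
    · have hq : qf δ Y < 0 := by
        have hs := srad_pos hδ Y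
        have hs2 := srad_sq hδ Y
        unfold qf
        rw [hY0]
        nlinarith
      exact ⟨zG0 Y hq, pd_zero_of_qf hδ zG0 0 hq⟩
  -- the integrals of the derivatives vanish
  have I0 : ∫ Y, H.indicator (pd 0 G0) Y = 0 := integral_pd_time hδ cG0 zG0 hG0z
  have Is : ∀ i : Fin 3, ∫ Y, H.indicator (pd i.succ (Gs i)) Y = 0 := fun i =>
    integral_pd_space hδ (cGs i) (zGs i) i
  have int0 : Integrable (H.indicator (pd 0 G0)) :=
    integrable_half hδ (pd_continuous cG0 0) fun Y hY => pd_zero_of_qf hδ zG0 0 hY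
  have ints : ∀ i : Fin 3, Integrable (H.indicator (pd i.succ (Gs i))) := fun i =>
    integrable_half hδ (pd_continuous (cGs i) _) fun Y hY => pd_zero_of_qf hδ (zGs i) _ hY
  have intG : Integrable (H.indicator G0) := integrable_half hδ cG0.continuous zG0
  have hle : ∀ Y, H.indicator (pd 0 G0) Y - ∑ i : Fin 3, H.indicator (pd i.succ (Gs i)) Y
      ≤ - H.indicator G0 Y := by
    intro Y
    by_cases hY : Y ∈ H
    · simp only [Set.indicator_of_mem hY]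
      by_cases hq : qf δ Y < 0
      · rw [pd_zero_of_qf hδ zG0 0 hq, zG0 Y hq]
        simp only [fun i => pd_zero_of_qf hδ (zGs i) i.succ hq]
        simp
      · have hYO : Y ∈ Om := lt_one_of_qf hδ (not_lt.1 hq)
        have hYH : 0 < Y 0 := hY
        exact divergence_bound hw hδ hYO (hM Y ⟨hYH.le, not_lt.1 hq⟩)
    · simp only [Set.indicator_of_notMem hY]
      simp
  have hint : ∫ Y, H.indicator G0 Y ≤ 0 := by
    have h1 : ∫ Y, (H.indicator (pd 0 G0) Y - ∑ i : Fin 3, H.indicator (pd i.succ (Gs i)) Y)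
        ≤ ∫ Y, - H.indicator G0 Y :=
      integral_mono (int0.sub (integrable_finsetSum _ fun i _ => ints i)) intG.neg hle
    rw [integral_sub int0 (integrable_finsetSum _ fun i _ => ints i),
      integral_finsetSum _ (fun i _ => ints i), I0, integral_neg] at h1
    simp only [Is, Finset.sum_const_zero, sub_zero] at h1
    linarith
  have hG0nn : ∀ Y, 0 ≤ H.indicator G0 Y := fun Y =>
    Set.indicator_nonneg (fun Y _ => mul_nonneg (wt_nonneg Λ Y) (en_nonneg w Y)) Y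
  have hae : H.indicator G0 =ᵐ[volume] 0 := by
    rw [← integral_eq_zero_iff_of_nonneg hG0nn intG]
    exact le_antisymm hint (integral_nonneg hG0nn)
  -- conclude by continuity
  have hpos : ¬ (0 < G0 X) := by
    intro hpos
    have hopen : IsOpen {Y : Fin 4 → ℝ | 0 < Y 0 ∧ 0 < G0 Y} :=
      (isOpen_lt continuous_const (continuous_apply 0)).inter
        (isOpen_lt continuous_const cG0.continuous)
    have hnull : volume {Y : Fin 4 → ℝ | 0 < Y 0 ∧ 0 < G0 Y} = 0 := by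
      refine measure_mono_null ?_ (ae_iff.1 hae)
      rintro Y ⟨h1, h2⟩ h3
      rw [Set.indicator_of_mem (show Y ∈ H from h1)] at h3
      exact h2.ne' h3
    have hempty := hopen.eq_empty_of_measure_zero hnull
    exact (Set.eq_empty_iff_forall_notMem.1 hempty) X ⟨hX0, hpos⟩
  have hen0 : en w X = 0 := by
    have h1 := wt_pos (δ := δ) Λ hXq
    have h2 := en_nonneg w X
    by_contra hne
    exact hpos (mul_pos h1 (lt_of_le_of_ne h2 (Ne.symm hne)))
  unfold en at hen0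
  rw [Finset.sum_eq_zero_iff_of_nonneg (fun k _ => by positivity)] at hen0
  have h3 := hen0 k (Finset.mem_univ k)
  have h4 : 0 ≤ ∑ i : Fin 3, (pd i.succ (w k) X) ^ 2 := by positivity
  have h5 : (w k X) ^ 2 = 0 := by nlinarith [sq_nonneg (pd 0 (w k) X), sq_nonneg (w k X)]
  exact pow_eq_zero_iff (two_ne_zero) |>.1 h5

/-! ### The difference of two wave maps -/

/-- the coefficients of the quadratic terms -/
noncomputable def cf (i j k : Fin 3) : ℝ :=
  -((if i = k then (1 : ℝ) else 0) * (if j = 2 then (1 : ℝ) else 0)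
            + (if j = k then (1 : ℝ) else 0) * (if i = 2 then (1 : ℝ) else 0)
            - (if i = j then (1 : ℝ) else 0) * (if k = 2 then (1 : ℝ) else 0))

lemma abs_cf_le (i j k : Fin 3) : |cf i j k| ≤ 3 := by
  have h : ∀ p : Prop, ∀ [Decidable p], |(if p then (1 : ℝ) else 0)| ≤ 1 := by
    intro p _
    split_ifs <;> simp
  have hm : ∀ p q : Prop, ∀ [Decidable p] [Decidable q],
      |(if p then (1 : ℝ) else 0) * (if q then (1 : ℝ) else 0)| ≤ 1 := by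
    intro p q _ _
    rw [abs_mul]
    exact mul_le_one₀ (h p) (abs_nonneg _) (h q)
  unfold cf
  rw [abs_neg]
  refine (abs_sub _ _).trans ?_
  refine (add_le_add ((abs_add_le _ _).trans (add_le_add (hm _ _) (hm _ _))) (hm _ _)).trans ?_
  norm_num

lemma fderiv_comp_eq {u : (Fin 4 → ℝ) → (Fin 3 → ℝ)} {X : Fin 4 → ℝ}
    (hu : DifferentiableAt ℝ u X) (μ : Fin 4) (k : Fin 3) :
    fderiv ℝ u X (Pi.single μ 1) k = pd μ (fun Y => u Y k) X := by
  have h := (hasFDerivAt_pi'.1 hu.hasFDerivAt) k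
  simp only [pd]
  rw [h.fderiv]
  rfl

lemma bx_eq_of_waveOp {u : (Fin 4 → ℝ) → (Fin 3 → ℝ)} (hu : ContDiffOn ℝ 2 u Om)
    {X : Fin 4 → ℝ} (hX : X ∈ Om) (k : Fin 3) (h : waveOp u X k = 0) :
    bx (fun Y => u Y k) X = ∑ μ : Fin 4, (if μ = 0 then (-1 : ℝ) else 1) *
      ∑ i : Fin 3, ∑ j : Fin 3, cf i j k *
        (pd μ (fun Y => u Y i) X * pd μ (fun Y => u Y j) X * (u X 2)⁻¹) := by
  have hd : ∀ Y ∈ Om, DifferentiableAt ℝ u Y := fun Y hY =>
    ((hu Y hY).contDiffAt (isOpen_Om.mem_nhds hY)).differentiableAt two_ne_zero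
  have e1 : ∀ μ : Fin 4, fderiv ℝ (fun Y => fderiv ℝ u Y (Pi.single μ 1) k) X (Pi.single μ 1)
      = pd μ (pd μ (fun Y => u Y k)) X := by
    intro μ
    change pd μ (fun Y => fderiv ℝ u Y (Pi.single μ 1) k) X = _
    refine pd_congr ?_
    filter_upwards [isOpen_Om.mem_nhds hX] with Y hY
    exact fderiv_comp_eq (hd Y hY) μ k
  unfold waveOp at h
  have e2 : ∀ μ : Fin 4, (fderiv ℝ (fun Y => fderiv ℝ u Y (Pi.single μ 1) k) X (Pi.single μ 1) +
      ∑ i : Fin 3, ∑ j : Fin 3,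
        (-((if i = k then (1 : ℝ) else 0) * (if j = 2 then (1 : ℝ) else 0)
            + (if j = k then (1 : ℝ) else 0) * (if i = 2 then (1 : ℝ) else 0)
            - (if i = j then (1 : ℝ) else 0) * (if k = 2 then (1 : ℝ) else 0)) / u X 2)
          * fderiv ℝ u X (Pi.single μ 1) i * fderiv ℝ u X (Pi.single μ 1) j)
      = pd μ (pd μ (fun Y => u Y k)) X + ∑ i : Fin 3, ∑ j : Fin 3, cf i j k *
        (pd μ (fun Y => u Y i) X * pd μ (fun Y => u Y j) X * (u X 2)⁻¹) := by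
    intro μ
    rw [e1 μ]
    congr 1
    refine Finset.sum_congr rfl fun i _ => Finset.sum_congr rfl fun j _ => ?_
    rw [fderiv_comp_eq (hd X hX) μ i, fderiv_comp_eq (hd X hX) μ j]
    unfold cf
    rw [div_eq_mul_inv]
    ring
  rw [Finset.sum_congr rfl fun μ _ => by rw [e2 μ]] at h
  simp only [mul_add, Finset.sum_add_distrib] at h
  have e3 : ∑ μ : Fin 4, (if μ = 0 then (-1 : ℝ) else 1) * pd μ (pd μ (fun Y => u Y k)) X
      = - bx (fun Y => u Y k) X := by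
    rw [Fin.sum_univ_succ]
    simp [bx, Fin.succ_ne_zero]
    ring
  rw [e3] at h
  linarith

lemma pd_sub {μ : Fin 4} {f g : (Fin 4 → ℝ) → ℝ} {X : Fin 4 → ℝ} (hf : DifferentiableAt ℝ f X)
    (hg : DifferentiableAt ℝ g X) :
    pd μ (fun Y => f Y - g Y) X = pd μ f X - pd μ g X := by
  simp only [pd]
  rw [fderiv_fun_sub hf hg]
  simp

lemma bx_sub {f g : (Fin 4 → ℝ) → ℝ} (hf : ContDiffOn ℝ 2 f Om) (hg : ContDiffOn ℝ 2 g Om)
    {X : Fin 4 → ℝ} (hX : X ∈ Om) :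
    bx (fun Y => f Y - g Y) X = bx f X - bx g X := by
  have hd : ∀ {h : (Fin 4 → ℝ) → ℝ}, ContDiffOn ℝ 2 h Om → ∀ Y ∈ Om, DifferentiableAt ℝ h Y :=
    fun hh Y hY => diffAt_of_Om (hh.of_le (by norm_num)) hY
  have e : ∀ μ : Fin 4, pd μ (pd μ (fun Y => f Y - g Y)) X = pd μ (pd μ f) X - pd μ (pd μ g) X := by
    intro μ
    have h1 : pd μ (pd μ (fun Y => f Y - g Y)) X = pd μ (fun Y => pd μ f Y - pd μ g Y) X := by
      refine pd_congr ?_
      filter_upwards [isOpen_Om.mem_nhds hX] with Y hY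
      exact pd_sub (hd hf Y hY) (hd hg Y hY)
    rw [h1]
    exact pd_sub (diffAt_of_Om (contDiffOn_pd isOpen_Om hf (by norm_num) μ) hX)
      (diffAt_of_Om (contDiffOn_pd isOpen_Om hg (by norm_num) μ) hX)
  simp only [bx, e, Finset.sum_sub_distrib]
  ring

lemma term_bound {B D a b r a' b' r' : ℝ} (hB : 0 ≤ B) (hD : 0 ≤ D) (ha' : |a'| ≤ B)
    (hb : |b| ≤ B) (hb' : |b'| ≤ B) (hr : |r| ≤ B)
    (h1 : |a - a'| ≤ D) (h2 : |b - b'| ≤ D) (h3 : |r - r'| ≤ B * B * D) :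
    |a * b * r - a' * b' * r'| ≤ (2 * B ^ 2 + B ^ 4) * D := by
  have e : a * b * r - a' * b' * r' = (a - a') * b * r + a' * (b - b') * r + a' * b' * (r - r') := by
    ring
  rw [e]
  refine (abs_add_le _ _).trans ((add_le_add_left (abs_add_le _ _) _).trans ?_)
  have e1 : |(a - a') * b * r| ≤ D * B * B := by
    rw [abs_mul, abs_mul]
    gcongr
  have e2 : |a' * (b - b') * r| ≤ B * D * B := by
    rw [abs_mul, abs_mul]
    gcongr
  have e3 : |a' * b' * (r - r')| ≤ B * B * (B * B * D) := by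
    rw [abs_mul, abs_mul]
    gcongr
  nlinarith [e1, e2, e3]

lemma exists_bound {K : Set (Fin 4 → ℝ)} (hK : IsCompact K) {f : (Fin 4 → ℝ) → ℝ}
    (hf : ContinuousOn f K) : ∃ B : ℝ, 0 ≤ B ∧ ∀ X ∈ K, |f X| ≤ B := by
  obtain ⟨C, hC⟩ := hK.exists_bound_of_continuousOn hf
  exact ⟨max C 0, le_max_right _ _, fun X hX => (hC X hX).trans (le_max_left _ _)⟩

lemma exists_bound_all {ι : Type*} [Finite ι] {K : Set (Fin 4 → ℝ)} (hK : IsCompact K)
    {f : ι → (Fin 4 → ℝ) → ℝ} (hf : ∀ i, ContinuousOn (f i) K) :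
    ∃ B : ℝ, 0 ≤ B ∧ ∀ i, ∀ X ∈ K, |f i X| ≤ B := by
  have := Fintype.ofFinite ι
  choose C hC using fun i => exists_bound hK (hf i)
  refine ⟨∑ i, C i, Finset.sum_nonneg fun i _ => (hC i).1, fun i X hX => ?_⟩
  exact ((hC i).2 X hX).trans (Finset.single_le_sum (fun j _ => (hC j).1) (Finset.mem_univ i))

lemma bx_diff_bound {u v : (Fin 4 → ℝ) → (Fin 3 → ℝ)} (hu : ContDiffOn ℝ 2 u Om)
    (hv : ContDiffOn ℝ 2 v Om) (hu2 : ∀ X ∈ Om, 0 < u X 2) (hv2 : ∀ X ∈ Om, 0 < v X 2)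
    {K : Set (Fin 4 → ℝ)} (hK : IsCompact K) (hKO : K ⊆ Om)
    (hup : ∀ X ∈ K, ∀ k, waveOp u X k = 0) (hvp : ∀ X ∈ K, ∀ k, waveOp v X k = 0) :
    ∃ M : ℝ, ∀ X ∈ K, ∀ k,
      (bx (fun Y => u Y k - v Y k) X) ^ 2 ≤ M * en (fun k Y => u Y k - v Y k) X := by
  have huk : ∀ k, ContDiffOn ℝ 2 (fun Y => u Y k) Om := fun k => (contDiffOn_pi.1 hu) k
  have hvk : ∀ k, ContDiffOn ℝ 2 (fun Y => v Y k) Om := fun k => (contDiffOn_pi.1 hv) k
  have cont : ∀ {f : (Fin 4 → ℝ) → ℝ}, ContDiffOn ℝ 2 f Om → ∀ μ : Fin 4,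
      ContinuousOn (pd μ f) K := fun hf μ =>
    ((contDiffOn_pd isOpen_Om hf (m := 1) (by norm_num) μ).continuousOn).mono hKO
  obtain ⟨B1, hB1, hB1'⟩ := exists_bound_all hK (ι := Fin 4 × Fin 3)
    (f := fun p => pd p.1 (fun Y => u Y p.2)) (fun p => cont (huk p.2) p.1)
  obtain ⟨B2, hB2, hB2'⟩ := exists_bound_all hK (ι := Fin 4 × Fin 3)
    (f := fun p => pd p.1 (fun Y => v Y p.2)) (fun p => cont (hvk p.2) p.1)
  obtain ⟨B3, hB3, hB3'⟩ := exists_bound hK (f := fun X => (u X 2)⁻¹)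
    (((huk 2).continuousOn.mono hKO).inv₀ fun X hX => (hu2 X (hKO hX)).ne')
  obtain ⟨B4, hB4, hB4'⟩ := exists_bound hK (f := fun X => (v X 2)⁻¹)
    (((hvk 2).continuousOn.mono hKO).inv₀ fun X hX => (hv2 X (hKO hX)).ne')
  set B := B1 + B2 + B3 + B4 with hB
  have hB0 : 0 ≤ B := by positivity
  have b1 : ∀ μ i, ∀ X ∈ K, |pd μ (fun Y => u Y i) X| ≤ B := fun μ i X hX =>
    (hB1' (μ, i) X hX).trans (by linarith)
  have b2 : ∀ μ i, ∀ X ∈ K, |pd μ (fun Y => v Y i) X| ≤ B := fun μ i X hX =>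
    (hB2' (μ, i) X hX).trans (by linarith)
  have b3 : ∀ X ∈ K, |(u X 2)⁻¹| ≤ B := fun X hX => (hB3' X hX).trans (by linarith)
  have b4 : ∀ X ∈ K, |(v X 2)⁻¹| ≤ B := fun X hX => (hB4' X hX).trans (by linarith)
  refine ⟨(108 * (2 * B ^ 2 + B ^ 4)) ^ 2, fun X hX k => ?_⟩
  have hXO := hKO hX
  set w : Fin 3 → (Fin 4 → ℝ) → ℝ := fun k Y => u Y k - v Y k with hw
  set D := Real.sqrt (en w X) with hD
  have hen : 0 ≤ en w X := en_nonneg w X
  have hD0 : 0 ≤ D := Real.sqrt_nonneg _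
  have hD2 : D ^ 2 = en w X := Real.sq_sqrt hen
  have du : ∀ k, DifferentiableAt ℝ (fun Y => u Y k) X := fun k =>
    diffAt_of_Om ((huk k).of_le (by norm_num)) hXO
  have dv : ∀ k, DifferentiableAt ℝ (fun Y => v Y k) X := fun k =>
    diffAt_of_Om ((hvk k).of_le (by norm_num)) hXO
  have dw : ∀ μ k, |pd μ (fun Y => u Y k) X - pd μ (fun Y => v Y k) X| ≤ D := by
    intro μ k
    rw [← pd_sub (du k) (dv k)]
    change |pd μ (w k) X| ≤ D
    rw [hD, ← Real.sqrt_sq_eq_abs]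
    apply Real.sqrt_le_sqrt
    unfold en
    have h1 : (pd μ (w k) X) ^ 2 ≤
        (pd 0 (w k) X) ^ 2 + (∑ i : Fin 3, (pd i.succ (w k) X) ^ 2) + (w k X) ^ 2 := by
      rcases Fin.eq_zero_or_eq_succ μ with rfl | ⟨i, rfl⟩
      · have : 0 ≤ ∑ i : Fin 3, (pd i.succ (w k) X) ^ 2 := by positivity
        nlinarith [sq_nonneg (w k X)]
      · have : (pd i.succ (w k) X) ^ 2 ≤ ∑ i : Fin 3, (pd i.succ (w k) X) ^ 2 :=
          Finset.single_le_sum (f := fun i : Fin 3 => (pd i.succ (w k) X) ^ 2)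
            (fun j _ => sq_nonneg _) (Finset.mem_univ i)
        nlinarith [sq_nonneg (w k X), sq_nonneg (pd 0 (w k) X)]
    refine h1.trans ?_
    exact Finset.single_le_sum
      (f := fun k : Fin 3 => (pd 0 (w k) X) ^ 2 + (∑ i : Fin 3, (pd i.succ (w k) X) ^ 2)
        + (w k X) ^ 2) (fun j _ => by positivity) (Finset.mem_univ k)
  have dw0 : ∀ k, |u X k - v X k| ≤ D := by
    intro k
    change |w k X| ≤ D
    rw [hD, ← Real.sqrt_sq_eq_abs]
    apply Real.sqrt_le_sqrt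
    unfold en
    have h1 : (w k X) ^ 2 ≤
        (pd 0 (w k) X) ^ 2 + (∑ i : Fin 3, (pd i.succ (w k) X) ^ 2) + (w k X) ^ 2 := by
      have : 0 ≤ ∑ i : Fin 3, (pd i.succ (w k) X) ^ 2 := by positivity
      nlinarith [sq_nonneg (pd 0 (w k) X)]
    refine h1.trans ?_
    exact Finset.single_le_sum
      (f := fun k : Fin 3 => (pd 0 (w k) X) ^ 2 + (∑ i : Fin 3, (pd i.succ (w k) X) ^ 2)
        + (w k X) ^ 2) (fun j _ => by positivity) (Finset.mem_univ k)
  have dr : |(u X 2)⁻¹ - (v X 2)⁻¹| ≤ B * B * D := by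
    have h1 := (hu2 X hXO).ne'
    have h2 := (hv2 X hXO).ne'
    have h3 : (u X 2)⁻¹ - (v X 2)⁻¹ = (u X 2)⁻¹ * (v X 2)⁻¹ * (-(u X 2 - v X 2)) := by
      field_simp
      ring
    rw [h3, abs_mul, abs_mul, abs_neg]
    have := b3 X hX
    have := b4 X hX
    have := dw0 2
    gcongr
  have key : |bx (fun Y => u Y k - v Y k) X| ≤ 108 * (2 * B ^ 2 + B ^ 4) * D := by
    rw [bx_sub (huk k) (hvk k) hXO, bx_eq_of_waveOp hu hXO k (hup X hX k),
      bx_eq_of_waveOp hv hXO k (hvp X hX k), ← Finset.sum_sub_distrib]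
    have hterm : ∀ μ : Fin 4, |(if μ = 0 then (-1 : ℝ) else 1) *
      (∑ i : Fin 3, ∑ j : Fin 3, cf i j k *
        (pd μ (fun Y => u Y i) X * pd μ (fun Y => u Y j) X * (u X 2)⁻¹)) -
        (if μ = 0 then (-1 : ℝ) else 1) *
      (∑ i : Fin 3, ∑ j : Fin 3, cf i j k *
        (pd μ (fun Y => v Y i) X * pd μ (fun Y => v Y j) X * (v X 2)⁻¹))|
        ≤ 27 * (2 * B ^ 2 + B ^ 4) * D := by
      intro μ
      rw [← mul_sub, abs_mul, ← Finset.sum_sub_distrib]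
      have hs : |(if μ = 0 then (-1 : ℝ) else 1)| = 1 := by split_ifs <;> simp
      rw [hs, one_mul]
      refine (Finset.abs_sum_le_sum_abs _ _).trans ?_
      have hi : ∀ i : Fin 3, |(∑ j : Fin 3, cf i j k *
          (pd μ (fun Y => u Y i) X * pd μ (fun Y => u Y j) X * (u X 2)⁻¹)) -
          ∑ j : Fin 3, cf i j k *
          (pd μ (fun Y => v Y i) X * pd μ (fun Y => v Y j) X * (v X 2)⁻¹)|
          ≤ 9 * (2 * B ^ 2 + B ^ 4) * D := by
        intro i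
        rw [← Finset.sum_sub_distrib]
        refine (Finset.abs_sum_le_sum_abs _ _).trans ?_
        have hj : ∀ j : Fin 3, |cf i j k *
          (pd μ (fun Y => u Y i) X * pd μ (fun Y => u Y j) X * (u X 2)⁻¹) - cf i j k *
          (pd μ (fun Y => v Y i) X * pd μ (fun Y => v Y j) X * (v X 2)⁻¹)|
          ≤ 3 * (2 * B ^ 2 + B ^ 4) * D := by
          intro j
          rw [← mul_sub, abs_mul]
          have h1 := abs_cf_le i j k
          have h2 := term_bound hB0 hD0 (b2 μ i X hX) (b1 μ j X hX) (b2 μ j X hX) (b3 X hX)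
            (dw μ i) (dw μ j) dr
          rw [mul_assoc 3]
          exact mul_le_mul h1 h2 (abs_nonneg _) (by norm_num)
        refine (Finset.sum_le_sum fun j _ => hj j).trans (le_of_eq ?_)
        rw [Finset.sum_const]
        simp
        ring
      refine (Finset.sum_le_sum fun i _ => hi i).trans (le_of_eq ?_)
      rw [Finset.sum_const]
      simp
      ring
    refine (Finset.abs_sum_le_sum_abs _ _).trans ?_
    refine (Finset.sum_le_sum fun μ _ => hterm μ).trans (le_of_eq ?_)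
    rw [Finset.sum_const]
    simp
    ring
  rw [← hD2, ← mul_pow, ← sq_abs (bx _ X)]
  exact pow_le_pow_left₀ (abs_nonneg _) key 2

theorem cone_uniqueness (u v : (Fin 4 → ℝ) → (Fin 3 → ℝ))
    (hv : ContDiff ℝ (⊤ : ℕ∞) v) (hv2 : ∀ X, 0 < v X 2)
    (hvp : ∀ X k, waveOp v X k = 0)
    (hu : ContDiffOn ℝ (⊤ : ℕ∞) u {X | X 0 < 1}) (hu2 : ∀ X, X 0 < 1 → 0 < u X 2)
    (hup : ∀ X k, X 0 < 1 → sq X < (1 - X 0) ^ 2 → waveOp u X k = 0)
    (h0 : ∀ x : Fin 3 → ℝ, ∑ i, (x i) ^ 2 < 1 →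
      u (Matrix.vecCons 0 x) = v (Matrix.vecCons 0 x) ∧
      fderiv ℝ u (Matrix.vecCons 0 x) (Pi.single 0 1)
        = fderiv ℝ v (Matrix.vecCons 0 x) (Pi.single 0 1)) :
    ∀ t : ℝ, 0 ≤ t → t < 1 →
      u (Matrix.vecCons t (0 : Fin 3 → ℝ)) = v (Matrix.vecCons t (0 : Fin 3 → ℝ)) := by
  intro t ht0 ht1
  rcases ht0.eq_or_lt with rfl | htpos
  · exact (h0 0 (by simp)).1
  have le2 : (2 : WithTop ℕ∞) ≤ ((⊤ : ℕ∞) : WithTop ℕ∞) :=
    WithTop.coe_le_coe.2 (le_top : (2 : ℕ∞) ≤ ⊤)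
  have hu' : ContDiffOn ℝ 2 u Om := hu.of_le le2
  have hv' : ContDiffOn ℝ 2 v Om := (hv.of_le le2).contDiffOn
  set w : Fin 3 → (Fin 4 → ℝ) → ℝ := fun k Y => u Y k - v Y k with hw
  have hwc : ∀ k, ContDiffOn ℝ 2 (w k) Om := fun k =>
    ((contDiffOn_pi.1 hu') k).sub ((contDiffOn_pi.1 hv') k)
  have hM : ∀ δ : ℝ, 0 < δ → ∃ M : ℝ, ∀ X ∈ Kreg δ, ∀ k, (bx (w k) X) ^ 2 ≤ M * en w X := by
    intro δ hδ
    have hKO : Kreg δ ⊆ Om := fun X hX => lt_one_of_qf hδ hX.2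
    refine bx_diff_bound hu' hv' (fun X hX => hu2 X hX) (fun X _ => hv2 X) (isCompact_Kreg hδ)
      hKO (fun X hX k => ?_) (fun X _ k => hvp X k)
    refine hup X k (hKO hX) ?_
    have h1 := srad_pos hδ X
    have h2 := srad_sq hδ X
    have h3 : 0 ≤ qf δ X := hX.2
    unfold qf at h3
    nlinarith
  have hinit : ∀ X : Fin 4 → ℝ, X 0 = 0 → sq X < 1 → ∀ k, w k X = 0 ∧ pd 0 (w k) X = 0 := by
    intro X hX0 hXs k
    have hX : X = Matrix.vecCons 0 (fun i => X i.succ) := by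
      funext μ
      refine Fin.cases ?_ (fun i => ?_) μ
      · simpa using hX0
      · simp
    have hXO : X ∈ Om := by
      change X 0 < 1
      rw [hX0]; exact zero_lt_one
    obtain ⟨h1, h2⟩ := h0 (fun i => X i.succ) hXs
    rw [← hX] at h1 h2
    have hdu : DifferentiableAt ℝ u X :=
      ((hu' X hXO).contDiffAt (isOpen_Om.mem_nhds hXO)).differentiableAt two_ne_zero
    have hdv : DifferentiableAt ℝ v X :=
      ((hv' X hXO).contDiffAt (isOpen_Om.mem_nhds hXO)).differentiableAt two_ne_zero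
    refine ⟨by simp [hw, h1], ?_⟩
    have e : pd 0 (w k) X = pd 0 (fun Y => u Y k) X - pd 0 (fun Y => v Y k) X :=
      pd_sub (differentiableAt_pi.1 hdu k) (differentiableAt_pi.1 hdv k)
    rw [e, ← fderiv_comp_eq hdu, ← fderiv_comp_eq hdv, h2, sub_self]
  set X : Fin 4 → ℝ := Matrix.vecCons t (0 : Fin 3 → ℝ) with hX
  have hX0 : X 0 = t := rfl
  have hXs : sq X = 0 := by
    unfold sq
    simp [hX]
  set δ : ℝ := ((1 - t) / 2) ^ 2 with hδ'
  have hδ : 0 < δ := by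
    have : 0 < 1 - t := by linarith
    positivity
  have hq : 0 < qf δ X := by
    unfold qf srad
    rw [hX0, hXs, zero_add, hδ', Real.sqrt_sq (by linarith)]
    linarith
  funext k
  have := energy_zero hwc hM hinit hδ (by rw [hX0]; exact htpos) hq k
  exact sub_eq_zero.1 this

end Pool.Agent.H.MP_9f60e7_an
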