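import Pool.Agent.H.MP_9f60e7_an.NKExists
import Pool.Agent.H.MP_9f60e7_an.High
import Pool.Agent.H.MP_9f60e7_an.Profile
import Pool.Agent.H.MP_9f60e7_an.Unique
import Pool.Agent.H.MP_9f60e7_an.Assembly

/-!
Everything except the numeric facts: `main_of` proves the blow-up statement from the numeric facts
of the plan.
-/

set_option autoImplicit false

namespace Pool.Agent.H.MP_9f60e7_an

open PowerSeries NK
open scoped ENNReal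

theorem exists_profile_of
    (Acol : ∀ e < 79, ∑ i ∈ Finset.range 79, |Amat i e| ≤ 63)
    (NN_cx : NN (cx ubar) ≤ ENNReal.ofReal (89 / 10))
    (NN_cb : NN (cb ubar) ≤ ENNReal.ofReal (46 / 10))
    (NN_cm : NN (cm ubar) ≤ ENNReal.ofReal (33 / 10))
    (cl_ubar : cl ubar = 143117763 / 10 ^ 8)
    (NN_K12 : NN (C (2 : ℝ) * wp * cm ubar - C (2 : ℝ) * cx ubar) ≤ ENNReal.ofReal (146 / 10))
    (NN_K13 : NN (C (cl ubar + 1) - C (2 : ℝ) * wp * cb ubar) ≤ ENNReal.ofReal 7)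
    (NN_K23 : NN (w2 * cm ubar + C (2 : ℝ) * wp * cx ubar) ≤ ENNReal.ofReal (88 / 10))
    (NN_K32 : NN (C (2 : ℝ) * w2 * cm ubar + C (2 : ℝ) * wp * cx ubar) ≤ ENNReal.ofReal (33 / 10))
    (NN_K33 : NN (w2 * cb ubar) ≤ ENNReal.ofReal (92 / 10))
    (low_bound : ∀ j < 97, nrm (dl j - Aop (DG ubar (dl j))) ≤ ENNReal.ofReal (7 / 10))
    (resid_bound : nrm (Aop (G ubar)) ≤ ENNReal.ofReal (6 / 10 ^ 6)) :
    ∃ (lam : ℝ) (A B : ℝ → ℝ), 0 < lam ∧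
      ContDiff ℝ (⊤ : ℕ∞) A ∧ ContDiff ℝ (⊤ : ℕ∞) B ∧ (∀ x, 0 < B x) ∧
      ∀ x ∈ Set.Icc (0:ℝ) 1,
        B x * Lop lam A x = 2 * Qop lam A B x ∧
        B x * Lop lam B x = Qop lam B B x - Qop lam A A x := by
  obtain ⟨l, x, b, m, hl, hx, hb, hm, h1, h2, h3⟩ :=
    series_exists_of Acol NN_cx NN_cb NN_cm cl_ubar low_bound resid_bound
      (high_bound NN_cx NN_cb cl_ubar NN_K12 NN_K13 NN_K23 NN_K32 NN_K33)
  exact profile_of_series l hl x b m hx hb hm h1 h2 h3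

theorem main_of
    (Acol : ∀ e < 79, ∑ i ∈ Finset.range 79, |Amat i e| ≤ 63)
    (NN_cx : NN (cx ubar) ≤ ENNReal.ofReal (89 / 10))
    (NN_cb : NN (cb ubar) ≤ ENNReal.ofReal (46 / 10))
    (NN_cm : NN (cm ubar) ≤ ENNReal.ofReal (33 / 10))
    (cl_ubar : cl ubar = 143117763 / 10 ^ 8)
    (NN_K12 : NN (C (2 : ℝ) * wp * cm ubar - C (2 : ℝ) * cx ubar) ≤ ENNReal.ofReal (146 / 10))
    (NN_K13 : NN (C (cl ubar + 1) - C (2 : ℝ) * wp * cb ubar) ≤ ENNReal.ofReal 7)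
    (NN_K23 : NN (w2 * cm ubar + C (2 : ℝ) * wp * cx ubar) ≤ ENNReal.ofReal (88 / 10))
    (NN_K32 : NN (C (2 : ℝ) * w2 * cm ubar + C (2 : ℝ) * wp * cx ubar) ≤ ENNReal.ofReal (33 / 10))
    (NN_K33 : NN (w2 * cb ubar) ≤ ENNReal.ofReal (92 / 10))
    (low_bound : ∀ j < 97, nrm (dl j - Aop (DG ubar (dl j))) ≤ ENNReal.ofReal (7 / 10))
    (resid_bound : nrm (Aop (G ubar)) ≤ ENNReal.ofReal (6 / 10 ^ 6)) :
    ¬ (∀ (u0 u1 : (Fin 3 → ℝ) → (Fin 3 → ℝ)),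
      ContDiff ℝ (⊤ : ℕ∞) u0 → ContDiff ℝ (⊤ : ℕ∞) u1 → (∀ x, 0 < u0 x 2) →
      ∃ u : (Fin 4 → ℝ) → (Fin 3 → ℝ),
        ContDiff ℝ (⊤ : ℕ∞) u ∧
        (∀ X, 0 < u X 2) ∧
        (∀ x, u (Matrix.vecCons 0 x) = u0 x) ∧
        (∀ x, fderiv ℝ u (Matrix.vecCons 0 x) (Pi.single 0 1) = u1 x) ∧
        ∀ (X : Fin 4 → ℝ) (k : Fin 3), waveOp u X k = 0) :=
  blowup_of (exists_profile_of Acol NN_cx NN_cb NN_cm cl_ubar NN_K12 NN_K13 NN_K23 NN_K32 NN_K33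
    low_bound resid_bound) cone_uniqueness

end Pool.Agent.H.MP_9f60e7_an
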