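import Pool.Agent.H.MP_9f60e7_an.Facts
import Pool.Agent.H.MP_9f60e7_an.Final

/-!
The Cauchy datum without a global smooth solution can be taken constant outside a bounded set.
-/

set_option autoImplicit false

namespace Pool.Agent.H.MP_9f60e7_an

open Filter Topology Set
open scoped Manifold ContDiff

/-- Uniqueness in the cone, the equation of `v` being used only inside the cone. -/
theorem cone_uniqueness' (u v : (Fin 4 → ℝ) → (Fin 3 → ℝ))
    (hv : ContDiff ℝ (⊤ : ℕ∞) v) (hv2 : ∀ X, 0 < v X 2)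
    (hvp : ∀ X k, 0 ≤ X 0 → X 0 < 1 → sq X < (1 - X 0) ^ 2 → waveOp v X k = 0)
    (hu : ContDiffOn ℝ (⊤ : ℕ∞) u {X | X 0 < 1}) (hu2 : ∀ X, X 0 < 1 → 0 < u X 2)
    (hup : ∀ X k, X 0 < 1 → sq X < (1 - X 0) ^ 2 → waveOp u X k = 0)
    (h0 : ∀ x : Fin 3 → ℝ, ∑ i, (x i) ^ 2 < 1 →
      u (Matrix.vecCons 0 x) = v (Matrix.vecCons 0 x) ∧
      fderiv ℝ u (Matrix.vecCons 0 x) (Pi.single 0 1)
        = fderiv ℝ v (Matrix.vecCons 0 x) (Pi.single 0 1)) :
    ∀ t : ℝ, 0 ≤ t → t < 1 →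
      u (Matrix.vecCons t (0 : Fin 3 → ℝ)) = v (Matrix.vecCons t (0 : Fin 3 → ℝ)) := by
  intro t ht0 ht1
  rcases ht0.eq_or_lt with rfl | htpos
  · exact (h0 0 (by simp)).1
  have le2 : (2 : WithTop ℕ∞) ≤ ((⊤ : ℕ∞) : WithTop ℕ∞) :=
    WithTop.coe_le_coe.2 (le_top : (2 : ℕ∞) ≤ ⊤)
  have hu' : ContDiffOn ℝ 2 u Om := hu.of_le le2
  have hv' : ContDiffOn ℝ 2 v Om := (hv.of_le le2).contDiffOn
  set w : Fin 3 → (Fin 4 → ℝ) → ℝ := fun k Y => u Y k - v Y k with hw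
  have hwc : ∀ k, ContDiffOn ℝ 2 (w k) Om := fun k =>
    ((contDiffOn_pi.1 hu') k).sub ((contDiffOn_pi.1 hv') k)
  have hM : ∀ δ : ℝ, 0 < δ → ∃ M : ℝ, ∀ X ∈ Kreg δ, ∀ k, (bx (w k) X) ^ 2 ≤ M * en w X := by
    intro δ hδ
    have hKO : Kreg δ ⊆ Om := fun X hX => lt_one_of_qf hδ hX.2
    have hcone : ∀ X ∈ Kreg δ, sq X < (1 - X 0) ^ 2 := by
      intro X hX
      have h1 := srad_pos hδ X
      have h2 := srad_sq hδ X
      have h3 : 0 ≤ qf δ X := hX.2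
      unfold qf at h3
      nlinarith
    exact bx_diff_bound hu' hv' (fun X hX => hu2 X hX) (fun X _ => hv2 X) (isCompact_Kreg hδ)
      hKO (fun X hX k => hup X k (hKO hX) (hcone X hX))
      (fun X hX k => hvp X k hX.1 (hKO hX) (hcone X hX))
  have hinit : ∀ X : Fin 4 → ℝ, X 0 = 0 → sq X < 1 → ∀ k, w k X = 0 ∧ pd 0 (w k) X = 0 := by
    intro X hX0 hXs k
    have hX : X = Matrix.vecCons 0 (fun i => X i.succ) := by
      funext μ
      refine Fin.cases ?_ (fun i => ?_) μ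
      · simpa using hX0
      · simp
    have hXO : X ∈ Om := by
      change X 0 < 1
      rw [hX0]; exact zero_lt_one
    obtain ⟨h1, h2⟩ := h0 (fun i => X i.succ) hXs
    rw [← hX] at h1 h2
    have hdu : DifferentiableAt ℝ u X :=
      ((hu' X hXO).contDiffAt (isOpen_Om.mem_nhds hXO)).differentiableAt two_ne_zero
    have hdv : DifferentiableAt ℝ v X :=
      ((hv' X hXO).contDiffAt (isOpen_Om.mem_nhds hXO)).differentiableAt two_ne_zero
    refine ⟨by simp [hw, h1], ?_⟩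
    have e : pd 0 (w k) X = pd 0 (fun Y => u Y k) X - pd 0 (fun Y => v Y k) X :=
      pd_sub (differentiableAt_pi.1 hdu k) (differentiableAt_pi.1 hdv k)
    rw [e, ← fderiv_comp_eq hdu, ← fderiv_comp_eq hdv, h2, sub_self]
  set X : Fin 4 → ℝ := Matrix.vecCons t (0 : Fin 3 → ℝ) with hX
  have hX0 : X 0 = t := rfl
  have hXs : sq X = 0 := by
    unfold sq
    simp [hX]
  set δ : ℝ := ((1 - t) / 2) ^ 2 with hδ'
  have hδ : 0 < δ := by
    have : 0 < 1 - t := by linarith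
    positivity
  have hq : 0 < qf δ X := by
    unfold qf srad
    rw [hX0, hXs, zero_add, hδ', Real.sqrt_sq (by linarith)]
    linarith
  funext k
  have := energy_zero hwc hM hinit hδ (by rw [hX0]; exact htpos) hq k
  exact sub_eq_zero.1 this

theorem waveOp_congr {u v : (Fin 4 → ℝ) → (Fin 3 → ℝ)} {X : Fin 4 → ℝ} (h : u =ᶠ[𝓝 X] v)
    (k : Fin 3) : waveOp u X k = waveOp v X k := by
  have h1 : fderiv ℝ u X = fderiv ℝ v X := h.fderiv_eq
  have h2 : u X = v X := h.eq_of_nhds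
  have h3 : ∀ μ : Fin 4, fderiv ℝ (fun Y => fderiv ℝ u Y (Pi.single μ 1) k) X =
      fderiv ℝ (fun Y => fderiv ℝ v Y (Pi.single μ 1) k) X := by
    intro μ
    apply Filter.EventuallyEq.fderiv_eq
    filter_upwards [h.fderiv (𝕜 := ℝ)] with Y hY
    rw [hY]
  unfold waveOp
  refine Finset.sum_congr rfl fun μ _ => ?_
  rw [h3, h1, h2]

/-- a smooth cut-off function -/
theorem exists_cut {K W : Set (Fin 4 → ℝ)} (hK : IsCompact K) (hW : IsOpen W) (hKW : K ⊆ W) :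
    ∃ f : (Fin 4 → ℝ) → ℝ, ContDiff ℝ (⊤ : ℕ∞) f ∧ (∀ᶠ x in 𝓝ˢ K, f x = 1) ∧ tsupport f ⊆ W ∧
      ∀ x, f x ∈ Icc (0 : ℝ) 1 := by
  obtain ⟨K', hK', h1, h2⟩ := exists_compact_between hK hW hKW
  obtain ⟨f, hf1, hf0, hf⟩ := exists_contMDiffMap_one_nhds_of_subset_interior
    (n := (⊤ : ℕ∞)) 𝓘(ℝ, Fin 4 → ℝ) hK.isClosed h1
  refine ⟨f, f.contMDiff.contDiff, hf1, ?_, hf⟩
  refine (closure_minimal ?_ hK'.isClosed).trans h2
  intro x hx
  by_contra hx'
  exact hx (hf0 x hx')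

/-- the base point of the upper half space -/
def p0 : Fin 3 → ℝ := ![0, 0, 1]

theorem p0_two : p0 2 = 1 := rfl

theorem mix_pos {a c : ℝ} (ha : a ∈ Icc (0 : ℝ) 1) (hc : 0 < c) : 0 < a * c + (1 - a) * 1 := by
  obtain ⟨h0, h1⟩ := ha
  rcases h0.eq_or_lt with h | h
  · rw [← h]; norm_num
  · nlinarith [mul_pos h hc]

/-- A smooth map defined near the compact cone can be replaced by a global one. -/
theorem globalize {ε : ℝ} (hε : 0 < ε) (v : (Fin 4 → ℝ) → (Fin 3 → ℝ))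
    (hv : ContDiffOn ℝ (⊤ : ℕ∞) v {X | -ε < X 0 ∧ X 0 < 1 + ε})
    (hv2 : ∀ X, 0 ≤ X 0 → X 0 ≤ 1 → 0 < v X 2) :
    ∃ v' : (Fin 4 → ℝ) → (Fin 3 → ℝ), ContDiff ℝ (⊤ : ℕ∞) v' ∧ (∀ X, 0 < v' X 2) ∧
      ∀ X : Fin 4 → ℝ, 0 ≤ X 0 → X 0 ≤ 1 → ‖X‖ ≤ 1 → v' =ᶠ[𝓝 X] v := by
  set S : Set (Fin 4 → ℝ) := {X | -ε < X 0 ∧ X 0 < 1 + ε} with hS
  have hSo : IsOpen S := (isOpen_lt continuous_const (continuous_apply 0)).inter
    (isOpen_lt (continuous_apply 0) continuous_const)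
  have hvc : ContinuousOn (fun X => v X 2) S :=
    (continuous_apply 2).comp_continuousOn hv.continuousOn
  set W : Set (Fin 4 → ℝ) := S ∩ (fun X => v X 2) ⁻¹' Ioi 0 with hWdef
  have hW : IsOpen W := hvc.isOpen_inter_preimage hSo isOpen_Ioi
  set K : Set (Fin 4 → ℝ) := {X | 0 ≤ X 0 ∧ X 0 ≤ 1} ∩ Metric.closedBall 0 1 with hKdef
  have hK : IsCompact K := by
    refine (isCompact_closedBall (0 : Fin 4 → ℝ) 1).inter_left ?_
    exact (isClosed_le continuous_const (continuous_apply 0)).inter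
      (isClosed_le (continuous_apply 0) continuous_const)
  have hKW : K ⊆ W := by
    rintro X ⟨⟨h1, h2⟩, -⟩
    exact ⟨⟨by linarith, by linarith⟩, hv2 X h1 h2⟩
  obtain ⟨f, hf, hf1, hfW, hf01⟩ := exists_cut hK hW hKW
  refine ⟨fun X => f X • v X + (1 - f X) • p0, ?_, ?_, ?_⟩
  · rw [contDiff_iff_contDiffAt]
    intro X
    by_cases hX : X ∈ tsupport f
    · have hXS : X ∈ S := (hfW hX).1
      have h1 : ContDiffAt ℝ (⊤ : ℕ∞) v X := (hv X hXS).contDiffAt (hSo.mem_nhds hXS)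
      exact (hf.contDiffAt.smul h1).add ((contDiffAt_const.sub hf.contDiffAt).smul contDiffAt_const)
    · have h0 : f =ᶠ[𝓝 X] 0 := notMem_tsupport_iff_eventuallyEq.1 hX
      have : (fun X => f X • v X + (1 - f X) • p0) =ᶠ[𝓝 X] fun _ => p0 := by
        filter_upwards [h0] with Y hY
        simp [hY]
      exact contDiffAt_const.congr_of_eventuallyEq this
  · intro X
    by_cases hX : X ∈ tsupport f
    · have := mix_pos (hf01 X) (hfW hX).2
      simpa [p0_two] using this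
    · have h0 : f X = 0 := image_eq_zero_of_notMem_tsupport hX
      simp [h0, p0_two]
  · intro X h0 h1 hn
    have hXK : X ∈ K := ⟨⟨h0, h1⟩, by simpa using hn⟩
    have : ∀ᶠ Y in 𝓝 X, f Y = 1 := (eventually_nhdsSet_iff_forall.1 hf1) X hXK
    filter_upwards [this] with Y hY
    simp [hY]

theorem norm_vecCons_le {t : ℝ} {x : Fin 3 → ℝ} (ht : |t| ≤ 1) (hx : ∑ i, (x i) ^ 2 ≤ 1) :
    ‖(Matrix.vecCons t x : Fin 4 → ℝ)‖ ≤ 1 := by
  rw [pi_norm_le_iff_of_nonneg zero_le_one]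
  intro μ
  refine Fin.cases ?_ (fun i => ?_) μ
  · simpa using ht
  · have h1 : (x i) ^ 2 ≤ 1 :=
      (Finset.single_le_sum (f := fun i => (x i) ^ 2) (fun _ _ => sq_nonneg _)
        (Finset.mem_univ i)).trans hx
    simpa using (sq_le_one_iff_abs_le_one _).1 h1

theorem norm_le_of_sq {X : Fin 4 → ℝ} (h0 : 0 ≤ X 0) (h1 : X 0 < 1)
    (h : sq X < (1 - X 0) ^ 2) : ‖X‖ ≤ 1 := by
  have hX : X = Matrix.vecCons (X 0) (fun i => X i.succ) := by
    funext μ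
    refine Fin.cases ?_ (fun i => ?_) μ <;> simp
  rw [hX]
  refine norm_vecCons_le (by rw [abs_of_nonneg h0]; exact h1.le) ?_
  have : sq X < 1 := by nlinarith
  exact this.le

/-- Smooth data, constant outside a bounded set, without a smooth solution up to time `1`. -/
theorem compact_data :
    ∃ u0 u1 : (Fin 3 → ℝ) → (Fin 3 → ℝ),
      ContDiff ℝ (⊤ : ℕ∞) u0 ∧ ContDiff ℝ (⊤ : ℕ∞) u1 ∧ (∀ x, 0 < u0 x 2) ∧
      (∀ x, u0 x 1 = 0 ∧ u1 x 1 = 0) ∧
      (∀ x, 2 ≤ ‖x‖ → u0 x = p0 ∧ u1 x = 0) ∧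
      ∀ ε : ℝ, 0 < ε → ∀ v : (Fin 4 → ℝ) → (Fin 3 → ℝ),
        ContDiffOn ℝ (⊤ : ℕ∞) v {X | -ε < X 0 ∧ X 0 < 1 + ε} →
        (∀ X, 0 ≤ X 0 → X 0 ≤ 1 → 0 < v X 2) →
        (∀ x, v (Matrix.vecCons 0 x) = u0 x) →
        (∀ x, fderiv ℝ v (Matrix.vecCons 0 x) (Pi.single 0 1) = u1 x) →
        (∀ X, 0 ≤ X 0 → X 0 ≤ 1 → ∀ k, waveOp v X k = 0) → False := by
  obtain ⟨lam, A, B, hlam, hA, hB, hB0, hode⟩ := exists_profile_of NK.Acol NK.NN_cx NK.NN_cb
    NK.NN_cm NK.cl_ubar NK.NN_K12 NK.NN_K13 NK.NN_K23 NK.NN_K32 NK.NN_K33 NK.low_bound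
    NK.resid_bound
  have hpde := ansatz_pde lam A B hA hB hB0 hode
  have hmem : ∀ x : Fin 3 → ℝ, (Matrix.vecCons 0 x : Fin 4 → ℝ) ∈ {X : Fin 4 → ℝ | X 0 < 1} := by
    intro x
    show (Matrix.vecCons 0 x : Fin 4 → ℝ) 0 < 1
    simp
  have hsm := contDiffOn_ansatz (lam := lam) hA hB
  have hu0 : ContDiff ℝ (⊤ : ℕ∞) (fun x : Fin 3 → ℝ => ansatz lam A B (Matrix.vecCons 0 x)) := by
    rw [← contDiffOn_univ]
    exact hsm.comp (contDiff_vecCons 0).contDiffOn (fun x _ => hmem x)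
  have hu1 : ContDiff ℝ (⊤ : ℕ∞) (fun x : Fin 3 → ℝ =>
      fderiv ℝ (ansatz lam A B) (Matrix.vecCons 0 x) (Pi.single 0 1)) := by
    have h1 : ContDiffOn ℝ (⊤ : ℕ∞) (fderiv ℝ (ansatz lam A B)) {X | X 0 < 1} :=
      hsm.fderiv_of_isOpen isOpen_past (by simp)
    have h2 : ContDiff ℝ (⊤ : ℕ∞) (fun x : Fin 3 → ℝ =>
      fderiv ℝ (ansatz lam A B) (Matrix.vecCons 0 x)) := by
      rw [← contDiffOn_univ]
      exact h1.comp (contDiff_vecCons 0).contDiffOn (fun x _ => hmem x)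
    exact h2.clm_apply contDiff_const
  have hpos : ∀ X : Fin 4 → ℝ, X 0 < 1 → 0 < ansatz lam A B X 2 := by
    intro X hX
    have hT : 0 < 1 - X 0 := by linarith
    exact mul_pos (Real.rpow_pos_of_pos hT lam) (hB0 _)
  -- the cut-off
  let b : ContDiffBump (0 : Fin 3 → ℝ) := ⟨1, 2, one_pos, one_lt_two⟩
  have hb : ContDiff ℝ (⊤ : ℕ∞) (fun x => b x) := b.contDiff
  have hb01 : ∀ x, b x ∈ Icc (0 : ℝ) 1 := fun x => ⟨b.nonneg, b.le_one⟩
  have hb1 : ∀ x : Fin 3 → ℝ, ∑ i, (x i) ^ 2 < 1 → b x = 1 := by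
    intro x hx
    apply b.one_of_mem_closedBall
    rw [mem_closedBall_zero_iff, pi_norm_le_iff_of_nonneg (by exact zero_le_one)]
    intro i
    have h1 : (x i) ^ 2 ≤ 1 :=
      (Finset.single_le_sum (f := fun i => (x i) ^ 2) (fun _ _ => sq_nonneg _)
        (Finset.mem_univ i)).trans hx.le
    exact (sq_le_one_iff_abs_le_one _).1 h1
  have hb0 : ∀ x : Fin 3 → ℝ, 2 ≤ ‖x‖ → b x = 0 := by
    intro x hx
    apply b.zero_of_le_dist
    rw [dist_zero_right]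
    exact hx
  refine ⟨fun x => b x • ansatz lam A B (Matrix.vecCons 0 x) + (1 - b x) • p0,
    fun x => b x • fderiv ℝ (ansatz lam A B) (Matrix.vecCons 0 x) (Pi.single 0 1),
    (hb.smul hu0).add ((contDiff_const.sub hb).smul contDiff_const), hb.smul hu1, ?_, ?_, ?_, ?_⟩
  · intro x
    have := mix_pos (hb01 x) (hpos _ (hmem x))
    simpa [p0_two] using this
  · intro x
    constructor
    · simp [ansatz, p0]
    · show b x • (fderiv ℝ (ansatz lam A B) (Matrix.vecCons 0 x) (Pi.single 0 1)) 1 = 0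
      rw [fderiv_ansatz hA hB (hmem x)]
      simp [dans]
  · intro x hx
    constructor
    · simp [hb0 x hx]
    · simp [hb0 x hx]
  intro ε hε v hv hv2 hv0 hv1 hvp
  obtain ⟨v', hv', hv'2, hvv⟩ := globalize hε v hv hv2
  have hball : ∀ x : Fin 3 → ℝ, ∑ i, (x i) ^ 2 < 1 →
      v' =ᶠ[𝓝 (Matrix.vecCons 0 x : Fin 4 → ℝ)] v := by
    intro x hx
    exact hvv _ (by simp) (by simp) (norm_vecCons_le (by simp) hx.le)
  have heq := cone_uniqueness' (ansatz lam A B) v' hv' hv'2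
    (fun X k h0 h1 h => by
      rw [waveOp_congr (hvv X h0 h1.le (norm_le_of_sq h0 h1 h)) k]
      exact hvp X h0 h1.le k) hsm hpos hpde
    (fun x hx => by
      refine ⟨?_, ?_⟩
      · rw [(hball x hx).eq_of_nhds, hv0 x]
        simp [hb1 x hx]
      · rw [(hball x hx).fderiv_eq, hv1 x]
        simp [hb1 x hx])
  -- follow the axis
  have hcurve : Continuous (fun t : ℝ => v' (Matrix.vecCons t (0 : Fin 3 → ℝ)) 2) := by
    have h1 : Continuous (fun t : ℝ => (Matrix.vecCons t (0 : Fin 3 → ℝ) : Fin 4 → ℝ)) := by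
      refine continuous_pi fun i => ?_
      refine Fin.cases ?_ (fun j => ?_) i
      · exact continuous_id
      · exact continuous_const
    exact (continuous_apply 2).comp (hv'.continuous.comp h1)
  have hlim1 : Filter.Tendsto (fun t : ℝ => v' (Matrix.vecCons t (0 : Fin 3 → ℝ)) 2)
      (nhdsWithin 1 (Set.Iio 1)) (nhds (v' (Matrix.vecCons 1 (0 : Fin 3 → ℝ)) 2)) :=
    (hcurve.tendsto 1).mono_left nhdsWithin_le_nhds
  have hlim2 : Filter.Tendsto (fun t : ℝ => v' (Matrix.vecCons t (0 : Fin 3 → ℝ)) 2)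
      (nhdsWithin 1 (Set.Iio 1)) (nhds 0) := by
    have h3 : Filter.Tendsto (fun t : ℝ => (1 - t) ^ lam * B 0)
        (nhdsWithin 1 (Set.Iio 1)) (nhds 0) := by
      have h4 : Continuous (fun t : ℝ => (1 - t) ^ lam * B 0) :=
        ((continuous_const.sub continuous_id).rpow_const (fun _ => Or.inr hlam.le)).mul
          continuous_const
      have h5 := (h4.tendsto 1).mono_left (nhdsWithin_le_nhds (s := Set.Iio (1:ℝ)))
      simpa [Real.zero_rpow hlam.ne'] using h5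
    refine h3.congr' ?_
    have h6 : Set.Ioo (0:ℝ) 1 ∈ nhdsWithin (1:ℝ) (Set.Iio 1) := Ioo_mem_nhdsLT one_pos
    filter_upwards [h6] with t ht
    rw [← heq t ht.1.le ht.2]
    simp [ansatz, sq]
  have h7 := tendsto_nhds_unique hlim1 hlim2
  exact (hv'2 _).ne' h7

end Pool.Agent.H.MP_9f60e7_an
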