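import Pool.Agent.H.MP_9f60e7_an.Bound

/-!
Part A: the columns of the linearization as integer lists.
-/

set_option autoImplicit false

namespace Pool.Agent.H.MP_9f60e7_an.NK

open PowerSeries Finset
open scoped ENNReal

/-- scale of the approximate solution -/
def S0 : ℤ := 100000000

/-- kernels scaled by `12 * 10^8` -/
def k11 : List ℤ := smul 12 bL
/-- kernel -/
def k12 : List ℤ := zadd (smul 24 mL) (zadd (0 :: smul 36 mL) (smul (-24) xL))
/-- kernel -/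
def k13 : List ℤ := zadd (smul (-24) bL) (zadd (0 :: smul (-36) bL) [12 * (lamZ + S0)])
/-- kernel -/
def k21 : List ℤ := smul 12 xL
/-- kernel -/
def k23 : List ℤ :=
  zadd (smul (-12) mL) (zadd (0 :: 0 :: smul 27 mL) (zadd (smul (-24) xL) (0 :: smul (-36) xL)))
/-- kernel -/
def k31 : List ℤ := [-12 * lamZ]
/-- kernel -/
def k32 : List ℤ :=
  zadd (smul 24 mL) (zadd (0 :: 0 :: smul (-54) mL) (zadd (smul 24 xL) (0 :: smul 36 xL)))
/-- kernel -/
def k33 : List ℤ := zadd (smul (-12) bL) (0 :: 0 :: smul 27 bL)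

/-- principal part at `X^m`, scaled by `12 * 10^8` -/
def lin : ℕ → List ℤ
  | 0 => [36 * S0, -54 * S0]
  | m + 1 => shl m [16 * ((m : ℤ) + 1) * S0, 36 * S0, -18 * (2 * ((m : ℤ) + 1) + 3) * S0]

/-- derivative part at `X^m`, scaled by `12 * 10^8` -/
def linx : ℕ → List ℤ
  | 0 => []
  | m + 1 => shl m [16 * ((m : ℤ) + 1) * S0]

theorem cx_ubar : cx ubar = C (1 / 10 ^ 8 : ℝ) * lp xL := by
  ext n
  rw [coeff_C_mul, coeff_lp, cx, coeff_mk, ubar, if_neg (by omega), if_pos (by omega)]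
  have : (3 * n + 1 - 1) / 3 = n := by omega
  rw [this]; ring

theorem cb_ubar : cb ubar = C (1 / 10 ^ 8 : ℝ) * lp bL := by
  ext n
  rw [coeff_C_mul, coeff_lp, cb, coeff_mk, ubar, if_neg (by omega), if_neg (by omega),
    if_pos (by omega)]
  have : (3 * n + 2 - 1) / 3 = n := by omega
  rw [this]; ring

theorem cm_ubar : cm ubar = C (1 / 10 ^ 8 : ℝ) * lp mL := by
  ext n
  rw [coeff_C_mul, coeff_lp, cm, coeff_mk, ubar, if_neg (by omega), if_neg (by omega),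
    if_neg (by omega)]
  have : (3 * n + 3 - 1) / 3 = n := by omega
  rw [this]; ring

theorem cl_ubar' : cl ubar = (lamZ : ℝ) / 10 ^ 8 := by
  simp [cl, ubar]

theorem dX_pow (m : ℕ) : d⁄dX ℝ (X ^ (m + 1) : PS) = ((m : PS) + 1) * X ^ m := by
  rw [Derivation.leibniz_pow]
  simp

/-- components of the coordinate vectors -/
theorem comp_dl_zero : cl (dl 0) = 1 ∧ cx (dl 0) = 0 ∧ cb (dl 0) = 0 ∧ cm (dl 0) = 0 := by
  refine ⟨by simp [cl, dl], ?_, ?_, ?_⟩ <;> ext n <;> simp [cx, cb, cm, dl]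

theorem comp_dl_x (m : ℕ) : cl (dl (3 * m + 1)) = 0 ∧ cx (dl (3 * m + 1)) = X ^ m ∧
    cb (dl (3 * m + 1)) = 0 ∧ cm (dl (3 * m + 1)) = 0 := by
  refine ⟨by simp [cl, dl], ?_, ?_, ?_⟩
  · ext n
    simp only [cx, dl, coeff_mk, coeff_X_pow]
    congr 1
    apply propext
    omega
  · ext n
    simp only [cb, dl, coeff_mk, map_zero]
    rw [if_neg (by omega)]
  · ext n
    simp only [cm, dl, coeff_mk, map_zero]
    rw [if_neg (by omega)]

theorem comp_dl_b (m : ℕ) : cl (dl (3 * m + 2)) = 0 ∧ cx (dl (3 * m + 2)) = 0 ∧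
    cb (dl (3 * m + 2)) = X ^ m ∧ cm (dl (3 * m + 2)) = 0 := by
  refine ⟨by simp [cl, dl], ?_, ?_, ?_⟩
  · ext n
    simp only [cx, dl, coeff_mk, map_zero]
    rw [if_neg (by omega)]
  · ext n
    simp only [cb, dl, coeff_mk, coeff_X_pow]
    congr 1
    apply propext
    omega
  · ext n
    simp only [cm, dl, coeff_mk, map_zero]
    rw [if_neg (by omega)]

theorem comp_dl_m (m : ℕ) : cl (dl (3 * m + 3)) = 0 ∧ cx (dl (3 * m + 3)) = 0 ∧
    cb (dl (3 * m + 3)) = 0 ∧ cm (dl (3 * m + 3)) = X ^ m := by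
  refine ⟨by simp [cl, dl], ?_, ?_, ?_⟩
  · ext n
    simp only [cx, dl, coeff_mk, map_zero]
    rw [if_neg (by omega)]
  · ext n
    simp only [cb, dl, coeff_mk, map_zero]
    rw [if_neg (by omega)]
  · ext n
    simp only [cm, dl, coeff_mk, coeff_X_pow]
    congr 1
    apply propext
    omega

/-- rational constants in `PS` -/
theorem relc : (C (1 / 10 ^ 8 : ℝ) : PS) * 10 ^ 8 = 1 := by
  have h : (10 : PS) ^ 8 = C (10 ^ 8 : ℝ) := by rw [map_pow, map_ofNat]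
  rw [h, ← map_mul, ← map_one (C : ℝ →+* PS)]
  congr 1
  norm_num

theorem rel43 : (C (4 / 3 : ℝ) : PS) * 3 = 4 := by
  have h : (3 : PS) = C (3 : ℝ) := (map_ofNat (C : ℝ →+* PS) 3).symm
  have h' : (4 : PS) = C (4 : ℝ) := (map_ofNat (C : ℝ →+* PS) 4).symm
  rw [h, h', ← map_mul]
  congr 1
  norm_num

theorem rel94 : (C (9 / 4 : ℝ) : PS) * 4 = 9 := by
  have h : (4 : PS) = C (4 : ℝ) := (map_ofNat (C : ℝ →+* PS) 4).symm
  have h' : (9 : PS) = C (9 : ℝ) := (map_ofNat (C : ℝ →+* PS) 9).symm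
  rw [h, h', ← map_mul]
  congr 1
  norm_num

theorem rel32 : (C (3 / 2 : ℝ) : PS) * 2 = 3 := by
  have h : (2 : PS) = C (2 : ℝ) := (map_ofNat (C : ℝ →+* PS) 2).symm
  have h' : (3 : PS) = C (3 : ℝ) := (map_ofNat (C : ℝ →+* PS) 3).symm
  rw [h, h', ← map_mul]
  congr 1
  norm_num

theorem lp_lin_zero : lp (lin 0) = 36 * 10 ^ 8 - 54 * 10 ^ 8 * X := by
  simp only [lin, S0, lp_cons, lp_nil]
  push_cast
  simp only [map_mul, map_neg, map_ofNat, map_pow, mul_zero, add_zero]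
  norm_num
  ring

theorem lp_lin_succ (m : ℕ) : lp (lin (m + 1)) =
    X ^ m * (16 * ((m : PS) + 1) * 10 ^ 8 + 36 * 10 ^ 8 * X
      - 18 * (2 * ((m : PS) + 1) + 3) * 10 ^ 8 * X ^ 2) := by
  simp only [lin, S0, lp_shl, lp_cons, lp_nil]
  push_cast
  simp only [map_mul, map_add, map_one, map_neg, map_ofNat, map_natCast, map_pow, mul_zero,
    add_zero]
  norm_num
  ring

theorem lp_linx_zero : lp (linx 0) = 0 := by
  simp only [linx, lp_nil]

theorem lp_linx_succ (m : ℕ) : lp (linx (m + 1)) = X ^ m * (16 * ((m : PS) + 1) * 10 ^ 8) := by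
  simp only [linx, S0, lp_shl, lp_cons, lp_nil]
  push_cast
  simp only [map_mul, map_add, map_one, map_ofNat, map_natCast, map_pow, mul_zero,
    add_zero]
  norm_num


/-- scaled kernels as power series -/
theorem lp_k11 : lp k11 = 12 * lp bL := by
  simp only [k11, lp_smul]; push_cast; simp only [map_ofNat]

theorem lp_k12 : lp k12 = 24 * lp mL + 36 * X * lp mL - 24 * lp xL := by
  simp only [k12, lp_zadd, lp_smul, lp_cons]; push_cast
  simp only [map_ofNat, map_neg, map_zero]; ring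

theorem lp_k13 : lp k13 = 12 * (C (lamZ : ℝ) + 10 ^ 8) - 24 * lp bL - 36 * X * lp bL := by
  simp only [k13, S0, lp_zadd, lp_smul, lp_cons, lp_nil]; push_cast
  simp only [map_ofNat, map_neg, map_zero, map_mul, map_add]; norm_num; ring

theorem lp_k21 : lp k21 = 12 * lp xL := by
  simp only [k21, lp_smul]; push_cast; simp only [map_ofNat]

theorem lp_k23 : lp k23 = -(12 * lp mL) + 27 * X ^ 2 * lp mL - 24 * lp xL - 36 * X * lp xL := by
  simp only [k23, lp_zadd, lp_smul, lp_cons]; push_cast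
  simp only [map_ofNat, map_neg, map_zero]; ring

theorem lp_k31 : lp k31 = -(12 * C (lamZ : ℝ)) := by
  simp only [k31, lp_cons, lp_nil]; push_cast
  simp only [map_ofNat, map_neg, map_mul]; ring

theorem lp_k32 : lp k32 = 24 * lp mL - 54 * X ^ 2 * lp mL + 24 * lp xL + 36 * X * lp xL := by
  simp only [k32, lp_zadd, lp_smul, lp_cons]; push_cast
  simp only [map_ofNat, map_neg, map_zero]; ring

theorem lp_k33 : lp k33 = -(12 * lp bL) + 27 * X ^ 2 * lp bL := by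
  simp only [k33, lp_zadd, lp_smul, lp_cons]; push_cast
  simp only [map_ofNat, map_neg, map_zero]; ring

theorem C_lam : (C (cl ubar) : PS) * 10 ^ 8 = C (lamZ : ℝ) := by
  have h : (10 : PS) ^ 8 = C (10 ^ 8 : ℝ) := by rw [map_pow, map_ofNat]
  rw [h, ← map_mul, cl_ubar']
  congr 1
  field_simp

/-! columns of type `x` -/

theorem DE1_x (m : ℕ) : 12 * 10 ^ 8 * DE1 (cl ubar) (cx ubar) (cb ubar) (cm ubar) 0 (X ^ m) 0 0
    = lp (zadd (shl m k11) (linx m)) := by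
  rw [lp_zadd, lp_shl, lp_k11, cb_ubar, DE1]
  rcases m with _ | m
  · rw [lp_linx_zero, pow_zero, map_zero, Derivation.map_one_eq_zero]
    linear_combination 12 * lp bL * relc
  · rw [lp_linx_succ, dX_pow, map_zero]
    linear_combination 12 * lp bL * X ^ (m + 1) * relc + 4 * 10 ^ 8 * ((m : PS) + 1) * X ^ m * rel43

theorem DE2_x (m : ℕ) : 12 * 10 ^ 8 * DE2 (cl ubar) (cx ubar) (cb ubar) (cm ubar) 0 (X ^ m) 0 0
    = lp (shl m k12) := by
  rw [lp_shl, lp_k12, cx_ubar, cm_ubar, DE2, wp]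
  simp only [map_zero, map_ofNat]
  linear_combination (24 * lp mL * X ^ m + 36 * X * lp mL * X ^ m - 24 * lp xL * X ^ m) * relc
    + 12 * 10 ^ 8 * X * (C (1 / 10 ^ 8 : ℝ) * lp mL) * X ^ m * rel32

theorem DE3_x (m : ℕ) : 12 * 10 ^ 8 * DE3 (cl ubar) (cx ubar) (cb ubar) (cm ubar) 0 (X ^ m) 0 0
    = lp (shl m k13) := by
  rw [lp_shl, lp_k13, cb_ubar, DE3, wp]
  simp only [map_zero, map_ofNat, map_add, map_one]
  linear_combination (-24 * lp bL * X ^ m - 36 * X * lp bL * X ^ m) * relc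
    - 12 * 10 ^ 8 * X * (C (1 / 10 ^ 8 : ℝ) * lp bL) * X ^ m * rel32
    + 12 * X ^ m * C_lam

/-- principal part -/
theorem lin_eq (m : ℕ) : 12 * 10 ^ 8 * (C (4 / 3 : ℝ) * w2 * d⁄dX ℝ (X ^ m : PS)
    + C (3 : ℝ) * wm * X ^ m) = lp (lin m) := by
  rcases m with _ | m
  · rw [lp_lin_zero, pow_zero, Derivation.map_one_eq_zero, wm]
    simp only [map_ofNat]
    linear_combination -(18 * 10 ^ 8 * X) * rel32
  · rw [lp_lin_succ, dX_pow, wm, w2]
    simp only [map_ofNat]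
    linear_combination 4 * 10 ^ 8 * ((m : PS) + 1) * X ^ m * rel43
      - 10 ^ 8 * 4 * X ^ 2 * X ^ m * ((m : PS) + 1) * C (9 / 4 : ℝ) * rel43
      - 10 ^ 8 * 4 * X ^ 2 * X ^ m * ((m : PS) + 1) * rel94
      - (18 * 10 ^ 8 * X) * X ^ (m + 1) * rel32

/-! columns of type `b` -/

theorem DE1_b (m : ℕ) : 12 * 10 ^ 8 * DE1 (cl ubar) (cx ubar) (cb ubar) (cm ubar) 0 0 (X ^ m) 0
    = lp (shl m k21) := by
  rw [lp_shl, lp_k21, cx_ubar, DE1]
  simp only [map_zero]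
  linear_combination 12 * lp xL * X ^ m * relc

theorem DE2_b (m : ℕ) : 12 * 10 ^ 8 * DE2 (cl ubar) (cx ubar) (cb ubar) (cm ubar) 0 0 (X ^ m) 0
    = lp (lin m) := by
  rw [← lin_eq, DE2]
  simp only [map_zero, map_ofNat]
  ring

theorem DE3_b (m : ℕ) : 12 * 10 ^ 8 * DE3 (cl ubar) (cx ubar) (cb ubar) (cm ubar) 0 0 (X ^ m) 0
    = lp (shl m k23) := by
  rw [lp_shl, lp_k23, cx_ubar, cm_ubar, DE3, wp, w2]
  simp only [map_zero, map_ofNat]
  linear_combination (-(12 * lp mL) + 27 * X ^ 2 * lp mL - 24 * lp xL - 36 * X * lp xL) * X ^ m * relc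
    - 12 * 10 ^ 8 * X * (C (1 / 10 ^ 8 : ℝ) * lp xL) * X ^ m * rel32
    + 3 * 10 ^ 8 * X ^ 2 * (C (1 / 10 ^ 8 : ℝ) * lp mL) * X ^ m * rel94

/-! columns of type `m` -/

theorem DE1_m (m : ℕ) : 12 * 10 ^ 8 * DE1 (cl ubar) (cx ubar) (cb ubar) (cm ubar) 0 0 0 (X ^ m)
    = lp (shl m k31) := by
  rw [lp_shl, lp_k31, DE1]
  simp only [map_zero]
  linear_combination -(12 * X ^ m) * C_lam

theorem DE2_m (m : ℕ) : 12 * 10 ^ 8 * DE2 (cl ubar) (cx ubar) (cb ubar) (cm ubar) 0 0 0 (X ^ m)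
    = lp (shl m k32) := by
  rw [lp_shl, lp_k32, cx_ubar, cm_ubar, DE2, wp, w2]
  simp only [map_zero, map_ofNat]
  linear_combination (24 * lp mL - 54 * X ^ 2 * lp mL + 24 * lp xL + 36 * X * lp xL) * X ^ m * relc
    + 12 * 10 ^ 8 * X * (C (1 / 10 ^ 8 : ℝ) * lp xL) * X ^ m * rel32
    - 6 * 10 ^ 8 * X ^ 2 * (C (1 / 10 ^ 8 : ℝ) * lp mL) * X ^ m * rel94

theorem DE3_m (m : ℕ) : 12 * 10 ^ 8 * DE3 (cl ubar) (cx ubar) (cb ubar) (cm ubar) 0 0 0 (X ^ m)
    = lp (zadd (shl m k33) (lin m)) := by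
  rw [lp_zadd, lp_shl, lp_k33, ← lin_eq, cb_ubar, DE3]
  simp only [map_zero, map_ofNat]
  rw [w2]
  linear_combination (-(12 * lp bL) + 27 * X ^ 2 * lp bL) * X ^ m * relc
    + 3 * 10 ^ 8 * X ^ 2 * (C (1 / 10 ^ 8 : ℝ) * lp bL) * X ^ m * rel94

/-! column `0` -/

theorem DE1_l : 12 * 10 ^ 8 * DE1 (cl ubar) (cx ubar) (cb ubar) (cm ubar) 1 0 0 0
    = lp (smul (-12) mL) := by
  rw [lp_smul, cm_ubar, DE1]
  push_cast
  simp only [map_zero, map_one, map_neg, map_ofNat]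
  linear_combination -(12 * lp mL) * relc

theorem DE2_l : 12 * 10 ^ 8 * DE2 (cl ubar) (cx ubar) (cb ubar) (cm ubar) 1 0 0 0
    = lp [12 * S0] := by
  rw [lp_cons, lp_nil, DE2, S0]
  push_cast
  simp only [map_zero, map_one, map_mul, map_ofNat]
  norm_num

theorem DE3_l : 12 * 10 ^ 8 * DE3 (cl ubar) (cx ubar) (cb ubar) (cm ubar) 1 0 0 0
    = lp (smul 12 xL) := by
  rw [lp_smul, cx_ubar, DE3]
  push_cast
  simp only [map_zero, map_one, map_ofNat]
  linear_combination (12 * lp xL) * relc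

end Pool.Agent.H.MP_9f60e7_an.NK
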