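import Pool.Agent.H.MP_9f60e7_an.NKBounds

/-!
Part A: a fixed point of `T` is a zero of `G`, and a zero of `G` of finite norm solves the power
series equations.
-/

set_option autoImplicit false

namespace Pool.Agent.H.MP_9f60e7_an.NK

open PowerSeries Filter Topology
open scoped ENNReal

/-- JOB B6: a fixed point of `T` is a zero of `G`. -/
theorem G_eq_zero
    (low_bound : ∀ j < 97, nrm (dl j - Aop (DG ubar (dl j))) ≤ ENNReal.ofReal (7 / 10))
    (u : ℕ → ℝ) (hu : T u = u) : G u = 0 := by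
  have h1 : ∀ i, Aop (G u) i = 0 := by
    intro i
    have := congrFun hu i
    unfold T at this
    linarith
  -- tail
  have htail : ∀ i, 79 ≤ i → G u i = 0 := by
    intro i hi
    have h2 := h1 i
    unfold Aop at h2
    rw [if_neg (by omega)] at h2
    rcases div_eq_zero_iff.1 h2 with h3 | h3
    · exact h3
    · exact absurd h3 (dd_ne hi)
  -- finite block
  let A : Matrix (Fin 79) (Fin 79) ℝ := fun i e => Amat i e
  let D : Matrix (Fin 79) (Fin 79) ℝ := fun e j => DG ubar (dl j) e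
  have hAD : ∀ i j, (A * D) i j = Aop (DG ubar (dl j)) i := by
    intro i j
    unfold Aop
    rw [if_pos i.2, Matrix.mul_apply, ← Fin.sum_univ_eq_sum_range
      (fun e => Amat i e * DG ubar (dl j) e) 79]
  have hdet : (A * D).det ≠ 0 := by
    refine det_ne_zero_of_sum_col_lt_diag fun k => ?_
    have hk := low_bound k (by omega)
    have hle : ∑ i : Fin 79, |(dl k - Aop (DG ubar (dl k))) i| ≤ 7 / 10 := by
      have h3 : ∑ i ∈ Finset.range 79, ‖(dl k - Aop (DG ubar (dl k))) i‖ₑ ≤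
          ENNReal.ofReal (7 / 10) := (ENNReal.sum_le_tsum _).trans hk
      simp only [Real.enorm_eq_ofReal_abs] at h3
      rw [← ENNReal.ofReal_sum_of_nonneg (fun i _ => abs_nonneg _)] at h3
      have h4 := (ENNReal.ofReal_le_ofReal_iff (by norm_num)).1 h3
      rwa [← Fin.sum_univ_eq_sum_range (fun i => |(dl k - Aop (DG ubar (dl k))) i|) 79] at h4
    rw [← Finset.add_sum_erase _ _ (Finset.mem_univ k)] at hle
    have h5 : |(dl k - Aop (DG ubar (dl k))) (k : ℕ)| = |1 - (A * D) k k| := by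
      rw [hAD]
      simp [dl]
    have h6 : ∑ i ∈ Finset.univ.erase k, |(dl k - Aop (DG ubar (dl k))) (i : ℕ)| =
        ∑ i ∈ Finset.univ.erase k, ‖(A * D) i k‖ := by
      refine Finset.sum_congr rfl fun i hi => ?_
      have hik : i ≠ k := Finset.ne_of_mem_erase hi
      rw [hAD]
      have : (i : ℕ) ≠ k := fun h => hik (Fin.ext h)
      simp [dl, this]
    rw [h5, h6] at hle
    have h7 : 1 ≤ |1 - (A * D) k k| + ‖(A * D) k k‖ := by
      have := abs_add_le (1 - (A * D) k k) ((A * D) k k)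
      rw [sub_add_cancel, abs_one] at this
      exact this
    linarith
  have hdetA : IsUnit A.det := by
    rw [Matrix.det_mul] at hdet
    exact (left_ne_zero_of_mul hdet).isUnit
  have hvec : A.mulVec (fun e => G u e) = 0 := by
    funext i
    have h2 := h1 i
    unfold Aop at h2
    rw [if_pos i.2, ← Fin.sum_univ_eq_sum_range (fun e => Amat i e * G u e) 79] at h2
    exact h2
  have hzero := Matrix.eq_zero_of_mulVec_eq_zero hdetA.ne_zero hvec
  funext i
  by_cases hi : i < 79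
  · exact congrFun hzero ⟨i, hi⟩
  · exact htail i (by omega)

/-! ### from `G u = 0` to the power series equations -/

theorem eq_zero_of_NN {g : PS} (h : NN g = 0) : g = 0 := by
  unfold NN at h
  rw [ENNReal.tsum_eq_zero] at h
  ext n
  simpa using h n

theorem flat_eq_zero {g1 g2 g3 : PS} (h : flat g1 g2 g3 = 0) : g1 = 0 ∧ g2 = 0 ∧ g3 = 0 := by
  have h1 := nrm_flat g1 g2 g3
  rw [h] at h1
  have h2 : nrm (0 : ℕ → ℝ) = 0 := by simp [nrm]
  rw [h2, eq_comm, add_eq_zero, add_eq_zero] at h1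
  exact ⟨eq_zero_of_NN h1.1.1, eq_zero_of_NN h1.1.2, eq_zero_of_NN h1.2⟩

/-- at most linear growth of the coefficients -/
def Gr (f : PS) : Prop := ∃ K : ℝ, ∀ n : ℕ, |coeff n f| ≤ K * (n + 1)

theorem Gr.add {f g : PS} (hf : Gr f) (hg : Gr g) : Gr (f + g) := by
  obtain ⟨K, hK⟩ := hf
  obtain ⟨L, hL⟩ := hg
  refine ⟨K + L, fun n => ?_⟩
  rw [map_add]
  refine (abs_add_le _ _).trans ?_
  have := hK n
  have := hL n
  linarith

theorem Gr.C_mul {f : PS} (c : ℝ) (hf : Gr f) : Gr (C c * f) := by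
  obtain ⟨K, hK⟩ := hf
  refine ⟨|c| * K, fun n => ?_⟩
  rw [coeff_C_mul, abs_mul, mul_assoc]
  exact mul_le_mul_of_nonneg_left (hK n) (abs_nonneg c)

theorem Gr.neg {f : PS} (hf : Gr f) : Gr (-f) := by
  have := hf.C_mul (-1)
  simpa using this

theorem Gr.sub {f g : PS} (hf : Gr f) (hg : Gr g) : Gr (f - g) := by
  rw [sub_eq_add_neg]
  exact hf.add hg.neg

theorem Gr.X_mul {f : PS} (hf : Gr f) : Gr (X * f) := by
  obtain ⟨K, hK⟩ := hf
  have hK0 : 0 ≤ K := by
    have := (abs_nonneg _).trans (hK 0)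
    simpa using this
  refine ⟨K, fun n => ?_⟩
  cases n with
  | zero => simp [hK0]
  | succ n =>
    rw [coeff_succ_X_mul]
    refine (hK n).trans (mul_le_mul_of_nonneg_left ?_ hK0)
    push_cast
    linarith

theorem Gr.w2_mul {f : PS} (hf : Gr f) : Gr (w2 * f) := by
  have e : w2 * f = f - C (9 / 4 : ℝ) * (X * (X * f)) := by
    unfold w2
    ring
  rw [e]
  exact hf.sub (hf.X_mul.X_mul.C_mul _)

theorem Gr.wp_mul {f : PS} (hf : Gr f) : Gr (wp * f) := by
  have e : wp * f = f + C (3 / 2 : ℝ) * (X * f) := by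
    unfold wp
    ring
  rw [e]
  exact hf.add (hf.X_mul.C_mul _)

theorem Gr.wm_mul {f : PS} (hf : Gr f) : Gr (wm * f) := by
  have e : wm * f = f - C (3 / 2 : ℝ) * (X * f) := by
    unfold wm
    ring
  rw [e]
  exact hf.sub (hf.X_mul.C_mul _)

theorem abs_coeff_le {f : PS} (hf : NN f < ⊤) (n : ℕ) : |coeff n f| ≤ (NN f).toReal := by
  have h1 : ‖coeff n f‖ₑ ≤ NN f := ENNReal.le_tsum n
  rw [Real.enorm_eq_ofReal_abs] at h1
  exact (ENNReal.ofReal_le_iff_le_toReal hf.ne).1 h1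

theorem Gr.of_NN {f : PS} (hf : NN f < ⊤) : Gr f := by
  refine ⟨(NN f).toReal, fun n => (abs_coeff_le hf n).trans ?_⟩
  have h0 : 0 ≤ (NN f).toReal := ENNReal.toReal_nonneg
  have h1 : (0 : ℝ) ≤ n := Nat.cast_nonneg n
  nlinarith

theorem Gr.deriv {f : PS} (hf : NN f < ⊤) : Gr (d⁄dX ℝ f) := by
  refine ⟨(NN f).toReal, fun n => ?_⟩
  rw [coeff_derivative, abs_mul]
  have h1 : (0 : ℝ) ≤ (n : ℝ) + 1 := by positivity
  rw [abs_of_nonneg h1]
  exact mul_le_mul_of_nonneg_right (abs_coeff_le hf _) h1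

theorem NN_mul_lt_top {f g : PS} (hf : NN f < ⊤) (hg : NN g < ⊤) : NN (f * g) < ⊤ :=
  (NN_mul f g).trans_lt (ENNReal.mul_lt_top hf hg)

theorem Gr_E2 {l : ℝ} {x b m : PS} (hx : NN x < ⊤) (hb : NN b < ⊤) (hm : NN m < ⊤) :
    Gr (E2 l x b m) := by
  unfold E2
  have hC : Gr (C l) := Gr.of_NN (by rw [NN_C]; exact enorm_lt_top)
  simp only [mul_assoc]
  exact (((((((Gr.deriv hb).w2_mul.C_mul _).add ((Gr.of_NN hb).wm_mul.C_mul _)).add hC).add
    (Gr.of_NN (NN_mul_lt_top hm hm)).w2_mul).add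
    ((Gr.of_NN (NN_mul_lt_top hx hm)).wp_mul.C_mul _))).sub (Gr.of_NN (NN_mul_lt_top hx hx))

theorem Gr_E3 {l : ℝ} {x b m : PS} (hx : NN x < ⊤) (hb : NN b < ⊤) (hm : NN m < ⊤) :
    Gr (E3 l x b m) := by
  unfold E3
  simp only [mul_assoc]
  exact (((((Gr.deriv hm).w2_mul.C_mul _).add ((Gr.of_NN hm).wm_mul.C_mul _)).sub
    (Gr.of_NN (NN_mul_lt_top hm hb)).w2_mul).sub
    ((Gr.of_NN (NN_mul_lt_top hb hx)).wp_mul.C_mul _)).add ((Gr.of_NN hx).C_mul _)

theorem eq_zero_of_PP {g : PS} (hg : Gr g) (h : PP g = 0) : g = 0 := by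
  obtain ⟨K, hK⟩ := hg
  have h1 : ∀ n, coeff n g + 4 / 9 * coeff (n + 2) g + 16 / 81 * coeff (n + 4) g = 0 := by
    intro n
    have := congrArg (coeff n) h
    simpa [PP] using this
  have h2 : ∀ n, coeff n g = 64 / 729 * coeff (n + 6) g := by
    intro n
    have e1 := h1 n
    have e2 := h1 (n + 2)
    have e3 : n + 2 + 2 = n + 4 := by ring
    have e4 : n + 2 + 4 = n + 6 := by ring
    rw [e3, e4] at e2
    linear_combination e1 - 4 / 9 * e2
  have h3 : ∀ k n, coeff n g = (64 / 729) ^ k * coeff (n + 6 * k) g := by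
    intro k
    induction k with
    | zero => intro n; simp
    | succ k ih =>
      intro n
      rw [ih n, h2 (n + 6 * k)]
      have e : n + 6 * k + 6 = n + 6 * (k + 1) := by ring
      rw [e]
      ring
  ext n
  rw [map_zero]
  -- the right-hand side tends to zero
  have hlim : Tendsto (fun k : ℕ => (64 / 729 : ℝ) ^ k * (K * ((n + 6 * k : ℕ) + 1))) atTop (𝓝 0) := by
    have t1 : Tendsto (fun k : ℕ => (k : ℝ) * (64 / 729 : ℝ) ^ k) atTop (𝓝 0) :=
      tendsto_self_mul_const_pow_of_lt_one (by norm_num) (by norm_num)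
    have t2 : Tendsto (fun k : ℕ => (64 / 729 : ℝ) ^ k) atTop (𝓝 0) :=
      tendsto_pow_atTop_nhds_zero_of_lt_one (by norm_num) (by norm_num)
    have t3 := (t1.const_mul (6 * K)).add (t2.const_mul (K * (n + 1)))
    simp only [mul_zero, add_zero] at t3
    refine t3.congr fun k => ?_
    push_cast
    ring
  have hle : ∀ k : ℕ, |coeff n g| ≤ (64 / 729 : ℝ) ^ k * (K * ((n + 6 * k : ℕ) + 1)) := by
    intro k
    rw [h3 k n, abs_mul, abs_of_nonneg (by positivity)]
    exact mul_le_mul_of_nonneg_left (hK _) (by positivity)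
  have h4 : |coeff n g| ≤ 0 := ge_of_tendsto hlim (Eventually.of_forall hle)
  exact abs_nonpos_iff.1 h4

/-- JOB B7: from `G u = 0` to the power series equations. -/
theorem E_eq_zero (u : ℕ → ℝ) (hu : G u = 0) (hf : nrm u < ⊤) :
    E1 (cl u) (cx u) (cb u) (cm u) = 0 ∧ E2 (cl u) (cx u) (cb u) (cm u) = 0 ∧
      E3 (cl u) (cx u) (cb u) (cm u) = 0 := by
  obtain ⟨h1, h2, h3⟩ := flat_eq_zero hu
  have hx := (NN_cx_le_nrm u).trans_lt hf
  have hb := (NN_cb_le_nrm u).trans_lt hf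
  have hm := (NN_cm_le_nrm u).trans_lt hf
  exact ⟨h1, eq_zero_of_PP (Gr_E2 hx hb hm) h2, eq_zero_of_PP (Gr_E3 hx hb hm) h3⟩

end Pool.Agent.H.MP_9f60e7_an.NK
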