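import Pool.Agent.H.MP_9f60e7_an.NKContraction
import Pool.Agent.H.MP_9f60e7_an.NKZero

/-!
Part A: existence of the power series solution, from the numeric facts.
-/

set_option autoImplicit false

namespace Pool.Agent.H.MP_9f60e7_an.NK

open PowerSeries Filter Topology
open scoped ENNReal

theorem summable_of_NN {f : PS} (hf : NN f < ⊤) : Summable fun n => |coeff n f| := by
  have h1 : ∑' n, ENNReal.ofReal |coeff n f| ≠ ⊤ := by
    have : NN f = ∑' n, ENNReal.ofReal |coeff n f| := by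
      unfold NN
      exact tsum_congr fun n => Real.enorm_eq_ofReal_abs _
    rw [← this]
    exact hf.ne
  have h2 := ENNReal.summable_toReal h1
  refine h2.congr fun n => ?_
  exact ENNReal.toReal_ofReal (abs_nonneg _)

/-- final assembly of the series part, with the numeric facts as hypotheses -/
theorem series_exists_of
    (Acol : ∀ e < 79, ∑ i ∈ Finset.range 79, |Amat i e| ≤ 63)
    (NN_cx : NN (cx ubar) ≤ ENNReal.ofReal (89 / 10))
    (NN_cb : NN (cb ubar) ≤ ENNReal.ofReal (46 / 10))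
    (NN_cm : NN (cm ubar) ≤ ENNReal.ofReal (33 / 10))
    (cl_ubar : cl ubar = 143117763 / 10 ^ 8)
    (low_bound : ∀ j < 97, nrm (dl j - Aop (DG ubar (dl j))) ≤ ENNReal.ofReal (7 / 10))
    (resid_bound : nrm (Aop (G ubar)) ≤ ENNReal.ofReal (6 / 10 ^ 6))
    (high_bound : ∀ h : ℕ → ℝ, (∀ j < 97, h j = 0) →
      nrm (h - Aop (DG ubar h)) ≤ ENNReal.ofReal (7 / 10) * nrm h) :
    ∃ (l : ℝ) (x b m : PS), 0 < l ∧
      (Summable fun n => |coeff n x|) ∧ (Summable fun n => |coeff n b|) ∧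
      (Summable fun n => |coeff n m|) ∧ E1 l x b m = 0 ∧ E2 l x b m = 0 ∧ E3 l x b m = 0 := by
  have hT : ∀ u v : ℕ → ℝ, T u - T v =
      ((u - v) - Aop (DG ubar (u - v))) - Aop (BG (u + v - (2 : ℝ) • ubar) (u - v)) := by
    intro u v
    have h1 : T u - T v = (u - v) - Aop (G u - G v) := by
      rw [Aop_sub]
      funext i
      simp only [T, Pi.sub_apply]
      ring
    rw [h1, G_sub u v ubar, Aop_add]
    abel
  have hres : nrm (T ubar - ubar) ≤ ENNReal.ofReal (6 / 10 ^ 6) := by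
    have h1 : T ubar - ubar = -Aop (G ubar) := by
      funext i
      simp only [T, Pi.sub_apply, Pi.neg_apply]
      ring
    rw [h1, nrm_neg]
    exact resid_bound
  have hcontr : ∀ u v : ℕ → ℝ, nrm (u - ubar) ≤ ENNReal.ofReal (1 / 10 ^ 4) →
      nrm (v - ubar) ≤ ENNReal.ofReal (1 / 10 ^ 4) →
      nrm (T u - T v) ≤ ENNReal.ofReal (84 / 100) * nrm (u - v) := by
    intro u v hu hv
    rw [hT]
    refine (nrm_sub _ _).trans ?_
    have hs : nrm (u + v - (2 : ℝ) • ubar) ≤ ENNReal.ofReal (2 / 10 ^ 4) := by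
      have e : u + v - (2 : ℝ) • ubar = (u - ubar) + (v - ubar) := by
        rw [two_smul]
        abel
      rw [e]
      refine (nrm_add _ _).trans ((add_le_add hu hv).trans ?_)
      rw [← ENNReal.ofReal_add (by norm_num) (by norm_num)]
      exact ENNReal.ofReal_le_ofReal (by norm_num)
    calc nrm ((u - v) - Aop (DG ubar (u - v))) + nrm (Aop (BG (u + v - (2 : ℝ) • ubar) (u - v)))
        ≤ ENNReal.ofReal (7 / 10) * nrm (u - v) +
          ENNReal.ofReal 700 * ENNReal.ofReal (2 / 10 ^ 4) * nrm (u - v) := by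
          refine add_le_add (lin_bound low_bound high_bound _) ?_
          refine (quad_bound Acol _ _).trans ?_
          gcongr
      _ = (ENNReal.ofReal (7 / 10) + ENNReal.ofReal 700 * ENNReal.ofReal (2 / 10 ^ 4)) *
          nrm (u - v) := by ring
      _ ≤ ENNReal.ofReal (84 / 100) * nrm (u - v) := by
          refine mul_le_mul' ?_ le_rfl
          rw [← ENNReal.ofReal_mul (by norm_num), ← ENNReal.ofReal_add (by norm_num) (by norm_num)]
          exact ENNReal.ofReal_le_ofReal (by norm_num)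
  obtain ⟨u, hu, hur⟩ := contraction T T_continuous ubar (1 / 10 ^ 4) (6 / 10 ^ 6) (84 / 100)
    (by norm_num) (by norm_num) (by norm_num) (by norm_num) (by norm_num) hres hcontr
  have hubar : nrm ubar < ⊤ := by
    rw [nrm_eq]
    refine ENNReal.add_lt_top.2 ⟨ENNReal.add_lt_top.2 ⟨ENNReal.add_lt_top.2 ⟨enorm_lt_top, ?_⟩, ?_⟩,
      ?_⟩
    · exact NN_cx.trans_lt ENNReal.ofReal_lt_top
    · exact NN_cb.trans_lt ENNReal.ofReal_lt_top
    · exact NN_cm.trans_lt ENNReal.ofReal_lt_top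
  have hfin : nrm u < ⊤ := by
    have e : u = (u - ubar) + ubar := by abel
    rw [e]
    refine (nrm_add _ _).trans_lt (ENNReal.add_lt_top.2 ⟨?_, hubar⟩)
    exact hur.trans_lt ENNReal.ofReal_lt_top
  have hpos : 0 < cl u := by
    have h1 : ‖cl (u - ubar)‖ₑ ≤ ENNReal.ofReal (1 / 10 ^ 4) := (cl_le_nrm _).trans hur
    rw [cl_sub, cl_ubar, Real.enorm_eq_ofReal_abs] at h1
    have h2 := (ENNReal.ofReal_le_ofReal_iff (by norm_num)).1 h1
    have h3 := (abs_le.1 h2).1
    norm_num at h3 ⊢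
    linarith
  obtain ⟨e1, e2, e3⟩ := E_eq_zero u (G_eq_zero low_bound u hu) hfin
  exact ⟨cl u, cx u, cb u, cm u, hpos, summable_of_NN ((NN_cx_le_nrm u).trans_lt hfin),
    summable_of_NN ((NN_cb_le_nrm u).trans_lt hfin),
    summable_of_NN ((NN_cm_le_nrm u).trans_lt hfin), e1, e2, e3⟩

end Pool.Agent.H.MP_9f60e7_an.NK
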