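import Pool.Agent.H.MP_9f60e7_an.Resid
import Pool.Agent.H.MP_9f60e7_an.NKExists
import Pool.Agent.H.MP_9f60e7_an.High

/-!
Part A: the remaining numeric facts, and the existence of the power series solution.
-/

set_option autoImplicit false

namespace Pool.Agent.H.MP_9f60e7_an.NK

open PowerSeries Finset
open scoped ENNReal

theorem NN_lp (l : List ℤ) : NN (lp l) ≤ ENNReal.ofReal ((absSum l : ℕ) : ℝ) := by
  unfold NN
  have hz : ∀ n, n ∉ range l.length → ‖coeff n (lp l)‖ₑ = 0 := by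
    intro n hn
    rw [Finset.mem_range, not_lt] at hn
    rw [coeff_lp, List.getD_eq_default _ _ hn]
    simp
  rw [tsum_eq_sum hz]
  have h3 : ∀ n ∈ range l.length, ‖coeff n (lp l)‖ₑ = ENNReal.ofReal |((l.getD n 0 : ℤ) : ℝ)| := by
    intro n _
    rw [coeff_lp, ← ofReal_norm, Real.norm_eq_abs]
  rw [Finset.sum_congr rfl h3, ← ENNReal.ofReal_sum_of_nonneg (fun i _ => abs_nonneg _)]
  apply ENNReal.ofReal_le_ofReal
  have := absSum_ge l l.length
  have h2 : (((∑ e ∈ range l.length, |l.getD e 0| : ℤ)) : ℝ) ≤ (((absSum l : ℕ) : ℤ) : ℝ) := by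
    exact_mod_cast this
  push_cast at h2
  exact h2

/-- `NN` bound from a scaled list -/
theorem NN_of_lp (f : PS) (l : List ℤ) (D : ℝ) (hD : 0 < D) (h : C D * f = lp l) (K : ℕ)
    (hK : absSum l ≤ K) (B : ℝ) (hB : (K : ℝ) ≤ B * D) : NN f ≤ ENNReal.ofReal B := by
  have h1 : f = C D⁻¹ * lp l := by
    rw [← h, ← mul_assoc, ← map_mul, inv_mul_cancel₀ hD.ne', map_one, one_mul]
  rw [h1, NN_C_mul]
  have h2 : ‖D⁻¹‖ₑ = ENNReal.ofReal D⁻¹ := by
    rw [← ofReal_norm, Real.norm_eq_abs, abs_of_pos (inv_pos.mpr hD)]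
  rw [h2]
  refine (mul_le_mul' le_rfl (NN_lp l)).trans ?_
  rw [← ENNReal.ofReal_mul (inv_pos.mpr hD).le]
  apply ENNReal.ofReal_le_ofReal
  rw [inv_mul_le_iff₀ hD]
  have : ((absSum l : ℕ) : ℝ) ≤ (K : ℝ) := by exact_mod_cast hK
  linarith [mul_comm B D]

theorem cs8 : (C (10 ^ 8 : ℝ) : PS) * C (1 / 10 ^ 8 : ℝ) = 1 := by
  rw [← map_mul, ← map_one (C : ℝ →+* PS)]
  congr 1
  norm_num

/-- numeric checks -/
def chkN : Bool :=
  Nat.ble (absSum xL) 890000000 && Nat.ble (absSum bL) 460000000 && Nat.ble (absSum mL) 330000000 &&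
  Nat.ble (absSum k12) 17520000000 && Nat.ble (absSum k13) 8400000000 &&
  Nat.ble (absSum k23) 10560000000 && Nat.ble (absSum k32) 3960000000 &&
  Nat.ble (absSum k33) 11040000000 &&
  (List.range 79).all (fun e => Nat.ble (absSum (AC.getD e [])) 630000)

set_option maxRecDepth 100000 in
theorem chkN_true : chkN = true := by decide +kernel

theorem NN_cx : NN (cx ubar) ≤ ENNReal.ofReal (89 / 10) := by
  have hc := chkN_true
  simp only [chkN, Bool.and_eq_true, Nat.ble_eq] at hc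
  refine NN_of_lp _ xL (10 ^ 8) (by norm_num) ?_ 890000000 hc.1.1.1.1.1.1.1.1 _ (by norm_num)
  rw [cx_ubar, ← mul_assoc, cs8, one_mul]

theorem NN_cb : NN (cb ubar) ≤ ENNReal.ofReal (46 / 10) := by
  have hc := chkN_true
  simp only [chkN, Bool.and_eq_true, Nat.ble_eq] at hc
  refine NN_of_lp _ bL (10 ^ 8) (by norm_num) ?_ 460000000 hc.1.1.1.1.1.1.1.2 _ (by norm_num)
  rw [cb_ubar, ← mul_assoc, cs8, one_mul]

theorem NN_cm : NN (cm ubar) ≤ ENNReal.ofReal (33 / 10) := by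
  have hc := chkN_true
  simp only [chkN, Bool.and_eq_true, Nat.ble_eq] at hc
  refine NN_of_lp _ mL (10 ^ 8) (by norm_num) ?_ 330000000 hc.1.1.1.1.1.1.2 _ (by norm_num)
  rw [cm_ubar, ← mul_assoc, cs8, one_mul]

theorem cl_ubar : cl ubar = 143117763 / 10 ^ 8 := by
  rw [cl_ubar', lamZ]
  norm_num

theorem NN_K12 : NN (C (2 : ℝ) * wp * cm ubar - C (2 : ℝ) * cx ubar) ≤
    ENNReal.ofReal (146 / 10) := by
  have hc := chkN_true
  simp only [chkN, Bool.and_eq_true, Nat.ble_eq] at hc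
  refine NN_of_lp _ k12 (12 * 10 ^ 8) (by norm_num) ?_ 17520000000 hc.1.1.1.1.1.2 _ (by norm_num)
  rw [← c12, lp_k12, cx_ubar, cm_ubar, wp]
  simp only [map_ofNat]
  linear_combination (24 * lp mL + 36 * X * lp mL - 24 * lp xL) * relc
    + 12 * 10 ^ 8 * X * (C (1 / 10 ^ 8 : ℝ) * lp mL) * rel32

theorem NN_K13 : NN (C (cl ubar + 1) - C (2 : ℝ) * wp * cb ubar) ≤ ENNReal.ofReal 7 := by
  have hc := chkN_true
  simp only [chkN, Bool.and_eq_true, Nat.ble_eq] at hc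
  refine NN_of_lp _ k13 (12 * 10 ^ 8) (by norm_num) ?_ 8400000000 hc.1.1.1.1.2 _ (by norm_num)
  rw [← c12, lp_k13, cb_ubar, wp]
  simp only [map_ofNat, map_add, map_one]
  linear_combination (-24 * lp bL - 36 * X * lp bL) * relc
    - 12 * 10 ^ 8 * X * (C (1 / 10 ^ 8 : ℝ) * lp bL) * rel32
    + 12 * C_lam

theorem NN_K23 : NN (w2 * cm ubar + C (2 : ℝ) * wp * cx ubar) ≤ ENNReal.ofReal (88 / 10) := by
  have hc := chkN_true
  simp only [chkN, Bool.and_eq_true, Nat.ble_eq] at hc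
  rw [← NN_neg]
  refine NN_of_lp _ k23 (12 * 10 ^ 8) (by norm_num) ?_ 10560000000 hc.1.1.1.2 _ (by norm_num)
  rw [← c12, lp_k23, cx_ubar, cm_ubar, wp, w2]
  simp only [map_ofNat]
  linear_combination (-(12 * lp mL) + 27 * X ^ 2 * lp mL - 24 * lp xL - 36 * X * lp xL) * relc
    - 12 * 10 ^ 8 * X * (C (1 / 10 ^ 8 : ℝ) * lp xL) * rel32
    + 3 * 10 ^ 8 * X ^ 2 * (C (1 / 10 ^ 8 : ℝ) * lp mL) * rel94

theorem NN_K32 : NN (C (2 : ℝ) * w2 * cm ubar + C (2 : ℝ) * wp * cx ubar) ≤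
    ENNReal.ofReal (33 / 10) := by
  have hc := chkN_true
  simp only [chkN, Bool.and_eq_true, Nat.ble_eq] at hc
  refine NN_of_lp _ k32 (12 * 10 ^ 8) (by norm_num) ?_ 3960000000 hc.1.1.2 _ (by norm_num)
  rw [← c12, lp_k32, cx_ubar, cm_ubar, wp, w2]
  simp only [map_ofNat]
  linear_combination (24 * lp mL - 54 * X ^ 2 * lp mL + 24 * lp xL + 36 * X * lp xL) * relc
    + 12 * 10 ^ 8 * X * (C (1 / 10 ^ 8 : ℝ) * lp xL) * rel32
    - 6 * 10 ^ 8 * X ^ 2 * (C (1 / 10 ^ 8 : ℝ) * lp mL) * rel94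

theorem NN_K33 : NN (w2 * cb ubar) ≤ ENNReal.ofReal (92 / 10) := by
  have hc := chkN_true
  simp only [chkN, Bool.and_eq_true, Nat.ble_eq] at hc
  rw [← NN_neg]
  refine NN_of_lp _ k33 (12 * 10 ^ 8) (by norm_num) ?_ 11040000000 hc.1.2 _ (by norm_num)
  rw [← c12, lp_k33, cb_ubar, w2]
  linear_combination (-(12 * lp bL) + 27 * X ^ 2 * lp bL) * relc
    + 3 * 10 ^ 8 * X ^ 2 * (C (1 / 10 ^ 8 : ℝ) * lp bL) * rel94

theorem Acol (e : ℕ) (he : e < 79) : ∑ i ∈ Finset.range 79, |Amat i e| ≤ 63 := by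
  have hc := chkN_true
  simp only [chkN, Bool.and_eq_true, Nat.ble_eq, List.all_eq_true, List.mem_range] at hc
  have h1 := hc.2 e he
  have h2 := absSum_ge (AC.getD e []) 79
  have h3 : ∑ i ∈ Finset.range 79, |Amat i e|
      = ((∑ i ∈ Finset.range 79, |(AC.getD e []).getD i 0| : ℤ) : ℝ) / 10 ^ 4 := by
    push_cast
    rw [Finset.sum_div]
    apply Finset.sum_congr rfl
    intro i _
    rw [Amat, abs_div, abs_of_pos (by norm_num : (0 : ℝ) < 10 ^ 4)]
  rw [h3, div_le_iff₀ (by norm_num)]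
  have h4 : (∑ i ∈ Finset.range 79, |(AC.getD e []).getD i 0| : ℤ) ≤ 630000 := by
    refine h2.trans ?_
    exact_mod_cast h1
  have h5 : ((∑ i ∈ Finset.range 79, |(AC.getD e []).getD i 0| : ℤ) : ℝ) ≤ 630000 := by
    exact_mod_cast h4
  linarith

/-- the power series solution -/
theorem series_exists :
    ∃ (l : ℝ) (x b m : PS), 0 < l ∧
      (Summable fun n => |coeff n x|) ∧ (Summable fun n => |coeff n b|) ∧
      (Summable fun n => |coeff n m|) ∧ E1 l x b m = 0 ∧ E2 l x b m = 0 ∧ E3 l x b m = 0 :=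
  series_exists_of Acol NN_cx NN_cb NN_cm cl_ubar low_bound resid_bound
    (high_bound NN_cx NN_cb cl_ubar NN_K12 NN_K13 NN_K23 NN_K32 NN_K33)

end Pool.Agent.H.MP_9f60e7_an.NK
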