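import Pool.Agent.H.MP_9f60e7_an.Series

/-!
Part A: integer lists as power series (the computable side).
-/

set_option autoImplicit false

namespace Pool.Agent.H.MP_9f60e7_an.NK

open PowerSeries
open scoped ENNReal

/-- coefficientwise addition of lists of different lengths -/
def zadd : List ℤ → List ℤ → List ℤ
  | [], l => l
  | a :: l, m => match m with
    | [] => a :: l
    | b :: m' => (a + b) :: zadd l m'

/-- scalar multiplication -/
def smul (c : ℤ) (l : List ℤ) : List ℤ := l.map (fun z => c * z)

/-- multiply by `X^k` -/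
def shl : ℕ → List ℤ → List ℤ
  | 0, l => l
  | k + 1, l => 0 :: shl k l

/-- `81 * PP` -/
def P81 (l : List ℤ) : List ℤ :=
  zadd (smul 81 l) (zadd (smul 36 l.tail.tail) (smul 16 l.tail.tail.tail.tail))

/-- head with default `0` -/
def hd : List ℤ → ℤ
  | [] => 0
  | a :: _ => a

/-- interleaving -/
def inter : ℕ → List ℤ → List ℤ → List ℤ → List ℤ
  | 0, _, _, _ => []
  | k + 1, a, b, c => hd b :: hd c :: hd a :: inter k a.tail b.tail c.tail

/-- computable version of `flat` -/
def flatL (k : ℕ) (e1 e2 e3 : List ℤ) : List ℤ :=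
  hd e2 :: hd e3 :: inter k e1 e2.tail e3.tail

/-- the power series with the given integer coefficients -/
noncomputable def lp (l : List ℤ) : PS := PowerSeries.mk fun n => ((l.getD n 0 : ℤ) : ℝ)

theorem coeff_lp (l : List ℤ) (n : ℕ) : coeff n (lp l) = ((l.getD n 0 : ℤ) : ℝ) := by
  simp [lp]

theorem getD_zadd (l m : List ℤ) (n : ℕ) : (zadd l m).getD n 0 = l.getD n 0 + m.getD n 0 := by
  induction l generalizing m n with
  | nil => simp [zadd]
  | cons a l ih =>
    cases m with
    | nil => simp [zadd]
    | cons b m =>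
      cases n with
      | zero => simp [zadd]
      | succ n => simpa [zadd] using ih m n

theorem getD_smul (c : ℤ) (l : List ℤ) (n : ℕ) : (smul c l).getD n 0 = c * l.getD n 0 := by
  induction l generalizing n with
  | nil => simp [smul]
  | cons a l ih =>
    cases n with
    | zero => simp [smul]
    | succ n => simpa [smul] using ih n

theorem getD_tail (l : List ℤ) (n : ℕ) : l.tail.getD n 0 = l.getD (n + 1) 0 := by
  cases l <;> simp

theorem hd_eq (l : List ℤ) : hd l = l.getD 0 0 := by
  cases l <;> simp [hd]

theorem getD_shl (k : ℕ) (l : List ℤ) (n : ℕ) :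
    (shl k l).getD n 0 = if k ≤ n then l.getD (n - k) 0 else 0 := by
  induction k generalizing n with
  | zero => simp [shl]
  | succ k ih =>
    cases n with
    | zero => simp [shl]
    | succ n =>
      have := ih n
      simp only [shl, List.getD_cons_succ, this]
      simp

theorem lp_zadd (l m : List ℤ) : lp (zadd l m) = lp l + lp m := by
  ext n; simp only [map_add, coeff_lp, getD_zadd]; push_cast; ring

theorem lp_smul (c : ℤ) (l : List ℤ) : lp (smul c l) = C (c : ℝ) * lp l := by
  ext n; simp only [coeff_C_mul, coeff_lp, getD_smul]; push_cast; ring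

theorem lp_cons (a : ℤ) (l : List ℤ) : lp (a :: l) = C (a : ℝ) + X * lp l := by
  ext n
  cases n with
  | zero => simp [coeff_lp]
  | succ n =>
    rw [map_add, coeff_succ_X_mul, coeff_C, coeff_lp, coeff_lp, List.getD_cons_succ]
    simp

theorem lp_nil : lp [] = 0 := by
  ext n; simp [coeff_lp]

theorem lp_shl (k : ℕ) (l : List ℤ) : lp (shl k l) = X ^ k * lp l := by
  induction k with
  | zero => simp [shl]
  | succ k ih => simp only [shl, lp_cons, ih]; simp [pow_succ]; ring

theorem PP_lp (l : List ℤ) : lp (P81 l) = C (81 : ℝ) * PP (lp l) := by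
  ext n
  simp only [P81, coeff_lp, getD_zadd, getD_smul, getD_tail, coeff_C_mul, PP, coeff_mk]
  push_cast; ring

theorem getD_inter (k : ℕ) (a b c : List ℤ) (n : ℕ) (hn : n < k) :
    (inter k a b c).getD (3 * n) 0 = b.getD n 0 ∧
    (inter k a b c).getD (3 * n + 1) 0 = c.getD n 0 ∧
    (inter k a b c).getD (3 * n + 2) 0 = a.getD n 0 := by
  induction k generalizing a b c n with
  | zero => omega
  | succ k ih =>
    cases n with
    | zero => simp [inter, hd_eq]
    | succ n =>
      have := ih a.tail b.tail c.tail n (by omega)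
      simp only [getD_tail] at this
      have e1 : 3 * (n + 1) = 3 * n + 1 + 1 + 1 := by ring
      rw [e1]
      simpa [inter] using this

theorem length_inter (k : ℕ) (a b c : List ℤ) : (inter k a b c).length = 3 * k := by
  induction k generalizing a b c with
  | zero => simp [inter]
  | succ k ih => simp [inter, ih]; ring

/-- link between `flatL` and `flat` -/
theorem flat_lp (k : ℕ) (l1 l2 l3 : List ℤ) (h1 : l1.length ≤ k) (h2 : l2.length ≤ k + 1)
    (h3 : l3.length ≤ k + 1) (e : ℕ) :
    flat (lp l1) (lp l2) (lp l3) e = (((flatL k l1 l2 l3).getD e 0 : ℤ) : ℝ) := by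
  unfold flat flatL
  rcases e with _ | _ | e
  · simp [coeff_lp, hd_eq]
  · simp [coeff_lp, hd_eq]
  · simp only [Nat.add_eq_zero_iff, one_ne_zero, and_false, if_false, Nat.reduceEqDiff,
      List.getD_cons_succ]
    have he : e + 1 + 1 - 2 = e := by omega
    rw [he]
    obtain ⟨q, r, hr, hq⟩ : ∃ q r : ℕ, r < 3 ∧ e = 3 * q + r :=
      ⟨e / 3, e % 3, Nat.mod_lt _ (by norm_num), by omega⟩
    have hmod : e % 3 = r := by omega
    have hdiv : e / 3 = q := by omega
    rw [hmod, hdiv]
    have hne : ¬ (e + 1 + 1 = 1) := by omega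
    by_cases hqk : q < k
    · obtain ⟨i1, i2, i3⟩ := getD_inter k l1 l2.tail l3.tail q hqk
      have hr' : r = 0 ∨ r = 1 ∨ r = 2 := by omega
      rcases hr' with h | h | h
      · subst h; simp only [if_true, coeff_lp]
        have hq' : e = 3 * q := by omega
        rw [hq', i1, getD_tail]
      · subst h; simp only [coeff_lp, one_ne_zero, if_false, if_true]
        rw [hq, i2, getD_tail]
      · subst h; simp only [coeff_lp, OfNat.ofNat_ne_zero, if_false, OfNat.ofNat_ne_one]
        rw [hq, i3]
    · have hlen : (inter k l1 l2.tail l3.tail).length ≤ e := by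
        rw [length_inter]; omega
      rw [List.getD_eq_default _ _ hlen]
      have z1 : l1.getD q 0 = 0 := List.getD_eq_default _ _ (by omega)
      have z2 : l2.getD (q + 1) 0 = 0 := List.getD_eq_default _ _ (by omega)
      have z3 : l3.getD (q + 1) 0 = 0 := List.getD_eq_default _ _ (by omega)
      simp only [coeff_lp, z1, z2, z3]
      split_ifs <;> simp

end Pool.Agent.H.MP_9f60e7_an.NK
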