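import Pool.Agent.H.MP_9f60e7_an.Cols

/-!
Part A: the first 97 columns of the linearization (numeric bound).
-/

set_option autoImplicit false

namespace Pool.Agent.H.MP_9f60e7_an.NK

open PowerSeries Finset
open scoped ENNReal

/-- the three component lists of the column `j` -/
def colE (j : ℕ) : List ℤ × List ℤ × List ℤ :=
  match j with
  | 0 => (smul (-12) mL, [12 * S0], smul 12 xL)
  | k + 1 =>
    match k % 3 with
    | 0 => (zadd (shl (k / 3) k11) (linx (k / 3)), shl (k / 3) k12, shl (k / 3) k13)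
    | 1 => (shl (k / 3) k21, lin (k / 3), shl (k / 3) k23)
    | _ => (shl (k / 3) k31, shl (k / 3) k32, zadd (shl (k / 3) k33) (lin (k / 3)))

/-- column `j` of the linearization, scaled -/
def colG (j : ℕ) : List ℤ :=
  flatL 100 (smul 81 (colE j).1) (P81 (colE j).2.1) (P81 (colE j).2.2)

/-- scaled diagonal -/
def diagZ (j : ℕ) : ℤ :=
  if (j - 1) % 3 = 0 then 129600000000 * (((j - 1) / 3 : ℕ) : ℤ)
  else -(145800000000 * (2 * (((j - 1) / 3 : ℕ) : ℤ) + 3))

/-- column without the diagonal in the tail -/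
def colG' (j : ℕ) : List ℤ :=
  if j < 79 then colG j else zadd (colG j) (shl j [-diagZ j])

/-- the numeric check of column `j` -/
def chk (j : ℕ) : Bool :=
  Nat.ble (smul 81 (colE j).1).length 100 && Nat.ble (P81 (colE j).2.1).length 101 &&
  Nat.ble (P81 (colE j).2.2).length 101 && Nat.ble (colG' j).length 304 &&
  Nat.ble (absSum (colG j)) (2 ^ 70) &&
  Nat.ble (lowS (colG j) (if j < 79 then 972000000000000 else 0) j +
    tailS 75 26 ((colG' j).drop 79)) 680400000000000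

theorem flat_scale (c : ℝ) (g1 g2 g3 : PS) (e : ℕ) :
    flat (C c * g1) (C c * g2) (C c * g3) e = c * flat g1 g2 g3 e := by
  unfold flat
  simp only [coeff_C_mul]
  split_ifs <;> rfl

theorem PP_scale (c : ℝ) (g : PS) : PP (C c * g) = C c * PP g := by
  ext n
  simp only [PP, coeff_mk, coeff_C_mul]
  ring

theorem c12 : (12 * 10 ^ 8 : PS) = C (12 * 10 ^ 8 : ℝ) := by
  rw [map_mul, map_pow, map_ofNat, map_ofNat]

theorem flat_col (g1 g2 g3 : PS) (l1 l2 l3 : List ℤ) (h1 : 12 * 10 ^ 8 * g1 = lp l1)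
    (h2 : 12 * 10 ^ 8 * g2 = lp l2) (h3 : 12 * 10 ^ 8 * g3 = lp l3)
    (n1 : (smul 81 l1).length ≤ 100) (n2 : (P81 l2).length ≤ 101) (n3 : (P81 l3).length ≤ 101)
    (e : ℕ) :
    flat g1 (PP g2) (PP g3) e
      = (((flatL 100 (smul 81 l1) (P81 l2) (P81 l3)).getD e 0 : ℤ) : ℝ) /
        ((97200000000 : ℕ) : ℝ) := by
  rw [← flat_lp 100 _ _ _ n1 n2 n3, lp_smul, PP_lp, PP_lp, ← h1, ← h2, ← h3, c12, PP_scale,
    PP_scale]
  have e81 : (C ((81 : ℤ) : ℝ) : PS) = C (81 : ℝ) := by norm_num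
  rw [e81]
  rw [flat_scale, flat_scale]
  push_cast
  ring

theorem colE_x (m : ℕ) : colE (3 * m + 1) =
    (zadd (shl m k11) (linx m), shl m k12, shl m k13) := by
  have h1 : 3 * m % 3 = 0 := by omega
  have h2 : 3 * m / 3 = m := by omega
  simp only [colE, h1, h2]

theorem colE_b (m : ℕ) : colE (3 * m + 2) = (shl m k21, lin m, shl m k23) := by
  have h1 : (3 * m + 1) % 3 = 1 := by omega
  have h2 : (3 * m + 1) / 3 = m := by omega
  simp only [colE, h1, h2]

theorem colE_m (m : ℕ) : colE (3 * m + 3) =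
    (shl m k31, shl m k32, zadd (shl m k33) (lin m)) := by
  have h1 : (3 * m + 2) % 3 = 2 := by omega
  have h2 : (3 * m + 2) / 3 = m := by omega
  simp only [colE, h1, h2]

theorem DG_col (j : ℕ) (hj : chk j = true) :
    DG ubar (dl j) = fun e => (((colG j).getD e 0 : ℤ) : ℝ) / ((97200000000 : ℕ) : ℝ) := by
  simp only [chk, Bool.and_eq_true, Nat.ble_eq] at hj
  obtain ⟨⟨⟨⟨⟨n1, n2⟩, n3⟩, _⟩, _⟩, _⟩ := hj
  funext e
  unfold DG colG
  have hcase : j = 0 ∨ ∃ m, j = 3 * m + 1 ∨ j = 3 * m + 2 ∨ j = 3 * m + 3 := by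
    rcases j with _ | k
    · left; rfl
    · right; exact ⟨k / 3, by omega⟩
  rcases hcase with h | ⟨m, h | h | h⟩
  · subst h
    obtain ⟨c1, c2, c3, c4⟩ := comp_dl_zero
    rw [c1, c2, c3, c4]
    exact flat_col _ _ _ _ _ _ DE1_l DE2_l DE3_l n1 n2 n3 e
  · subst h
    obtain ⟨c1, c2, c3, c4⟩ := comp_dl_x m
    rw [colE_x] at n1 n2 n3 ⊢
    rw [c1, c2, c3, c4]
    exact flat_col _ _ _ _ _ _ (DE1_x m) (DE2_x m) (DE3_x m) n1 n2 n3 e
  · subst h
    obtain ⟨c1, c2, c3, c4⟩ := comp_dl_b m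
    rw [colE_b] at n1 n2 n3 ⊢
    rw [c1, c2, c3, c4]
    exact flat_col _ _ _ _ _ _ (DE1_b m) (DE2_b m) (DE3_b m) n1 n2 n3 e
  · subst h
    obtain ⟨c1, c2, c3, c4⟩ := comp_dl_m m
    rw [colE_m] at n1 n2 n3 ⊢
    rw [c1, c2, c3, c4]
    exact flat_col _ _ _ _ _ _ (DE1_m m) (DE2_m m) (DE3_m m) n1 n2 n3 e

theorem diagZ_eq (j : ℕ) : ((diagZ j : ℤ) : ℝ) = 97200000000 * dd j := by
  unfold diagZ dd
  generalize (j - 1) / 3 = k
  split_ifs
  · push_cast; ring
  · push_cast; ring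

theorem getD_shl_single (j : ℕ) (z : ℤ) (i : ℕ) :
    (shl j [z]).getD i 0 = if i = j then z else 0 := by
  rw [getD_shl]
  by_cases h : j ≤ i
  · rw [if_pos h]
    by_cases h' : i = j
    · subst h'; simp
    · rw [if_neg h', List.getD_eq_default]
      simp
      omega
  · rw [if_neg h, if_neg (by omega)]

theorem low_of_chk (j : ℕ) (hj : chk j = true) :
    nrm (dl j - Aop (DG ubar (dl j))) ≤ ENNReal.ofReal (7 / 10) := by
  rw [DG_col j hj]
  simp only [chk, Bool.and_eq_true, Nat.ble_eq] at hj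
  obtain ⟨⟨⟨⟨⟨n1, n2⟩, n3⟩, n4⟩, n5⟩, n6⟩ := hj
  have key := nrm_bound (colG j) (colG' j) 97200000000 (by norm_num)
    (if j < 79 then 972000000000000 else 0) j 75 (dl j) 680400000000000 ?_ ?_ (by omega) ?_ n5 ?_ n6
  · refine key.trans (ENNReal.ofReal_le_ofReal ?_)
    norm_num
  · intro i hi
    unfold dl
    by_cases h : i = j
    · subst h
      rw [if_pos rfl, if_pos rfl, if_pos hi]
      norm_num
    · rw [if_neg h, if_neg h]; ring
  · intro i hi
    unfold dl colG'
    by_cases h79 : j < 79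
    · rw [if_pos h79, if_neg (by omega)]; ring
    · rw [if_neg h79, getD_zadd, getD_shl_single]
      by_cases h : i = j
      · subst h
        rw [if_pos rfl, if_pos rfl]
        push_cast
        rw [diagZ_eq]
        ring
      · rw [if_neg h, if_neg h]; push_cast; ring
  · by_cases h : j < 79
    · left; exact h
    · right; rw [if_neg h]
  · split_ifs <;> norm_num

set_option maxRecDepth 100000 in
theorem chk_all : (List.range 97).all chk = true := by decide +kernel

/-- the low part of the linear bound -/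
theorem low_bound (j : ℕ) (hj : j < 97) :
    nrm (dl j - Aop (DG ubar (dl j))) ≤ ENNReal.ofReal (7 / 10) :=
  low_of_chk j (List.all_eq_true.mp chk_all j (List.mem_range.mpr hj))

end Pool.Agent.H.MP_9f60e7_an.NK
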