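import Pool.Agent.H.MP_9f60e7_an.Series

/-!
Part A: basic facts about the `l^1` norms `NN`, `nrm`.
-/

set_option autoImplicit false

namespace Pool.Agent.H.MP_9f60e7_an.NK

open PowerSeries
open scoped ENNReal

/-! ### the norm `NN` -/

theorem NN_mul (f g : PS) : NN (f * g) ≤ NN f * NN g := by
  unfold NN
  have h1 : ∀ n, ‖coeff n (f * g)‖ₑ ≤
      ∑ p ∈ Finset.HasAntidiagonal.antidiagonal n, ‖coeff p.1 f‖ₑ * ‖coeff p.2 g‖ₑ := by
    intro n
    rw [coeff_mul]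
    refine (enorm_sum_le _ _).trans ?_
    exact Finset.sum_le_sum fun p _ => (enorm_mul _ _).le
  refine (ENNReal.tsum_le_tsum h1).trans ?_
  have h2 : ∑' n, ∑ p ∈ Finset.HasAntidiagonal.antidiagonal n, ‖coeff p.1 f‖ₑ * ‖coeff p.2 g‖ₑ =
      ∑' p : ℕ × ℕ, ‖coeff p.1 f‖ₑ * ‖coeff p.2 g‖ₑ := by
    rw [← Finset.HasAntidiagonal.sigmaAntidiagonalEquivProd.tsum_eq, ENNReal.tsum_sigma']
    refine tsum_congr fun n => ?_
    rw [tsum_fintype, ← Finset.sum_coe_sort]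
    rfl
  rw [h2, ENNReal.tsum_prod']
  simp only [ENNReal.tsum_mul_left, ENNReal.tsum_mul_right, le_refl]

theorem NN_add (f g : PS) : NN (f + g) ≤ NN f + NN g := by
  unfold NN
  rw [← ENNReal.tsum_add]
  refine ENNReal.tsum_le_tsum fun n => ?_
  rw [map_add]
  exact enorm_add_le _ _

theorem NN_neg (f : PS) : NN (-f) = NN f := by
  unfold NN
  refine tsum_congr fun n => ?_
  rw [map_neg, enorm_neg]

theorem NN_sub (f g : PS) : NN (f - g) ≤ NN f + NN g := by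
  rw [sub_eq_add_neg, ← NN_neg g]
  exact NN_add f (-g)

theorem NN_C_mul (c : ℝ) (f : PS) : NN (C c * f) = ‖c‖ₑ * NN f := by
  unfold NN
  rw [← ENNReal.tsum_mul_left]
  refine tsum_congr fun n => ?_
  rw [coeff_C_mul, enorm_mul]

theorem NN_C (c : ℝ) : NN (C c) = ‖c‖ₑ := by
  unfold NN
  rw [tsum_eq_single 0]
  · simp
  · intro n hn
    simp [coeff_C, hn]

theorem NN_zero : NN 0 = 0 := by
  unfold NN
  simp

theorem NN_one : NN 1 = 1 := by
  have := NN_C 1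
  simpa using this

theorem NN_X_mul (f : PS) : NN (X * f) = NN f := by
  unfold NN
  rw [tsum_eq_zero_add' ENNReal.summable]
  simp [coeff_succ_X_mul]

theorem NN_shift_le (f : PS) (k : ℕ) : ∑' n, ‖coeff (n + k) f‖ₑ ≤ NN f := by
  unfold NN
  exact ENNReal.tsum_comp_le_tsum_of_injective (add_left_injective k) (fun n => ‖coeff n f‖ₑ)

theorem NN_PP (g : PS) : NN (PP g) ≤ ENNReal.ofReal (133 / 81) * NN g := by
  have h1 : NN (PP g) ≤ ∑' n, (‖coeff n g‖ₑ + ENNReal.ofReal (4 / 9) * ‖coeff (n + 2) g‖ₑ +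
      ENNReal.ofReal (16 / 81) * ‖coeff (n + 4) g‖ₑ) := by
    unfold NN
    refine ENNReal.tsum_le_tsum fun n => ?_
    unfold PP
    rw [coeff_mk]
    refine (enorm_add_le _ _).trans (add_le_add ((enorm_add_le _ _).trans (add_le_add le_rfl ?_)) ?_)
    · rw [enorm_mul, ← ofReal_norm (4 / 9 : ℝ), Real.norm_of_nonneg (by norm_num)]
    · rw [enorm_mul, ← ofReal_norm (16 / 81 : ℝ), Real.norm_of_nonneg (by norm_num)]
  refine h1.trans ?_
  rw [ENNReal.tsum_add, ENNReal.tsum_add, ENNReal.tsum_mul_left, ENNReal.tsum_mul_left]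
  have e : ENNReal.ofReal (133 / 81) * NN g = NN g + ENNReal.ofReal (4 / 9) * NN g +
      ENNReal.ofReal (16 / 81) * NN g := by
    have : ENNReal.ofReal (133 / 81) = 1 + ENNReal.ofReal (4 / 9) + ENNReal.ofReal (16 / 81) := by
      rw [← ENNReal.ofReal_one, ← ENNReal.ofReal_add (by norm_num) (by norm_num),
        ← ENNReal.ofReal_add (by norm_num) (by norm_num)]
      norm_num
    rw [this]
    ring
  rw [e]
  gcongr
  · exact le_rfl
  · exact NN_shift_le g 2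
  · exact NN_shift_le g 4

/-! ### the norm `nrm` -/

theorem tsum_mod3 (f : ℕ → ℝ≥0∞) :
    ∑' i, f i = ∑' n, f (3 * n) + ∑' n, f (3 * n + 1) + ∑' n, f (3 * n + 2) := by
  rw [← (Nat.divModEquiv 3).symm.tsum_eq, ENNReal.tsum_prod', ← ENNReal.tsum_add,
    ← ENNReal.tsum_add]
  refine tsum_congr fun n => ?_
  rw [tsum_fintype, Fin.sum_univ_three]
  simp [Nat.divModEquiv, mul_comm]

theorem nrm_eq (u : ℕ → ℝ) : nrm u = ‖cl u‖ₑ + NN (cx u) + NN (cb u) + NN (cm u) := by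
  unfold nrm NN cl cx cb cm
  rw [tsum_eq_zero_add' ENNReal.summable, tsum_mod3 (fun i => ‖u (i + 1)‖ₑ)]
  simp only [coeff_mk]
  ring

theorem nrm_add (u v : ℕ → ℝ) : nrm (u + v) ≤ nrm u + nrm v := by
  unfold nrm
  rw [← ENNReal.tsum_add]
  exact ENNReal.tsum_le_tsum fun n => enorm_add_le _ _

theorem nrm_neg (u : ℕ → ℝ) : nrm (-u) = nrm u := by
  unfold nrm
  simp

theorem nrm_sub (u v : ℕ → ℝ) : nrm (u - v) ≤ nrm u + nrm v := by
  rw [sub_eq_add_neg, ← nrm_neg v]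
  exact nrm_add u (-v)

theorem nrm_smul (c : ℝ) (u : ℕ → ℝ) : nrm (c • u) = ‖c‖ₑ * nrm u := by
  unfold nrm
  rw [← ENNReal.tsum_mul_left]
  simp

theorem enorm_le_nrm (u : ℕ → ℝ) (i : ℕ) : ‖u i‖ₑ ≤ nrm u := by
  unfold nrm
  exact ENNReal.le_tsum i

theorem cl_le_nrm (u : ℕ → ℝ) : ‖cl u‖ₑ ≤ nrm u := enorm_le_nrm u 0

theorem NN_cx_le_nrm (u : ℕ → ℝ) : NN (cx u) ≤ nrm u := by
  rw [nrm_eq]
  calc NN (cx u) ≤ ‖cl u‖ₑ + NN (cx u) := le_add_self
    _ ≤ _ := le_self_add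
    _ ≤ _ := le_self_add

theorem NN_cb_le_nrm (u : ℕ → ℝ) : NN (cb u) ≤ nrm u := by
  rw [nrm_eq]
  calc NN (cb u) ≤ ‖cl u‖ₑ + NN (cx u) + NN (cb u) := le_add_self
    _ ≤ _ := le_self_add

theorem NN_cm_le_nrm (u : ℕ → ℝ) : NN (cm u) ≤ nrm u := by
  rw [nrm_eq]
  exact le_add_self

end Pool.Agent.H.MP_9f60e7_an.NK
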