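import Pool.Agent.H.MP_9f60e7_an.NKLinear

/-!
Part A: the quadratic bound and the linear bound.
-/

set_option autoImplicit false

namespace Pool.Agent.H.MP_9f60e7_an.NK

open PowerSeries Filter Topology
open scoped ENNReal

/-- the norm of an interleaved sequence -/
theorem nrm_flat (g1 g2 g3 : PS) : nrm (flat g1 g2 g3) = NN g1 + NN g2 + NN g3 := by
  unfold nrm
  rw [tsum_eq_zero_add' ENNReal.summable, tsum_eq_zero_add' ENNReal.summable,
    tsum_mod3 (fun i => ‖flat g1 g2 g3 (i + 1 + 1)‖ₑ)]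
  have e0 : flat g1 g2 g3 0 = coeff 0 g2 := by simp [flat]
  have e1 : flat g1 g2 g3 (0 + 1) = coeff 0 g3 := by simp [flat]
  have e2 : ∀ n, flat g1 g2 g3 (3 * n + 1 + 1) = coeff (n + 1) g2 := by
    intro n
    unfold flat
    rw [if_neg (by omega), if_neg (by omega), if_pos (by omega)]
    congr 2
    omega
  have e3 : ∀ n, flat g1 g2 g3 (3 * n + 1 + 1 + 1) = coeff (n + 1) g3 := by
    intro n
    unfold flat
    rw [if_neg (by omega), if_neg (by omega), if_neg (by omega), if_pos (by omega)]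
    congr 2
    omega
  have e4 : ∀ n, flat g1 g2 g3 (3 * n + 2 + 1 + 1) = coeff n g1 := by
    intro n
    unfold flat
    rw [if_neg (by omega), if_neg (by omega), if_neg (by omega), if_neg (by omega)]
    congr 2
    omega
  simp only [e0, e1, e2, e3, e4]
  unfold NN
  rw [tsum_eq_zero_add' (f := fun n => ‖coeff n g2‖ₑ) ENNReal.summable,
    tsum_eq_zero_add' (f := fun n => ‖coeff n g3‖ₑ) ENNReal.summable]
  ring

/-! ### linearity of `Aop` -/

theorem Aop_add (g h : ℕ → ℝ) : Aop (g + h) = Aop g + Aop h := by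
  funext i
  simp only [Aop, Pi.add_apply]
  split_ifs
  · rw [← Finset.sum_add_distrib]
    exact Finset.sum_congr rfl fun e _ => by ring
  · ring

theorem Aop_sub (g h : ℕ → ℝ) : Aop (g - h) = Aop g - Aop h := by
  funext i
  simp only [Aop, Pi.sub_apply]
  split_ifs
  · rw [← Finset.sum_sub_distrib]
    exact Finset.sum_congr rfl fun e _ => by ring
  · ring

theorem Aop_smul (c : ℝ) (g : ℕ → ℝ) : Aop (c • g) = c • Aop g := by
  funext i
  simp only [Aop, Pi.smul_apply, smul_eq_mul]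
  split_ifs
  · rw [Finset.mul_sum]
    exact Finset.sum_congr rfl fun e _ => by ring
  · ring

theorem dd_abs {i : ℕ} (hi : 79 ≤ i) : 1 ≤ |dd i| := by
  unfold dd
  have h1 : 26 ≤ (i - 1) / 3 := by omega
  have h2 : (26 : ℝ) ≤ (((i - 1) / 3 : ℕ) : ℝ) := by exact_mod_cast h1
  split_ifs
  · rw [abs_of_nonneg (by linarith)]
    linarith
  · rw [abs_neg, abs_of_nonneg (by linarith)]
    linarith

theorem dd_ne {i : ℕ} (hi : 79 ≤ i) : dd i ≠ 0 := by
  have h := dd_abs hi
  intro h0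
  rw [h0, abs_zero] at h
  linarith

theorem tsum_split (N : ℕ) (f : ℕ → ℝ≥0∞) :
    ∑' i, f i = ∑ i ∈ Finset.range N, f i + ∑' i, f (i + N) :=
  (ENNReal.summable.sum_add_tsum_nat_add' (k := N)).symm

/-- `Aop` is bounded by the maximal column sum of the finite block. -/
theorem nrm_Aop (Acol : ∀ e < 79, ∑ i ∈ Finset.range 79, |Amat i e| ≤ 63) (g : ℕ → ℝ) :
    nrm (Aop g) ≤ ENNReal.ofReal 63 * nrm g := by
  unfold nrm
  rw [tsum_split 79 (fun i => ‖Aop g i‖ₑ), tsum_split 79 (fun i => ‖g i‖ₑ), mul_add]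
  refine add_le_add ?_ ?_
  · calc ∑ i ∈ Finset.range 79, ‖Aop g i‖ₑ
        ≤ ∑ i ∈ Finset.range 79, ∑ e ∈ Finset.range 79, ‖Amat i e‖ₑ * ‖g e‖ₑ := by
          refine Finset.sum_le_sum fun i hi => ?_
          rw [Finset.mem_range] at hi
          unfold Aop
          rw [if_pos hi]
          refine (enorm_sum_le _ _).trans ?_
          exact Finset.sum_le_sum fun e _ => (enorm_mul _ _).le
      _ = ∑ e ∈ Finset.range 79, (∑ i ∈ Finset.range 79, ‖Amat i e‖ₑ) * ‖g e‖ₑ := by
          rw [Finset.sum_comm]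
          exact Finset.sum_congr rfl fun e _ => (Finset.sum_mul _ _ _).symm
      _ ≤ ∑ e ∈ Finset.range 79, ENNReal.ofReal 63 * ‖g e‖ₑ := by
          refine Finset.sum_le_sum fun e he => ?_
          gcongr
          rw [Finset.mem_range] at he
          simp only [Real.enorm_eq_ofReal_abs]
          rw [← ENNReal.ofReal_sum_of_nonneg (fun i _ => abs_nonneg _)]
          exact ENNReal.ofReal_le_ofReal (Acol e he)
      _ = ENNReal.ofReal 63 * ∑ e ∈ Finset.range 79, ‖g e‖ₑ := by rw [Finset.mul_sum]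
  · rw [← ENNReal.tsum_mul_left]
    refine ENNReal.tsum_le_tsum fun i => ?_
    have hi : 79 ≤ i + 79 := by omega
    unfold Aop
    rw [if_neg (by omega), Real.enorm_eq_ofReal_abs, Real.enorm_eq_ofReal_abs,
      ← ENNReal.ofReal_mul (by norm_num)]
    refine ENNReal.ofReal_le_ofReal ?_
    rw [abs_div]
    have h1 := dd_abs hi
    have h2 := abs_nonneg (g (i + 79))
    rw [div_le_iff₀ (by linarith)]
    nlinarith

theorem NN_w2 : NN w2 ≤ ENNReal.ofReal (13 / 4) := by
  unfold w2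
  refine (NN_sub _ _).trans ?_
  rw [NN_one, NN_C_mul]
  have h : NN ((X : PS) ^ 2) = 1 := by
    rw [pow_two, NN_X_mul]
    have := NN_X_mul (1 : PS)
    rw [mul_one, NN_one] at this
    exact this
  rw [h, mul_one, Real.enorm_eq_ofReal_abs, ← ENNReal.ofReal_one,
    ← ENNReal.ofReal_add (by norm_num) (by positivity)]
  refine ENNReal.ofReal_le_ofReal ?_
  rw [abs_of_pos (by norm_num)]
  norm_num

theorem NN_wp : NN wp ≤ ENNReal.ofReal (5 / 2) := by
  unfold wp
  refine (NN_add _ _).trans ?_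
  rw [NN_one, NN_C_mul]
  have h : NN (X : PS) = 1 := by
    have := NN_X_mul (1 : PS)
    rw [mul_one, NN_one] at this
    exact this
  rw [h, mul_one, Real.enorm_eq_ofReal_abs, ← ENNReal.ofReal_one,
    ← ENNReal.ofReal_add (by norm_num) (by positivity)]
  refine ENNReal.ofReal_le_ofReal ?_
  rw [abs_of_pos (by norm_num)]
  norm_num

theorem NN_mul_le {f g : PS} {a b : ℝ≥0∞} (hf : NN f ≤ a) (hg : NN g ≤ b) : NN (f * g) ≤ a * b :=
  (NN_mul f g).trans (mul_le_mul' hf hg)

theorem NN_C_mul_le {c : ℝ} {f : PS} {a b : ℝ≥0∞} (hc : ‖c‖ₑ ≤ a) (hf : NN f ≤ b) :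
    NN (C c * f) ≤ a * b := by
  rw [NN_C_mul]
  exact mul_le_mul' hc hf

theorem NN_add_le {f g : PS} {a b : ℝ≥0∞} (hf : NN f ≤ a) (hg : NN g ≤ b) : NN (f + g) ≤ a + b :=
  (NN_add f g).trans (add_le_add hf hg)

theorem NN_sub_le {f g : PS} {a b : ℝ≥0∞} (hf : NN f ≤ a) (hg : NN g ≤ b) : NN (f - g) ≤ a + b :=
  (NN_sub f g).trans (add_le_add hf hg)

theorem enorm_half : ‖(1 / 2 : ℝ)‖ₑ ≤ 1 := by
  rw [Real.enorm_eq_ofReal_abs, ← ENNReal.ofReal_one]
  refine ENNReal.ofReal_le_ofReal ?_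
  rw [abs_of_pos (by norm_num)]
  norm_num

theorem nrm_BG (s h : ℕ → ℝ) : nrm (BG s h) ≤ ENNReal.ofReal 7 * (nrm s * nrm h) := by
  unfold BG
  rw [nrm_flat, nrm_eq s, nrm_eq h]
  have hC : ∀ c : ℝ, NN (C c) ≤ ‖c‖ₑ := fun c => (NN_C c).le
  set sl := ‖cl s‖ₑ
  set sX := NN (cx s) with hsX
  set sB := NN (cb s) with hsB
  set sM := NN (cm s) with hsM
  set hl := ‖cl h‖ₑ
  set hX := NN (cx h) with hhX
  set hB := NN (cb h) with hhB
  set hM := NN (cm h) with hhM
  have h54 : (ENNReal.ofReal (5 / 2)) ≤ ENNReal.ofReal (13 / 4) :=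
    ENNReal.ofReal_le_ofReal (by norm_num)
  have h14 : (1 : ℝ≥0∞) ≤ ENNReal.ofReal (13 / 4) := by
    rw [← ENNReal.ofReal_one]
    exact ENNReal.ofReal_le_ofReal (by norm_num)
  have hwp : NN wp ≤ ENNReal.ofReal (13 / 4) := NN_wp.trans h54
  have b1 : NN (BE1 (cl s) (cx s) (cb s) (cm s) (cl h) (cx h) (cb h) (cm h)) ≤
      1 * (sX * hB + sB * hX) + 1 * (sl * hM + hl * sM) := by
    unfold BE1
    exact NN_sub_le (NN_C_mul_le enorm_half (NN_add_le (NN_mul_le le_rfl le_rfl)
      (NN_mul_le le_rfl le_rfl))) (NN_C_mul_le enorm_half (NN_add_le (NN_mul_le (hC _) le_rfl)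
      (NN_mul_le (hC _) le_rfl)))
  have b2 : NN (BE2 (cl s) (cx s) (cb s) (cm s) (cl h) (cx h) (cb h) (cm h)) ≤
      ENNReal.ofReal (13 / 4) * (sM * hM) + ENNReal.ofReal (13 / 4) * (sX * hM + sM * hX)
        + ENNReal.ofReal (13 / 4) * (sX * hX) := by
    unfold BE2
    refine NN_sub_le (NN_add_le (NN_mul_le NN_w2 (NN_mul_le le_rfl le_rfl))
      (NN_mul_le hwp (NN_add_le (NN_mul_le le_rfl le_rfl)
      (NN_mul_le le_rfl le_rfl)))) ?_
    exact (NN_mul_le le_rfl le_rfl).trans (le_mul_of_one_le_left' h14)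
  have b3 : NN (BE3 (cl s) (cx s) (cb s) (cm s) (cl h) (cx h) (cb h) (cm h)) ≤
      ENNReal.ofReal (13 / 4) * (sM * hB + sB * hM) + ENNReal.ofReal (13 / 4) * (sB * hX + sX * hB)
        + ENNReal.ofReal (13 / 4) * (sl * hX + hl * sX) := by
    unfold BE3
    refine NN_add_le (NN_sub_le ?_ (NN_mul_le hwp (NN_add_le (NN_mul_le le_rfl le_rfl)
      (NN_mul_le le_rfl le_rfl)))) ?_
    · rw [NN_neg, mul_assoc]
      refine (NN_C_mul_le enorm_half (NN_mul_le NN_w2 (NN_add_le (NN_mul_le le_rfl le_rfl)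
        (NN_mul_le le_rfl le_rfl)))).trans ?_
      rw [one_mul]
    · refine (NN_C_mul_le enorm_half (NN_add_le (NN_mul_le (hC _) le_rfl)
        (NN_mul_le (hC _) le_rfl))).trans ?_
      exact mul_le_mul' h14 le_rfl
  have hcw : ENNReal.ofReal (133 / 81) * ENNReal.ofReal (13 / 4) ≤ ENNReal.ofReal 6 := by
    rw [← ENNReal.ofReal_mul (by norm_num)]
    exact ENNReal.ofReal_le_ofReal (by norm_num)
  have h7 : ENNReal.ofReal 7 = 1 + ENNReal.ofReal 6 := by
    rw [← ENNReal.ofReal_one, ← ENNReal.ofReal_add (by norm_num) (by norm_num)]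
    norm_num
  calc NN (BE1 (cl s) (cx s) (cb s) (cm s) (cl h) (cx h) (cb h) (cm h)) +
        NN (PP (BE2 (cl s) (cx s) (cb s) (cm s) (cl h) (cx h) (cb h) (cm h))) +
        NN (PP (BE3 (cl s) (cx s) (cb s) (cm s) (cl h) (cx h) (cb h) (cm h)))
      ≤ (1 * (sX * hB + sB * hX) + 1 * (sl * hM + hl * sM)) +
        ENNReal.ofReal (133 / 81) * (ENNReal.ofReal (13 / 4) * (sM * hM)
          + ENNReal.ofReal (13 / 4) * (sX * hM + sM * hX) + ENNReal.ofReal (13 / 4) * (sX * hX)) +
        ENNReal.ofReal (133 / 81) * (ENNReal.ofReal (13 / 4) * (sM * hB + sB * hM)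
          + ENNReal.ofReal (13 / 4) * (sB * hX + sX * hB)
          + ENNReal.ofReal (13 / 4) * (sl * hX + hl * sX)) := by
        refine add_le_add (add_le_add b1 ?_) ?_
        · exact (NN_PP _).trans (mul_le_mul' le_rfl b2)
        · exact (NN_PP _).trans (mul_le_mul' le_rfl b3)
    _ = (sX * hB + sB * hX + sl * hM + sM * hl) +
        (ENNReal.ofReal (133 / 81) * ENNReal.ofReal (13 / 4)) *
          (sM * hM + sX * hM + sM * hX + sX * hX + sM * hB + sB * hM + sB * hX + sX * hB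
            + sl * hX + sX * hl) := by ring
    _ ≤ (sl + sX + sB + sM) * (hl + hX + hB + hM) +
        ENNReal.ofReal 6 * ((sl + sX + sB + sM) * (hl + hX + hB + hM)) := by
        refine add_le_add ?_ (mul_le_mul' hcw ?_)
        · have e : (sl + sX + sB + sM) * (hl + hX + hB + hM) =
              (sX * hB + sB * hX + sl * hM + sM * hl) + (sl * hl + sl * hX + sl * hB
              + sX * hl + sX * hX + sX * hM + sB * hl + sB * hB + sB * hM
              + sM * hX + sM * hB + sM * hM) := by ring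
          rw [e]
          exact le_self_add
        · have e : (sl + sX + sB + sM) * (hl + hX + hB + hM) =
              (sM * hM + sX * hM + sM * hX + sX * hX + sM * hB + sB * hM + sB * hX + sX * hB
            + sl * hX + sX * hl) + (sl * hl + sl * hB + sl * hM + sB * hl + sB * hB
              + sM * hl) := by ring
          rw [e]
          exact le_self_add
    _ = ENNReal.ofReal 7 * ((sl + sX + sB + sM) * (hl + hX + hB + hM)) := by
        rw [h7]
        ring

/-- JOB B4: quadratic bound -/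
theorem quad_bound (Acol : ∀ e < 79, ∑ i ∈ Finset.range 79, |Amat i e| ≤ 63) (s h : ℕ → ℝ) :
    nrm (Aop (BG s h)) ≤ ENNReal.ofReal 700 * nrm s * nrm h := by
  refine (nrm_Aop Acol _).trans ?_
  calc ENNReal.ofReal 63 * nrm (BG s h)
      ≤ ENNReal.ofReal 63 * (ENNReal.ofReal 7 * (nrm s * nrm h)) :=
        mul_le_mul' le_rfl (nrm_BG s h)
    _ = (ENNReal.ofReal 63 * ENNReal.ofReal 7) * (nrm s * nrm h) := by ring
    _ ≤ ENNReal.ofReal 700 * (nrm s * nrm h) := by
        refine mul_le_mul' ?_ le_rfl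
        rw [← ENNReal.ofReal_mul (by norm_num)]
        exact ENNReal.ofReal_le_ofReal (by norm_num)
    _ = ENNReal.ofReal 700 * nrm s * nrm h := by ring

/-! ### the linear bound -/

/-- the linear operator `1 - Aop ∘ DG ubar` -/
noncomputable def RR (h : ℕ → ℝ) : ℕ → ℝ := h - Aop (DG ubar h)

theorem RR_add (g h : ℕ → ℝ) : RR (g + h) = RR g + RR h := by
  unfold RR
  rw [DG_add, Aop_add]
  abel

theorem RR_smul (c : ℝ) (h : ℕ → ℝ) : RR (c • h) = c • RR h := by
  unfold RR
  rw [DG_smul, Aop_smul, smul_sub]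

/-- JOB B5: linear bound from the low and the high part. -/
theorem lin_bound
    (low_bound : ∀ j < 97, nrm (dl j - Aop (DG ubar (dl j))) ≤ ENNReal.ofReal (7 / 10))
    (high_bound : ∀ h : ℕ → ℝ, (∀ j < 97, h j = 0) →
      nrm (h - Aop (DG ubar h)) ≤ ENNReal.ofReal (7 / 10) * nrm h)
    (h : ℕ → ℝ) : nrm (h - Aop (DG ubar h)) ≤ ENNReal.ofReal (7 / 10) * nrm h := by
  -- the part below index `N`
  set lo : ℕ → ℕ → ℝ := fun N i => if i < N then h i else 0 with hlo
  set hi : ℕ → ℝ := fun i => if i < 97 then 0 else h i with hhi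
  have hlo_succ : ∀ N, lo (N + 1) = lo N + h N • dl N := by
    intro N
    funext i
    simp only [hlo, Pi.add_apply, Pi.smul_apply, smul_eq_mul, dl]
    by_cases h1 : i < N
    · rw [if_pos h1, if_pos (by omega), if_neg (by omega)]
      ring
    · by_cases h2 : i = N
      · subst h2
        rw [if_pos (by omega), if_neg (by omega), if_pos rfl]
        ring
      · rw [if_neg h1, if_neg (by omega), if_neg h2]
        ring
  have hlow : ∀ N ≤ 97, nrm (RR (lo N)) ≤
      ENNReal.ofReal (7 / 10) * ∑ j ∈ Finset.range N, ‖h j‖ₑ := by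
    intro N
    induction N with
    | zero =>
      intro _
      have h0 : lo 0 = (0 : ℝ) • h := by
        funext i
        simp [hlo]
      rw [h0, RR_smul, nrm_smul]
      simp
    | succ N ih =>
      intro hN
      rw [hlo_succ, RR_add, RR_smul, Finset.sum_range_succ, mul_add]
      refine (nrm_add _ _).trans (add_le_add (ih (by omega)) ?_)
      rw [nrm_smul, mul_comm]
      exact mul_le_mul' (low_bound N (by omega)) le_rfl
  have hdec : h = lo 97 + hi := by
    funext i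
    simp only [hlo, hhi, Pi.add_apply]
    split_ifs <;> ring
  have hhigh : nrm (RR hi) ≤ ENNReal.ofReal (7 / 10) * nrm hi := by
    refine high_bound hi fun j hj => ?_
    simp only [hhi]
    rw [if_pos hj]
  have hsplit : nrm h = ∑ j ∈ Finset.range 97, ‖h j‖ₑ + nrm hi := by
    unfold nrm
    rw [tsum_split 97 (fun i => ‖h i‖ₑ), tsum_split 97 (fun i => ‖hi i‖ₑ)]
    have e1 : ∑ i ∈ Finset.range 97, ‖hi i‖ₑ = 0 := by
      refine Finset.sum_eq_zero fun i hi' => ?_
      rw [Finset.mem_range] at hi'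
      simp only [hhi]
      rw [if_pos hi']
      simp
    have e2 : ∑' i, ‖hi (i + 97)‖ₑ = ∑' i, ‖h (i + 97)‖ₑ := by
      refine tsum_congr fun i => ?_
      simp only [hhi]
      rw [if_neg (by omega)]
    rw [e1, e2, zero_add]
  change nrm (RR h) ≤ _
  rw [hsplit, mul_add]
  conv_lhs => rw [hdec]
  rw [RR_add]
  exact (nrm_add _ _).trans (add_le_add (hlow 97 le_rfl) hhigh)

end Pool.Agent.H.MP_9f60e7_an.NK
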