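import Pool.Agent.H.MP_9f60e7_an.NKBasic

/-!
Part A: fixed point lemma.
-/

set_option autoImplicit false

namespace Pool.Agent.H.MP_9f60e7_an.NK

open PowerSeries Filter Topology
open scoped ENNReal

theorem nrm_le_of_tendsto {v : ℕ → ℕ → ℝ} {u : ℕ → ℝ} (hv : Tendsto v atTop (𝓝 u)) {c : ℝ≥0∞}
    (hc : ∀ k, nrm (v k) ≤ c) : nrm u ≤ c := by
  unfold nrm
  rw [ENNReal.tsum_eq_iSup_sum]
  refine iSup_le fun s => ?_
  have h1 : Tendsto (fun k => ∑ i ∈ s, ‖v k i‖ₑ) atTop (𝓝 (∑ i ∈ s, ‖u i‖ₑ)) := by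
    refine tendsto_finsetSum s fun i _ => ?_
    exact ((continuous_enorm.comp (continuous_apply i)).tendsto u).comp hv
  refine le_of_tendsto h1 (Eventually.of_forall fun k => ?_)
  exact (ENNReal.sum_le_tsum s).trans (hc k)

/-- JOB B1: fixed point lemma on sequences, coordinatewise continuity suffices. -/
theorem contraction (F : (ℕ → ℝ) → (ℕ → ℝ)) (hF : Continuous F) (u0 : ℕ → ℝ) (r ε κ : ℝ)
    (h0 : 0 ≤ r) (h1 : 0 ≤ ε) (h2 : 0 ≤ κ) (hκ : κ < 1) (hr : ε + κ * r ≤ r)
    (hε : nrm (F u0 - u0) ≤ ENNReal.ofReal ε)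
    (hL : ∀ u v : ℕ → ℝ, nrm (u - u0) ≤ ENNReal.ofReal r → nrm (v - u0) ≤ ENNReal.ofReal r →
      nrm (F u - F v) ≤ ENNReal.ofReal κ * nrm (u - v)) :
    ∃ u : ℕ → ℝ, F u = u ∧ nrm (u - u0) ≤ ENNReal.ofReal r := by
  have hn0 : nrm (u0 - u0) ≤ ENNReal.ofReal r := by
    rw [sub_self]
    simp [nrm]
  set v : ℕ → ℕ → ℝ := fun k => F^[k] u0 with hv
  have hsucc : ∀ k, v (k + 1) = F (v k) := fun k => Function.iterate_succ_apply' F k u0
  have hball : ∀ k, nrm (v k - u0) ≤ ENNReal.ofReal r := by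
    intro k
    induction k with
    | zero => exact hn0
    | succ k ih =>
      rw [hsucc]
      calc nrm (F (v k) - u0) = nrm ((F (v k) - F u0) + (F u0 - u0)) := by
            rw [sub_add_sub_cancel]
        _ ≤ nrm (F (v k) - F u0) + nrm (F u0 - u0) := nrm_add _ _
        _ ≤ ENNReal.ofReal κ * nrm (v k - u0) + ENNReal.ofReal ε :=
            add_le_add (hL _ _ ih hn0) hε
        _ ≤ ENNReal.ofReal κ * ENNReal.ofReal r + ENNReal.ofReal ε := by gcongr
        _ = ENNReal.ofReal (κ * r + ε) := by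
            rw [← ENNReal.ofReal_mul h2, ← ENNReal.ofReal_add (mul_nonneg h2 h0) h1]
        _ ≤ ENNReal.ofReal r := ENNReal.ofReal_le_ofReal (by linarith)
  have hstep : ∀ k, nrm (v (k + 1) - v k) ≤ ENNReal.ofReal (ε * κ ^ k) := by
    intro k
    induction k with
    | zero =>
      rw [hsucc, pow_zero, mul_one]
      exact hε
    | succ k ih =>
      rw [hsucc (k + 1), hsucc k]
      calc nrm (F (F (v k)) - F (v k)) ≤ ENNReal.ofReal κ * nrm (F (v k) - v k) := by
            refine hL _ _ ?_ (hball k)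
            rw [← hsucc]
            exact hball (k + 1)
        _ ≤ ENNReal.ofReal κ * ENNReal.ofReal (ε * κ ^ k) := by
            rw [← hsucc]
            gcongr
        _ = ENNReal.ofReal (ε * κ ^ (k + 1)) := by
            rw [← ENNReal.ofReal_mul h2]
            congr 1
            ring
  have hcau : ∀ i, CauchySeq fun k => v k i := by
    intro i
    refine cauchySeq_of_le_geometric κ ε hκ fun k => ?_
    have h3 : ‖(v (k + 1) - v k) i‖ₑ ≤ ENNReal.ofReal (ε * κ ^ k) :=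
      (enorm_le_nrm _ i).trans (hstep k)
    rw [dist_comm, Real.dist_eq]
    rw [Real.enorm_eq_ofReal_abs] at h3
    exact (ENNReal.ofReal_le_ofReal_iff (by positivity)).1 h3
  choose u hu using fun i => cauchySeq_tendsto_of_complete (hcau i)
  have hvu : Tendsto v atTop (𝓝 u) := tendsto_pi_nhds.2 hu
  refine ⟨u, ?_, ?_⟩
  · have h3 : Tendsto (fun k => v (k + 1)) atTop (𝓝 u) := (tendsto_add_atTop_iff_nat 1).2 hvu
    have h4 : Tendsto (fun k => F (v k)) atTop (𝓝 (F u)) := (hF.tendsto u).comp hvu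
    have h5 : (fun k => v (k + 1)) = fun k => F (v k) := funext hsucc
    rw [h5] at h3
    exact tendsto_nhds_unique h4 h3
  · refine nrm_le_of_tendsto (v := fun k => v k - u0) ?_ hball
    exact hvu.sub_const u0

end Pool.Agent.H.MP_9f60e7_an.NK
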