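import Pool.Agent.H.MP_9f60e7_an.NKBasic

/-!
Part A: continuity of `T`, algebra of `G`, `DG`, `BG`.
-/

set_option autoImplicit false

namespace Pool.Agent.H.MP_9f60e7_an.NK

open PowerSeries Filter Topology
open scoped ENNReal

/-! ### continuity -/

/-- coefficientwise continuous dependence on the unknown -/
def CC (f : (ℕ → ℝ) → PS) : Prop := ∀ n, Continuous fun u => coeff n (f u)

theorem CC.add {f g : (ℕ → ℝ) → PS} (hf : CC f) (hg : CC g) : CC fun u => f u + g u := by
  intro n
  simp only [map_add]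
  exact (hf n).add (hg n)

theorem CC.sub {f g : (ℕ → ℝ) → PS} (hf : CC f) (hg : CC g) : CC fun u => f u - g u := by
  intro n
  simp only [map_sub]
  exact (hf n).sub (hg n)

theorem CC.mul {f g : (ℕ → ℝ) → PS} (hf : CC f) (hg : CC g) : CC fun u => f u * g u := by
  intro n
  simp only [coeff_mul]
  exact continuous_finsetSum _ fun p _ => (hf _).mul (hg _)

theorem CC.const (f : PS) : CC fun _ => f := fun _ => continuous_const

theorem CC.C {c : (ℕ → ℝ) → ℝ} (hc : Continuous c) : CC fun u => C (c u) := by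
  intro n
  simp only [coeff_C]
  split_ifs
  · exact hc
  · exact continuous_const

theorem CC.deriv {f : (ℕ → ℝ) → PS} (hf : CC f) : CC fun u => d⁄dX ℝ (f u) := by
  intro n
  simp only [coeff_derivative]
  exact (hf _).mul continuous_const

theorem CC.PP {f : (ℕ → ℝ) → PS} (hf : CC f) : CC fun u => PP (f u) := by
  intro n
  unfold NK.PP
  simp only [coeff_mk]
  exact ((hf _).add (continuous_const.mul (hf _))).add (continuous_const.mul (hf _))

theorem CC_cx : CC cx := by
  intro n
  unfold cx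
  simp only [coeff_mk]
  exact continuous_apply _

theorem CC_cb : CC cb := by
  intro n
  unfold cb
  simp only [coeff_mk]
  exact continuous_apply _

theorem CC_cm : CC cm := by
  intro n
  unfold cm
  simp only [coeff_mk]
  exact continuous_apply _

theorem continuous_cl : Continuous cl := continuous_apply 0

theorem CC_E1 : CC fun u => E1 (cl u) (cx u) (cb u) (cm u) := by
  unfold E1
  exact (((CC.const _).mul CC_cx.deriv).add (CC_cx.mul CC_cb)).sub
    ((CC.C continuous_cl).mul CC_cm)

theorem CC_E2 : CC fun u => E2 (cl u) (cx u) (cb u) (cm u) := by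
  unfold E2
  exact ((((((CC.const _).mul CC_cb.deriv).add ((CC.const _).mul CC_cb)).add
    (CC.C continuous_cl)).add ((CC.const _).mul (CC_cm.mul CC_cm))).add
    ((CC.const _).mul (CC_cx.mul CC_cm))).sub (CC_cx.mul CC_cx)

theorem CC_E3 : CC fun u => E3 (cl u) (cx u) (cb u) (cm u) := by
  unfold E3
  exact (((((CC.const _).mul CC_cm.deriv).add ((CC.const _).mul CC_cm)).sub
    ((CC.const _).mul (CC_cm.mul CC_cb))).sub
    ((CC.const _).mul (CC_cb.mul CC_cx))).add
    ((CC.C (continuous_cl.add continuous_const)).mul CC_cx)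

theorem continuous_flat {g1 g2 g3 : (ℕ → ℝ) → PS} (h1 : CC g1) (h2 : CC g2) (h3 : CC g3) (e : ℕ) :
    Continuous fun u => flat (g1 u) (g2 u) (g3 u) e := by
  unfold flat
  split_ifs
  · exact h2 _
  · exact h3 _
  · exact h2 _
  · exact h3 _
  · exact h1 _

theorem continuous_G (e : ℕ) : Continuous fun u => G u e := by
  unfold G
  exact continuous_flat CC_E1 CC_E2.PP CC_E3.PP e

/-- JOB B2 -/
theorem T_continuous : Continuous T := by
  refine continuous_pi fun i => ?_
  unfold T Aop
  refine (continuous_apply i).sub ?_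
  split_ifs
  · exact continuous_finsetSum _ fun e _ => continuous_const.mul (continuous_G e)
  · exact (continuous_G i).div_const _

/-! ### linearity of the building blocks -/

theorem flat_add (g1 g2 g3 h1 h2 h3 : PS) :
    flat (g1 + h1) (g2 + h2) (g3 + h3) = flat g1 g2 g3 + flat h1 h2 h3 := by
  funext e
  simp only [flat, Pi.add_apply, map_add]
  split_ifs <;> rfl

theorem flat_sub (g1 g2 g3 h1 h2 h3 : PS) :
    flat (g1 - h1) (g2 - h2) (g3 - h3) = flat g1 g2 g3 - flat h1 h2 h3 := by
  funext e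
  simp only [flat, Pi.sub_apply, map_sub]
  split_ifs <;> rfl

theorem flat_smul (c : ℝ) (g1 g2 g3 : PS) :
    flat (C c * g1) (C c * g2) (C c * g3) = c • flat g1 g2 g3 := by
  funext e
  simp only [flat, Pi.smul_apply, coeff_C_mul, smul_eq_mul]
  split_ifs <;> rfl

theorem PP_add (f g : PS) : PP (f + g) = PP f + PP g := by
  ext n
  simp only [PP, coeff_mk, map_add]
  ring

theorem PP_sub (f g : PS) : PP (f - g) = PP f - PP g := by
  ext n
  simp only [PP, coeff_mk, map_sub]
  ring

theorem PP_smul (c : ℝ) (f : PS) : PP (C c * f) = C c * PP f := by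
  ext n
  simp only [PP, coeff_mk, coeff_C_mul]
  ring

theorem cl_add (u v : ℕ → ℝ) : cl (u + v) = cl u + cl v := rfl
theorem cl_sub (u v : ℕ → ℝ) : cl (u - v) = cl u - cl v := rfl
theorem cl_smul (c : ℝ) (u : ℕ → ℝ) : cl (c • u) = c * cl u := rfl
theorem cx_add (u v : ℕ → ℝ) : cx (u + v) = cx u + cx v := by ext n; simp [cx]
theorem cx_sub (u v : ℕ → ℝ) : cx (u - v) = cx u - cx v := by ext n; simp [cx]
theorem cx_smul (c : ℝ) (u : ℕ → ℝ) : cx (c • u) = C c * cx u := by
  ext n; rw [coeff_C_mul]; simp [cx]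
theorem cb_add (u v : ℕ → ℝ) : cb (u + v) = cb u + cb v := by ext n; simp [cb]
theorem cb_sub (u v : ℕ → ℝ) : cb (u - v) = cb u - cb v := by ext n; simp [cb]
theorem cb_smul (c : ℝ) (u : ℕ → ℝ) : cb (c • u) = C c * cb u := by
  ext n; rw [coeff_C_mul]; simp [cb]
theorem cm_add (u v : ℕ → ℝ) : cm (u + v) = cm u + cm v := by ext n; simp [cm]
theorem cm_sub (u v : ℕ → ℝ) : cm (u - v) = cm u - cm v := by ext n; simp [cm]
theorem cm_smul (c : ℝ) (u : ℕ → ℝ) : cm (c • u) = C c * cm u := by
  ext n; rw [coeff_C_mul]; simp [cm]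

theorem deriv_C_mul (c : ℝ) (f : PS) : d⁄dX ℝ (C c * f) = C c * d⁄dX ℝ f := by
  ext n
  rw [coeff_C_mul, coeff_derivative, coeff_derivative, coeff_C_mul]
  ring

theorem two_C_half : (2 : PS) * C (1 / 2 : ℝ) = 1 := by
  have h : (2 : PS) = C (2 : ℝ) := (map_ofNat (C : ℝ →+* PS) 2).symm
  rw [h, ← map_mul]
  norm_num

theorem DG_add (w g h : ℕ → ℝ) : DG w (g + h) = DG w g + DG w h := by
  unfold DG
  rw [← flat_add, ← PP_add, ← PP_add]
  congr 1
  · simp only [DE1, cl_add, cx_add, cb_add, cm_add, map_add]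
    ring
  · congr 1
    simp only [DE2, cl_add, cx_add, cb_add, cm_add, map_add]
    ring
  · congr 1
    simp only [DE3, cl_add, cx_add, cb_add, cm_add, map_add]
    ring

theorem DG_sub (w g h : ℕ → ℝ) : DG w (g - h) = DG w g - DG w h := by
  unfold DG
  rw [← flat_sub, ← PP_sub, ← PP_sub]
  congr 1
  · simp only [DE1, cl_sub, cx_sub, cb_sub, cm_sub, map_sub]
    ring
  · congr 1
    simp only [DE2, cl_sub, cx_sub, cb_sub, cm_sub, map_sub]
    ring
  · congr 1
    simp only [DE3, cl_sub, cx_sub, cb_sub, cm_sub, map_sub, map_add]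
    ring

theorem DG_smul (w : ℕ → ℝ) (c : ℝ) (h : ℕ → ℝ) : DG w (c • h) = c • DG w h := by
  unfold DG
  rw [← flat_smul, ← PP_smul, ← PP_smul]
  congr 1
  · simp only [DE1, cl_smul, cx_smul, cb_smul, cm_smul, map_mul, deriv_C_mul]
    ring
  · congr 1
    simp only [DE2, cl_smul, cx_smul, cb_smul, cm_smul, map_mul, deriv_C_mul]
    ring
  · congr 1
    simp only [DE3, cl_smul, cx_smul, cb_smul, cm_smul, map_mul, deriv_C_mul]
    ring

/-- JOB B3: exact quadratic expansion -/
theorem G_sub (u v w : ℕ → ℝ) :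
    G u - G v = DG w (u - v) + BG (u + v - (2 : ℝ) • w) (u - v) := by
  unfold G DG BG
  rw [← flat_sub, ← flat_add, ← PP_sub, ← PP_sub, ← PP_add, ← PP_add]
  have h2 := two_C_half
  congr 1
  · simp only [E1, DE1, BE1, cl_sub, cx_sub, cb_sub, cm_sub, cl_add, cx_add, cb_add, cm_add,
      cl_smul, cx_smul, cb_smul, cm_smul, map_sub, map_add, map_mul, map_ofNat]
    linear_combination (-((cx u * cb u - cx v * cb v) - cx w * (cb u - cb v)
      - cb w * (cx u - cx v) - (C (cl u) * cm u - C (cl v) * cm v) + C (cl w) * (cm u - cm v)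
      + (C (cl u) - C (cl v)) * cm w)) * h2
  · congr 1
    simp only [E2, DE2, BE2, cl_sub, cx_sub, cb_sub, cm_sub, cl_add, cx_add, cb_add, cm_add,
      cl_smul, cx_smul, cb_smul, cm_smul, map_sub, map_add, map_mul, map_ofNat]
    ring
  · congr 1
    simp only [E3, DE3, BE3, cl_sub, cx_sub, cb_sub, cm_sub, cl_add, cx_add, cb_add, cm_add,
      cl_smul, cx_smul, cb_smul, cm_smul, map_sub, map_add, map_mul, map_ofNat, map_one]
    linear_combination (-(-(w2 * (cm u * cb u - cm v * cb v)) + w2 * (cm w * (cb u - cb v)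
      + cb w * (cm u - cm v)) + (C (cl u) * cx u - C (cl v) * cx v) - C (cl w) * (cx u - cx v)
      - (C (cl u) - C (cl v)) * cx w)) * h2

end Pool.Agent.H.MP_9f60e7_an.NK
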