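import Pool.Agent.H.MP_9f60e7_an.Low

/-!
Part A: the residual of the approximate solution.
-/

set_option autoImplicit false

namespace Pool.Agent.H.MP_9f60e7_an.NK

open PowerSeries Finset
open scoped ENNReal

/-- product of lists as polynomials -/
def mulL : List ℤ → List ℤ → List ℤ
  | [], _ => []
  | a :: l, m => zadd (smul a m) (0 :: mulL l m)

/-- auxiliary for the derivative -/
def derA : ℕ → List ℤ → List ℤ
  | _, [] => []
  | k, a :: l => (k : ℤ) * a :: derA (k + 1) l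

/-- derivative of a list -/
def derL (l : List ℤ) : List ℤ := derA 1 l.tail

theorem lp_mulL (l m : List ℤ) : lp (mulL l m) = lp l * lp m := by
  induction l with
  | nil => simp [mulL, lp_nil]
  | cons a l ih =>
    rw [mulL, lp_zadd, lp_smul, lp_cons, lp_cons, ih]
    simp only [Int.cast_zero, map_zero]
    ring

theorem getD_derA (l : List ℤ) (k n : ℕ) : (derA k l).getD n 0 = ((k + n : ℕ) : ℤ) * l.getD n 0 := by
  induction l generalizing k n with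
  | nil => simp [derA]
  | cons a l ih =>
    cases n with
    | zero => simp [derA]
    | succ n =>
      rw [derA, List.getD_cons_succ, ih, List.getD_cons_succ]
      congr 2
      omega

theorem lp_derL (l : List ℤ) : lp (derL l) = d⁄dX ℝ (lp l) := by
  ext n
  rw [coeff_lp, derL, getD_derA, getD_tail, coeff_derivative, coeff_lp]
  push_cast
  ring

/-- residual lists, scaled by `12 * 10^16` -/
def r1 : List ℤ :=
  zadd (smul (16 * S0) (derL xL)) (zadd (smul 12 (mulL xL bL)) (smul (-12 * lamZ) mL))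
/-- residual list -/
def r2 : List ℤ :=
  zadd (smul (16 * S0) (derL bL)) (zadd (0 :: 0 :: smul (-36 * S0) (derL bL))
    (zadd (smul (36 * S0) bL) (zadd (0 :: smul (-54 * S0) bL) (zadd [12 * lamZ * S0]
      (zadd (smul 12 (mulL mL mL)) (zadd (0 :: 0 :: smul (-27) (mulL mL mL))
        (zadd (smul 24 (mulL xL mL)) (zadd (0 :: smul 36 (mulL xL mL))
          (smul (-12) (mulL xL xL))))))))))
/-- residual list -/
def r3 : List ℤ :=
  zadd (smul (16 * S0) (derL mL)) (zadd (0 :: 0 :: smul (-36 * S0) (derL mL))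
    (zadd (smul (36 * S0) mL) (zadd (0 :: smul (-54 * S0) mL)
      (zadd (smul (-12) (mulL mL bL)) (zadd (0 :: 0 :: smul 27 (mulL mL bL))
        (zadd (smul (-24) (mulL bL xL)) (zadd (0 :: smul (-36) (mulL bL xL))
          (smul (12 * (lamZ + S0)) xL))))))))

/-- the residual, scaled -/
def resG : List ℤ := flatL 130 (smul 81 r1) (P81 r2) (P81 r3)

/-- the numeric check -/
def chkR : Bool :=
  Nat.ble (smul 81 r1).length 130 && Nat.ble (P81 r2).length 131 &&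
  Nat.ble (P81 r3).length 131 && Nat.ble resG.length 394 &&
  Nat.ble (absSum resG) (2 ^ 70) &&
  Nat.ble (lowS resG 0 0 + tailS 105 26 (resG.drop 79)) 583200000000000000

set_option maxRecDepth 100000 in
theorem chkR_true : chkR = true := by decide +kernel

theorem dX_C_mul (c : ℝ) (f : PS) : d⁄dX ℝ (C c * f) = C c * d⁄dX ℝ f := by
  rw [← smul_eq_C_mul, Derivation.map_smul, smul_eq_C_mul]

theorem E1_res : 12 * 10 ^ 16 * E1 (cl ubar) (cx ubar) (cb ubar) (cm ubar) = lp r1 := by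
  have hr : lp r1 = 16 * 10 ^ 8 * d⁄dX ℝ (lp xL) + 12 * (lp xL * lp bL)
      - 12 * C (lamZ : ℝ) * lp mL := by
    simp only [r1, S0, lp_zadd, lp_smul, lp_mulL, lp_derL]
    push_cast
    simp only [map_mul, map_neg, map_ofNat]
    norm_num
    ring
  rw [hr, cx_ubar, cb_ubar, cm_ubar, E1, dX_C_mul]
  linear_combination (4 * 10 ^ 16 * C (1 / 10 ^ 8 : ℝ) * d⁄dX ℝ (lp xL)) * rel43
    + (16 * 10 ^ 8 * d⁄dX ℝ (lp xL)) * relc
    + 12 * lp xL * lp bL * (10 ^ 8 * C (1 / 10 ^ 8 : ℝ) + 1) * relc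
    - 12 * lp mL * 10 ^ 8 * C (1 / 10 ^ 8 : ℝ) * C_lam - 12 * lp mL * C (lamZ : ℝ) * relc

theorem E2_res : 12 * 10 ^ 16 * E2 (cl ubar) (cx ubar) (cb ubar) (cm ubar) = lp r2 := by
  have hr : lp r2 = 16 * 10 ^ 8 * d⁄dX ℝ (lp bL) - 36 * 10 ^ 8 * X ^ 2 * d⁄dX ℝ (lp bL)
      + 36 * 10 ^ 8 * lp bL - 54 * 10 ^ 8 * X * lp bL + 12 * C (lamZ : ℝ) * 10 ^ 8
      + 12 * (lp mL * lp mL) - 27 * X ^ 2 * (lp mL * lp mL)
      + 24 * (lp xL * lp mL) + 36 * X * (lp xL * lp mL) - 12 * (lp xL * lp xL) := by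
    simp only [r2, S0, lp_zadd, lp_smul, lp_mulL, lp_derL, lp_cons, lp_nil]
    push_cast
    simp only [map_mul, map_neg, map_ofNat, map_zero]
    norm_num
    ring
  rw [hr, cx_ubar, cb_ubar, cm_ubar, E2, dX_C_mul, w2, wp, wm]
  simp only [map_ofNat]
  linear_combination (4 * 10 ^ 16 * C (1 / 10 ^ 8 : ℝ) * d⁄dX ℝ (lp bL)) * rel43
    + (16 * 10 ^ 8 * d⁄dX ℝ (lp bL)) * relc
    - 10 ^ 16 * X ^ 2 * C (1 / 10 ^ 8 : ℝ) * d⁄dX ℝ (lp bL) * (4 * C (9 / 4 : ℝ) * rel43 + 4 * rel94)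
    - 36 * 10 ^ 8 * X ^ 2 * d⁄dX ℝ (lp bL) * relc
    + 36 * 10 ^ 8 * lp bL * relc
    - 18 * 10 ^ 16 * X * C (1 / 10 ^ 8 : ℝ) * lp bL * rel32
    - 54 * 10 ^ 8 * X * lp bL * relc
    + 12 * 10 ^ 8 * C_lam
    + 12 * lp mL * lp mL * (10 ^ 8 * C (1 / 10 ^ 8 : ℝ) + 1) * relc
    - 3 * 10 ^ 16 * X ^ 2 * C (1 / 10 ^ 8 : ℝ) ^ 2 * (lp mL * lp mL) * rel94
    - 27 * X ^ 2 * (lp mL * lp mL) * (10 ^ 8 * C (1 / 10 ^ 8 : ℝ) + 1) * relc
    + 24 * (lp xL * lp mL) * (10 ^ 8 * C (1 / 10 ^ 8 : ℝ) + 1) * relc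
    + 12 * 10 ^ 16 * X * C (1 / 10 ^ 8 : ℝ) ^ 2 * (lp xL * lp mL) * rel32
    + 36 * X * (lp xL * lp mL) * (10 ^ 8 * C (1 / 10 ^ 8 : ℝ) + 1) * relc
    - 12 * (lp xL * lp xL) * (10 ^ 8 * C (1 / 10 ^ 8 : ℝ) + 1) * relc

theorem E3_res : 12 * 10 ^ 16 * E3 (cl ubar) (cx ubar) (cb ubar) (cm ubar) = lp r3 := by
  have hr : lp r3 = 16 * 10 ^ 8 * d⁄dX ℝ (lp mL) - 36 * 10 ^ 8 * X ^ 2 * d⁄dX ℝ (lp mL)
      + 36 * 10 ^ 8 * lp mL - 54 * 10 ^ 8 * X * lp mL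
      - 12 * (lp mL * lp bL) + 27 * X ^ 2 * (lp mL * lp bL)
      - 24 * (lp bL * lp xL) - 36 * X * (lp bL * lp xL)
      + 12 * (C (lamZ : ℝ) + 10 ^ 8) * lp xL := by
    simp only [r3, S0, lp_zadd, lp_smul, lp_mulL, lp_derL, lp_cons]
    push_cast
    simp only [map_mul, map_neg, map_ofNat, map_zero, map_add]
    norm_num
    ring
  rw [hr, cx_ubar, cb_ubar, cm_ubar, E3, dX_C_mul, w2, wp, wm]
  simp only [map_ofNat, map_add, map_one]
  linear_combination (4 * 10 ^ 16 * C (1 / 10 ^ 8 : ℝ) * d⁄dX ℝ (lp mL)) * rel43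
    + (16 * 10 ^ 8 * d⁄dX ℝ (lp mL)) * relc
    - 10 ^ 16 * X ^ 2 * C (1 / 10 ^ 8 : ℝ) * d⁄dX ℝ (lp mL) * (4 * C (9 / 4 : ℝ) * rel43 + 4 * rel94)
    - 36 * 10 ^ 8 * X ^ 2 * d⁄dX ℝ (lp mL) * relc
    + 36 * 10 ^ 8 * lp mL * relc
    - 18 * 10 ^ 16 * X * C (1 / 10 ^ 8 : ℝ) * lp mL * rel32
    - 54 * 10 ^ 8 * X * lp mL * relc
    - 12 * lp mL * lp bL * (10 ^ 8 * C (1 / 10 ^ 8 : ℝ) + 1) * relc
    + 3 * 10 ^ 16 * X ^ 2 * C (1 / 10 ^ 8 : ℝ) ^ 2 * (lp mL * lp bL) * rel94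
    + 27 * X ^ 2 * (lp mL * lp bL) * (10 ^ 8 * C (1 / 10 ^ 8 : ℝ) + 1) * relc
    - 24 * (lp bL * lp xL) * (10 ^ 8 * C (1 / 10 ^ 8 : ℝ) + 1) * relc
    - 12 * 10 ^ 16 * X * C (1 / 10 ^ 8 : ℝ) ^ 2 * (lp bL * lp xL) * rel32
    - 36 * X * (lp bL * lp xL) * (10 ^ 8 * C (1 / 10 ^ 8 : ℝ) + 1) * relc
    + 12 * lp xL * 10 ^ 8 * C (1 / 10 ^ 8 : ℝ) * C_lam + 12 * lp xL * C (lamZ : ℝ) * relc
    + 12 * 10 ^ 8 * lp xL * relc

theorem c12' : (12 * 10 ^ 16 : PS) = C (12 * 10 ^ 16 : ℝ) := by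
  rw [map_mul, map_pow, map_ofNat, map_ofNat]

theorem G_ubar : G ubar = fun e => ((resG.getD e 0 : ℤ) : ℝ) / ((9720000000000000000 : ℕ) : ℝ) := by
  have hc := chkR_true
  simp only [chkR, Bool.and_eq_true, Nat.ble_eq] at hc
  obtain ⟨⟨⟨⟨⟨n1, n2⟩, n3⟩, _⟩, _⟩, _⟩ := hc
  funext e
  unfold G resG
  rw [← flat_lp 130 _ _ _ n1 n2 n3, lp_smul, PP_lp, PP_lp, ← E1_res, ← E2_res, ← E3_res, c12',
    PP_scale, PP_scale]
  have e81 : (C ((81 : ℤ) : ℝ) : PS) = C (81 : ℝ) := by norm_num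
  rw [e81]
  rw [flat_scale, flat_scale]
  push_cast
  ring

theorem Aop_neg (g : ℕ → ℝ) : Aop (fun e => -g e) = -Aop g := by
  funext i
  simp only [Aop, Pi.neg_apply]
  split_ifs
  · rw [← Finset.sum_neg_distrib]
    apply Finset.sum_congr rfl
    intro e _
    ring
  · ring

/-- bound of the residual -/
theorem resid_bound : nrm (Aop (G ubar)) ≤ ENNReal.ofReal (6 / 10 ^ 6) := by
  have hc := chkR_true
  simp only [chkR, Bool.and_eq_true, Nat.ble_eq] at hc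
  obtain ⟨⟨⟨⟨⟨n1, n2⟩, n3⟩, n4⟩, n5⟩, n6⟩ := hc
  have key := nrm_bound resG resG 9720000000000000000 (by norm_num) 0 0 105 0
    583200000000000000 (by intro i _; simp) (by intro i _; simp) (by omega) (by left; norm_num)
    n5 (by norm_num) n6
  rw [← G_ubar] at key
  have hz : nrm (0 - Aop (G ubar)) = nrm (Aop (G ubar)) := by
    unfold nrm
    simp
  rw [hz] at key
  refine key.trans (ENNReal.ofReal_le_ofReal ?_)
  norm_num

end Pool.Agent.H.MP_9f60e7_an.NK
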