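import Pool.Agent.H.MP_9f60e7_an.Lists

/-!
Part A: sound evaluation of row sums (packed arithmetic in base `2^96`).
-/

set_option autoImplicit false

namespace Pool.Agent.H.MP_9f60e7_an.NK

open PowerSeries Finset
open scoped ENNReal

/-- dot product of two lists -/
def dotp : List ℤ → List ℤ → ℤ
  | g :: gs, a :: as => g * a + dotp gs as
  | _, _ => 0

/-- sum of the absolute values of the balanced digits, base `2^96` -/
def absDec : ℕ → ℕ → ℕ → ℕ
  | 0, _, acc => acc
  | c + 1, n, acc =>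
    match n / 2 ^ 96 with
    | 0 => absDec c 0 (acc + ((n % 2 ^ 96) - 2 ^ 95) + (2 ^ 95 - (n % 2 ^ 96)))
    | q + 1 => absDec c (q + 1) (acc + ((n % 2 ^ 96) - 2 ^ 95) + (2 ^ 95 - (n % 2 ^ 96)))

/-- offset -/
def offs : ℕ → ℕ
  | 0 => 0
  | c + 1 => 2 ^ 95 + 2 ^ 96 * offs c

/-- `l^1` norm of an integer list -/
def absSum : List ℤ → ℕ
  | [] => 0
  | a :: l => a.natAbs + absSum l

/-- packing in base `2^96` -/
def pk : List ℤ → ℤ
  | [] => 0
  | a :: l => a + 2 ^ 96 * pk l

/-- low rows -/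
def lowS (g : List ℤ) (q : ℤ) (j : ℕ) : ℕ :=
  absDec 79 (dotp g AP + ((offs 79 : ℕ) : ℤ) - q * 2 ^ (96 * j)).toNat 0

/-- tail rows -/
def tailS : ℕ → ℕ → List ℤ → ℕ
  | 0, _, _ => 0
  | f + 1, k, l => (30000 * (hd l).natAbs) / (4 * k)
      + (20000 * (hd l.tail).natAbs) / (3 * (2 * k + 3))
      + (20000 * (hd l.tail.tail).natAbs) / (3 * (2 * k + 3)) + 3
      + tailS f (k + 1) l.tail.tail.tail

theorem absDec_succ (c n acc : ℕ) : absDec (c + 1) n acc =
    absDec c (n / 2 ^ 96) (acc + ((n % 2 ^ 96) - 2 ^ 95) + (2 ^ 95 - (n % 2 ^ 96))) := by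
  rw [absDec]
  split <;> rename_i h <;> rw [h]

theorem offs_eq (n : ℕ) : ((offs n : ℕ) : ℤ) = ∑ i ∈ range n, (2 ^ 95 : ℤ) * (2 ^ 96) ^ i := by
  induction n with
  | zero => simp [offs]
  | succ n ih =>
    have h : ((offs (n + 1) : ℕ) : ℤ) = 2 ^ 95 + 2 ^ 96 * ((offs n : ℕ) : ℤ) := by
      simp only [offs]
      push_cast
      ring
    rw [Finset.sum_range_succ', h, ih, Finset.mul_sum, add_comm]
    congr 1
    apply Finset.sum_congr rfl
    intro i _
    ring

theorem absDec_eq (n : ℕ) : ∀ (r : ℕ → ℤ) (acc : ℕ), (∀ i < n, |r i| < 2 ^ 95) →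
    ((absDec n (∑ i ∈ range n, (r i + 2 ^ 95) * (2 ^ 96) ^ i).toNat acc : ℕ) : ℤ)
      = acc + ∑ i ∈ range n, |r i| := by
  induction n with
  | zero => intro r acc _; simp [absDec]
  | succ n ih =>
    intro r acc hr
    rw [absDec_succ]
    have h0 := hr 0 (by omega)
    rw [abs_lt] at h0
    set S := ∑ i ∈ range n, (r (i + 1) + 2 ^ 95) * (2 ^ 96 : ℤ) ^ i with hS
    have hSnn : 0 ≤ S := by
      apply Finset.sum_nonneg
      intro i hi
      have := hr (i + 1) (by rw [Finset.mem_range] at hi; omega)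
      rw [abs_lt] at this
      apply mul_nonneg
      · linarith [this.1]
      · positivity
    have hsum : ∑ i ∈ range (n + 1), (r i + 2 ^ 95) * (2 ^ 96 : ℤ) ^ i
        = (r 0 + 2 ^ 95) + 2 ^ 96 * S := by
      rw [Finset.sum_range_succ', hS, Finset.mul_sum, add_comm]
      congr 1
      · simp
      · apply Finset.sum_congr rfl
        intro i _
        ring
    rw [hsum]
    obtain ⟨d, hd⟩ : ∃ d : ℕ, (d : ℤ) = r 0 + 2 ^ 95 :=
      ⟨(r 0 + 2 ^ 95).toNat, Int.toNat_of_nonneg (by linarith [h0.1])⟩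
    obtain ⟨s, hs⟩ : ∃ s : ℕ, (s : ℤ) = S := ⟨S.toNat, Int.toNat_of_nonneg hSnn⟩
    have hdlt : d < 2 ^ 96 := by
      have : (d : ℤ) < 2 ^ 96 := by rw [hd]; linarith [h0.2]
      exact_mod_cast this
    have htn : ((r 0 + 2 ^ 95) + 2 ^ 96 * S).toNat = d + 2 ^ 96 * s := by
      rw [← hd, ← hs]
      have : ((d : ℤ) + 2 ^ 96 * (s : ℤ)) = ((d + 2 ^ 96 * s : ℕ) : ℤ) := by push_cast; ring
      rw [this, Int.toNat_natCast]
    rw [htn]
    have hdiv : (d + 2 ^ 96 * s) / 2 ^ 96 = s := by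
      rw [Nat.add_mul_div_left _ _ (by positivity), Nat.div_eq_of_lt hdlt, Nat.zero_add]
    have hmod : (d + 2 ^ 96 * s) % 2 ^ 96 = d := by
      rw [Nat.add_mul_mod_self_left, Nat.mod_eq_of_lt hdlt]
    rw [hdiv, hmod]
    have hih := ih (fun i => r (i + 1)) (acc + (d - 2 ^ 95) + (2 ^ 95 - d))
      (fun i hi => hr (i + 1) (by omega))
    have hs' : (∑ i ∈ range n, (r (i + 1) + 2 ^ 95) * (2 ^ 96 : ℤ) ^ i).toNat = s := by
      rw [← hS, ← hs, Int.toNat_natCast]
    rw [hs'] at hih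
    rw [hih, Finset.sum_range_succ']
    have hab : (((acc + (d - 2 ^ 95) + (2 ^ 95 - d) : ℕ)) : ℤ) = acc + |r 0| := by
      have hr0 : r 0 = (d : ℤ) - 2 ^ 95 := by rw [hd]; ring
      rw [hr0]
      rcases le_total d (2 ^ 95) with h | h
      · rw [Nat.sub_eq_zero_of_le h]
        have h' : (d : ℤ) - 2 ^ 95 ≤ 0 := by
          have : (d : ℤ) ≤ 2 ^ 95 := by exact_mod_cast h
          linarith
        rw [abs_of_nonpos h', Nat.add_zero, Nat.cast_add, Nat.cast_sub h]
        push_cast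
        ring
      · rw [Nat.sub_eq_zero_of_le h]
        have h' : 0 ≤ (d : ℤ) - 2 ^ 95 := by
          have : (2 ^ 95 : ℤ) ≤ d := by exact_mod_cast h
          linarith
        rw [abs_of_nonneg h', Nat.add_zero, Nat.cast_add, Nat.cast_sub h]
        push_cast
        ring
    rw [hab]
    ring

theorem dotp_eq (l m : List ℤ) : dotp l m = ∑ e ∈ range m.length, l.getD e 0 * m.getD e 0 := by
  induction m generalizing l with
  | nil => cases l <;> simp [dotp]
  | cons b m ih =>
    cases l with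
    | nil => simp [dotp]
    | cons a l =>
      rw [List.length_cons, Finset.sum_range_succ']
      simp only [dotp, List.getD_cons_succ, List.getD_cons_zero, ih l]
      ring

theorem pk_eq (l : List ℤ) : pk l = ∑ i ∈ range l.length, l.getD i 0 * (2 ^ 96) ^ i := by
  induction l with
  | nil => simp [pk]
  | cons b m ih =>
    rw [List.length_cons, Finset.sum_range_succ']
    simp only [pk, List.getD_cons_succ, List.getD_cons_zero, ih]
    rw [Finset.mul_sum, add_comm]
    congr 1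
    · apply Finset.sum_congr rfl
      intro i _
      ring
    · ring

theorem absSum_ge (l : List ℤ) (n : ℕ) :
    ∑ e ∈ range n, |l.getD e 0| ≤ ((absSum l : ℕ) : ℤ) := by
  induction l generalizing n with
  | nil => simp [absSum]
  | cons a l ih =>
    cases n with
    | zero => simp
    | succ n =>
      rw [Finset.sum_range_succ']
      simp only [List.getD_cons_succ, List.getD_cons_zero, absSum]
      push_cast
      have := ih n
      linarith

/-- check of the packed columns -/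
def checkAP : Bool :=
  AC.length == 79 && AP.length == 79 &&
    (List.range 79).all (fun e => (AC.getD e []).length == 79 && (AC.getD e []).all (fun a => a.natAbs ≤ 32768)
      && pk (AC.getD e []) == AP.getD e 0)

set_option maxRecDepth 100000 in
theorem checkAP_true : checkAP = true := by decide +kernel

theorem AC_length : AC.length = 79 := by
  have h := checkAP_true
  simp only [checkAP, Bool.and_eq_true, beq_iff_eq] at h
  exact h.1.1

theorem AP_length : AP.length = 79 := by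
  have h := checkAP_true
  simp only [checkAP, Bool.and_eq_true, beq_iff_eq] at h
  exact h.1.2

theorem AC_facts (e : ℕ) (he : e < 79) : (AC.getD e []).length = 79 ∧
    (∀ a ∈ AC.getD e [], a.natAbs ≤ 32768) ∧ pk (AC.getD e []) = AP.getD e 0 := by
  have h := checkAP_true
  simp only [checkAP, Bool.and_eq_true, beq_iff_eq, List.all_eq_true, List.mem_range,
    decide_eq_true_eq] at h
  obtain ⟨⟨h1, h2⟩, h3⟩ := h.2 e he
  exact ⟨h1, h2, h3⟩

/-- integer entries of the finite block -/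
def aZ (i e : ℕ) : ℤ := (AC.getD e []).getD i 0

theorem Amat_eq (i e : ℕ) : Amat i e = (aZ i e : ℝ) / 10 ^ 4 := rfl

theorem aZ_le (i e : ℕ) (he : e < 79) : |aZ i e| ≤ 32768 := by
  obtain ⟨h1, h2, _⟩ := AC_facts e he
  unfold aZ
  by_cases hi : i < (AC.getD e []).length
  · rw [List.getD_eq_getElem _ _ hi]
    have := h2 _ (List.getElem_mem hi)
    rw [Int.abs_eq_natAbs]
    exact_mod_cast this
  · rw [List.getD_eq_default _ _ (by omega)]
    simp

theorem AP_eq (e : ℕ) (he : e < 79) :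
    AP.getD e 0 = ∑ i ∈ range 79, aZ i e * (2 ^ 96) ^ i := by
  obtain ⟨h1, _, h3⟩ := AC_facts e he
  rw [← h3, pk_eq, h1]
  rfl

/-- integer row values -/
def rowZ (g : List ℤ) (q : ℤ) (j i : ℕ) : ℤ :=
  ∑ e ∈ range 79, g.getD e 0 * aZ i e - (if i = j then q else 0)

theorem packed_eq (g : List ℤ) (q : ℤ) (j : ℕ) (hq : j < 79 ∨ q = 0) :
    dotp g AP - q * 2 ^ (96 * j) = ∑ i ∈ range 79, rowZ g q j i * (2 ^ 96) ^ i := by
  rw [dotp_eq, AP_length]
  have h1 : ∑ e ∈ range 79, g.getD e 0 * AP.getD e 0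
      = ∑ i ∈ range 79, (∑ e ∈ range 79, g.getD e 0 * aZ i e) * (2 ^ 96) ^ i := by
    simp only [Finset.sum_mul]
    rw [Finset.sum_comm]
    apply Finset.sum_congr rfl
    intro e he
    rw [AP_eq e (Finset.mem_range.mp he), Finset.mul_sum]
    apply Finset.sum_congr rfl
    intro i _
    ring
  rw [h1]
  simp only [rowZ, sub_mul, Finset.sum_sub_distrib]
  congr 1
  rcases hq with hj | hq
  · rw [Finset.sum_eq_single j]
    · simp [pow_mul]
    · intro i _ hij; simp [hij]
    · intro h; exact absurd (Finset.mem_range.mpr hj) h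
  · subst hq; simp

theorem lowS_eq (g : List ℤ) (q : ℤ) (j : ℕ) (hq : j < 79 ∨ q = 0) (hg : absSum g ≤ 2 ^ 70)
    (hq2 : |q| ≤ 2 ^ 90) :
    ((lowS g q j : ℕ) : ℤ) = ∑ i ∈ range 79, |rowZ g q j i| := by
  have hb : ∀ i < 79, |rowZ g q j i| < 2 ^ 95 := by
    intro i _
    have h1 : |∑ e ∈ range 79, g.getD e 0 * aZ i e| ≤ 2 ^ 70 * 32768 := by
      calc |∑ e ∈ range 79, g.getD e 0 * aZ i e|
          ≤ ∑ e ∈ range 79, |g.getD e 0 * aZ i e| := Finset.abs_sum_le_sum_abs _ _
        _ ≤ ∑ e ∈ range 79, |g.getD e 0| * 32768 := by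
            apply Finset.sum_le_sum
            intro e he
            rw [abs_mul]
            exact mul_le_mul_of_nonneg_left (aZ_le i e (Finset.mem_range.mp he)) (abs_nonneg _)
        _ = (∑ e ∈ range 79, |g.getD e 0|) * 32768 := by rw [Finset.sum_mul]
        _ ≤ 2 ^ 70 * 32768 := by
            apply mul_le_mul_of_nonneg_right _ (by norm_num)
            refine (absSum_ge g 79).trans ?_
            exact_mod_cast hg
    have h2 : |(if i = j then q else 0)| ≤ 2 ^ 90 := by
      split_ifs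
      · exact hq2
      · simp
    unfold rowZ
    calc _ ≤ |∑ e ∈ range 79, g.getD e 0 * aZ i e| + |(if i = j then q else 0)| := abs_sub _ _
      _ ≤ 2 ^ 70 * 32768 + 2 ^ 90 := add_le_add h1 h2
      _ < 2 ^ 95 := by norm_num
  have key := absDec_eq 79 (rowZ g q j) 0 hb
  rw [lowS]
  have h3 : dotp g AP + ((offs 79 : ℕ) : ℤ) - q * 2 ^ (96 * j)
      = ∑ i ∈ range 79, (rowZ g q j i + 2 ^ 95) * (2 ^ 96) ^ i := by
    simp only [add_mul, Finset.sum_add_distrib]
    rw [← offs_eq, ← packed_eq g q j hq]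
    ring
  rw [h3, key]
  simp

end Pool.Agent.H.MP_9f60e7_an.NK
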