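import Pool.Agent.H.MP_9f60e7_an.Data

/-!
Part A: power series formulation of the profile equations, `tau = (2/3) sigma`, `sigma = 2 x - 1`.
Unknowns: the exponent `l` and three power series `x = l * xi`, `b`, `m` (in `tau`).
-/

set_option autoImplicit false

namespace Pool.Agent.H.MP_9f60e7_an.NK

open PowerSeries
open scoped ENNReal

/-- real power series -/
abbrev PS := PowerSeries ℝ

/-- `1 - (9/4) X^2`, i.e. `4 x (1-x)` -/
noncomputable def w2 : PS := 1 - C (9 / 4 : ℝ) * X ^ 2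
/-- `1 + (3/2) X`, i.e. `2 x` -/
noncomputable def wp : PS := 1 + C (3 / 2 : ℝ) * X
/-- `1 - (3/2) X`, i.e. `2 (1 - x)` -/
noncomputable def wm : PS := 1 - C (3 / 2 : ℝ) * X

/-- first equation -/
noncomputable def E1 (l : ℝ) (x b m : PS) : PS :=
  C (4 / 3 : ℝ) * d⁄dX ℝ x + x * b - C l * m

/-- second equation -/
noncomputable def E2 (l : ℝ) (x b m : PS) : PS :=
  C (4 / 3 : ℝ) * w2 * d⁄dX ℝ b + C (3 : ℝ) * wm * b + C l + w2 * (m * m)
    + C (2 : ℝ) * wp * (x * m) - x * x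

/-- third equation -/
noncomputable def E3 (l : ℝ) (x b m : PS) : PS :=
  C (4 / 3 : ℝ) * w2 * d⁄dX ℝ m + C (3 : ℝ) * wm * m - w2 * (m * b)
    - C (2 : ℝ) * wp * (b * x) + C (l + 1) * x

/-- linearization of `E1` at `(l,x,b,m)` -/
noncomputable def DE1 (l : ℝ) (x b m : PS) (l' : ℝ) (x' b' m' : PS) : PS :=
  C (4 / 3 : ℝ) * d⁄dX ℝ x' + (x * b' + b * x') - C l * m' - C l' * m

/-- linearization of `E2` at `(l,x,b,m)` -/
noncomputable def DE2 (_l : ℝ) (x _b m : PS) (l' : ℝ) (x' b' m' : PS) : PS :=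
  C (4 / 3 : ℝ) * w2 * d⁄dX ℝ b' + C (3 : ℝ) * wm * b' + C l' + C (2 : ℝ) * w2 * (m * m')
    + C (2 : ℝ) * wp * (x * m' + m * x') - C (2 : ℝ) * (x * x')

/-- linearization of `E3` at `(l,x,b,m)` -/
noncomputable def DE3 (l : ℝ) (x b m : PS) (l' : ℝ) (x' b' m' : PS) : PS :=
  C (4 / 3 : ℝ) * w2 * d⁄dX ℝ m' + C (3 : ℝ) * wm * m' - w2 * (m * b' + b * m')
    - C (2 : ℝ) * wp * (b * x' + x * b') + C (l + 1) * x' + C l' * x

/-- symmetric bilinear form of the quadratic part of `E1` -/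
noncomputable def BE1 (sl : ℝ) (sx sb sm : PS) (hl : ℝ) (hx hb hm : PS) : PS :=
  C (1 / 2 : ℝ) * (sx * hb + sb * hx) - C (1 / 2 : ℝ) * (C sl * hm + C hl * sm)

/-- symmetric bilinear form of the quadratic part of `E2` -/
noncomputable def BE2 (_sl : ℝ) (sx _sb sm : PS) (_hl : ℝ) (hx _hb hm : PS) : PS :=
  w2 * (sm * hm) + wp * (sx * hm + sm * hx) - sx * hx

/-- symmetric bilinear form of the quadratic part of `E3` -/
noncomputable def BE3 (sl : ℝ) (sx sb sm : PS) (hl : ℝ) (hx hb hm : PS) : PS :=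
  -(C (1 / 2 : ℝ) * w2 * (sm * hb + sb * hm)) - wp * (sb * hx + sx * hb)
    + C (1 / 2 : ℝ) * (C sl * hx + C hl * sx)

/-- the operator `g ↦ g_n + (4/9) g_{n+2} + (16/81) g_{n+4}` on coefficients -/
noncomputable def PP (g : PS) : PS :=
  PowerSeries.mk fun n => coeff n g + 4 / 9 * coeff (n + 2) g + 16 / 81 * coeff (n + 4) g

/-- interleaving of the three equations. Index `0`: `g2_0`, index `1`: `g3_0`,
index `3n+2`: `g2_{n+1}`, index `3n+3`: `g3_{n+1}`, index `3n+4`: `g1_n`. -/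
noncomputable def flat (g1 g2 g3 : PS) (e : ℕ) : ℝ :=
  if e = 0 then coeff 0 g2 else if e = 1 then coeff 0 g3 else
    if (e - 2) % 3 = 0 then coeff ((e - 2) / 3 + 1) g2
    else if (e - 2) % 3 = 1 then coeff ((e - 2) / 3 + 1) g3
    else coeff ((e - 2) / 3) g1

/-- the components of a flat unknown `u : ℕ → ℝ`: `u 0` is the exponent, -/
noncomputable def cl (u : ℕ → ℝ) : ℝ := u 0
/-- `u (3n+1)` are the coefficients of `x`, -/
noncomputable def cx (u : ℕ → ℝ) : PS := PowerSeries.mk fun n => u (3 * n + 1)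
/-- `u (3n+2)` are the coefficients of `b`, -/
noncomputable def cb (u : ℕ → ℝ) : PS := PowerSeries.mk fun n => u (3 * n + 2)
/-- `u (3n+3)` are the coefficients of `m`. -/
noncomputable def cm (u : ℕ → ℝ) : PS := PowerSeries.mk fun n => u (3 * n + 3)

/-- flat residual -/
noncomputable def G (u : ℕ → ℝ) : ℕ → ℝ :=
  flat (E1 (cl u) (cx u) (cb u) (cm u)) (PP (E2 (cl u) (cx u) (cb u) (cm u)))
    (PP (E3 (cl u) (cx u) (cb u) (cm u)))

/-- flat linearization at `w` -/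
noncomputable def DG (w h : ℕ → ℝ) : ℕ → ℝ :=
  flat (DE1 (cl w) (cx w) (cb w) (cm w) (cl h) (cx h) (cb h) (cm h))
    (PP (DE2 (cl w) (cx w) (cb w) (cm w) (cl h) (cx h) (cb h) (cm h)))
    (PP (DE3 (cl w) (cx w) (cb w) (cm w) (cl h) (cx h) (cb h) (cm h)))

/-- flat bilinear form -/
noncomputable def BG (s h : ℕ → ℝ) : ℕ → ℝ :=
  flat (BE1 (cl s) (cx s) (cb s) (cm s) (cl h) (cx h) (cb h) (cm h))
    (PP (BE2 (cl s) (cx s) (cb s) (cm s) (cl h) (cx h) (cb h) (cm h)))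
    (PP (BE3 (cl s) (cx s) (cb s) (cm s) (cl h) (cx h) (cb h) (cm h)))

/-- the approximate solution (flat) -/
noncomputable def ubar : ℕ → ℝ := fun i =>
  if i = 0 then (lamZ : ℝ) / 10 ^ 8
  else if (i - 1) % 3 = 0 then ((xL.getD ((i - 1) / 3) 0 : ℤ) : ℝ) / 10 ^ 8
  else if (i - 1) % 3 = 1 then ((bL.getD ((i - 1) / 3) 0 : ℤ) : ℝ) / 10 ^ 8
  else ((mL.getD ((i - 1) / 3) 0 : ℤ) : ℝ) / 10 ^ 8

/-- entries of the finite block (79 x 79) of the approximate inverse -/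
noncomputable def Amat (i e : ℕ) : ℝ := (((AC.getD e []).getD i 0 : ℤ) : ℝ) / 10 ^ 4

/-- diagonal of the tail (for `i ≥ 79`): `4k/3` for the unknown `x_k` (`i = 3k+1`),
`-(3/2)(2k+3)` for the unknowns `b_k`, `m_k` (`i = 3k+2, 3k+3`). -/
noncomputable def dd (i : ℕ) : ℝ :=
  if (i - 1) % 3 = 0 then 4 / 3 * (((i - 1) / 3 : ℕ) : ℝ)
  else -(3 / 2 * (2 * (((i - 1) / 3 : ℕ) : ℝ) + 3))

/-- the approximate inverse: dense on the first 79 indices, diagonal on the others -/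
noncomputable def Aop (g : ℕ → ℝ) : ℕ → ℝ := fun i =>
  if i < 79 then ∑ e ∈ Finset.range 79, Amat i e * g e else g i / dd i

/-- the Newton-like map -/
noncomputable def T (u : ℕ → ℝ) : ℕ → ℝ := fun i => u i - Aop (G u) i

/-- the `l^1` norm -/
noncomputable def nrm (u : ℕ → ℝ) : ℝ≥0∞ := ∑' i, ‖u i‖ₑ

/-- `l^1` norm of a power series -/
noncomputable def NN (f : PS) : ℝ≥0∞ := ∑' n, ‖coeff n f‖ₑ

/-- coordinate vector -/
noncomputable def dl (j : ℕ) : ℕ → ℝ := fun i => if i = j then 1 else 0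

end Pool.Agent.H.MP_9f60e7_an.NK
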